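import Mathlib

set_option autoImplicit false

/-!
Area inequality with multiplicity, and a lower bound for the determinant of `L + t`.
-/

open MeasureTheory Set Filter Topology ENNReal NNReal

namespace Pool.Agent.H803R2.Kak

section area

variable {E : Type*} [NormedAddCommGroup E] [NormedSpace ℝ E] [FiniteDimensional ℝ E]
  [MeasurableSpace E] [BorelSpace E] (μ : Measure E) [μ.IsAddHaarMeasure]

/-- If `φ` is differentiable on the measurable set `s` and takes almost every value at most `N`
times on `s`, then the integral of the absolute Jacobian over the points of `s` mapped to `U` is at most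
`N` times the measure of `U`. -/
theorem lintegral_det_le_mul {φ : E → E} {φ' : E → E →L[ℝ] E} {s U : Set E} {N : ℕ}
    (hs : MeasurableSet s) (hU : MeasurableSet U) (hφ : ∀ x ∈ s, HasFDerivAt φ (φ' x) x)
    (hm : Measurable φ')
    (hN : ∀ᵐ y ∂μ, {x | x ∈ s ∧ φ x = y}.encard ≤ N) :
    ∫⁻ x in {x | x ∈ s ∧ φ x ∈ U}, ENNReal.ofReal |(φ' x).det| ∂μ ≤ N * μ U := by
  classical
  -- the set where the determinant does not vanish
  set s' : Set E := {x | x ∈ s ∧ (φ' x).det ≠ 0} with hs'
  have hdet : Measurable (fun x => (φ' x).det) :=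
    ContinuousLinearMap.continuous_det.measurable.comp hm
  have hs'm : MeasurableSet s' := by
    have : s' = s ∩ {x | (φ' x).det ≠ 0} := rfl
    rw [this]
    exact hs.inter (hdet (measurableSet_singleton (0:ℝ)).compl)
  let r : (E →L[ℝ] E) → ℝ≥0 := fun A =>
    if h : A.det ≠ 0 then
      (if Subsingleton E then 1 else ‖((A.toContinuousLinearEquivOfDetNeZero h).symm : E →L[ℝ] E)‖₊⁻¹ / 2)
    else 1
  have hr : ∀ A, r A ≠ 0 := by
    intro A
    simp only [r]
    split_ifs with h1 h2
    · exact one_ne_zero
    · have hne : Nontrivial E := not_subsingleton_iff_nontrivial.1 h2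
      have : 0 < ‖((A.toContinuousLinearEquivOfDetNeZero h1).symm : E →L[ℝ] E)‖₊ := by
        have := (A.toContinuousLinearEquivOfDetNeZero h1).symm.norm_pos
        exact_mod_cast this
      positivity
    · exact one_ne_zero
  obtain ⟨t, A, hdisj, htm, hcov, happ, hA⟩ :=
    exists_partition_approximatesLinearOn_of_hasFDerivWithinAt φ s' φ'
      (fun x hx => (hφ x hx.1).hasFDerivWithinAt) r hr
  have hinj : ∀ n, InjOn φ (s' ∩ t n) := by
    intro n
    rcases s'.eq_empty_or_nonempty with he | hne
    · simp [he]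
    obtain ⟨y, hy, hAy⟩ := hA hne n
    have hdy : (A n).det ≠ 0 := by rw [hAy]; exact hy.2
    have happn := happ n
    set e := (A n).toContinuousLinearEquivOfDetNeZero hdy with he
    have hcoe : (e : E →L[ℝ] E) = A n := by
      ext x; simp [he]
    have h1 : ApproximatesLinearOn φ (e : E →L[ℝ] E) (s' ∩ t n) (r (A n)) := by
      rw [hcoe]; exact happn
    refine h1.injOn ?_
    by_cases hsub : Subsingleton E
    · exact Or.inl hsub
    · right
      have hne' : Nontrivial E := not_subsingleton_iff_nontrivial.1 hsub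
      have hpos : 0 < ‖(e.symm : E →L[ℝ] E)‖₊ := by
        have := e.symm.norm_pos
        exact_mod_cast this
      have : r (A n) = ‖(e.symm : E →L[ℝ] E)‖₊⁻¹ / 2 := by
        simp only [r, dif_pos hdy, if_neg hsub, he]
      rw [this]
      exact NNReal.half_lt_self (by positivity)
  -- restrict to `U`
  have hcontφ : ∀ x ∈ s, ContinuousAt φ x := fun x hx => (hφ x hx).continuousAt
  have hmeasφ : Measurable (s.indicator φ) := by
    have hc : ContinuousOn φ s := fun x hx => (hcontφ x hx).continuousWithinAt
    have h3 := hc.measurable_piecewise (g := fun _ => (0:E)) continuousOn_const hs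
    have h4 : s.indicator φ = s.piecewise φ (fun _ => (0:E)) := by
      rw [← Set.piecewise_eq_indicator]; rfl
    rw [h4]; exact h3
  have hpre : MeasurableSet {x | x ∈ s ∧ φ x ∈ U} := by
    have : {x | x ∈ s ∧ φ x ∈ U} = s ∩ (s.indicator φ) ⁻¹' U := by
      ext x
      constructor
      · rintro ⟨h1, h2⟩; exact ⟨h1, by simpa [h1] using h2⟩
      · rintro ⟨h1, h2⟩; exact ⟨h1, by simpa [h1] using h2⟩
    rw [this]
    exact hs.inter (hmeasφ hU)
  have hsplit : ∫⁻ x in {x | x ∈ s ∧ φ x ∈ U}, ENNReal.ofReal |(φ' x).det| ∂μ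
      = ∫⁻ x in (s' ∩ {x | x ∈ s ∧ φ x ∈ U}), ENNReal.ofReal |(φ' x).det| ∂μ := by
    rw [← lintegral_indicator hpre, ← lintegral_indicator (hs'm.inter hpre)]
    congr 1
    ext x
    by_cases hx : x ∈ {x | x ∈ s ∧ φ x ∈ U}
    · by_cases hx' : (φ' x).det = 0
      · have h2 : x ∉ s' ∩ {x | x ∈ s ∧ φ x ∈ U} := fun h => h.1.2 hx'
        rw [indicator_of_mem hx, indicator_of_notMem h2, hx']
        simp
      · have h2 : x ∈ s' ∩ {x | x ∈ s ∧ φ x ∈ U} := ⟨⟨hx.1, hx'⟩, hx⟩
        rw [indicator_of_mem hx, indicator_of_mem h2]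
    · have h2 : x ∉ s' ∩ {x | x ∈ s ∧ φ x ∈ U} := fun h => hx h.2
      rw [indicator_of_notMem hx, indicator_of_notMem h2]
  rw [hsplit]
  set V : ℕ → Set E := fun n => (s' ∩ t n) ∩ {x | x ∈ s ∧ φ x ∈ U} with hV
  have hVm : ∀ n, MeasurableSet (V n) := fun n => (hs'm.inter (htm n)).inter hpre
  have hVU : s' ∩ {x | x ∈ s ∧ φ x ∈ U} = ⋃ n, V n := by
    ext x
    constructor
    · rintro ⟨h1, h2⟩
      obtain ⟨n, hn⟩ := mem_iUnion.1 (hcov h1)
      exact mem_iUnion.2 ⟨n, ⟨⟨h1, hn⟩, h2⟩⟩
    · intro h
      obtain ⟨n, hn⟩ := mem_iUnion.1 h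
      exact ⟨hn.1.1, hn.2⟩
  have hVd : Pairwise (Function.onFun Disjoint V) := by
    intro i j hij
    have := hdisj hij
    exact Set.disjoint_left.2 fun x hx hx' => (Set.disjoint_left.1 this) hx.1.2 hx'.1.2
  rw [hVU, lintegral_iUnion hVm hVd]
  have himg : ∀ n, ∫⁻ x in V n, ENNReal.ofReal |(φ' x).det| ∂μ = μ (φ '' V n) := by
    intro n
    exact lintegral_abs_det_fderiv_eq_addHaar_image μ (hVm n)
      (fun x hx => (hφ x hx.1.1.1).hasFDerivWithinAt) ((hinj n).mono inter_subset_left)
  have himgm : ∀ n, MeasurableSet (φ '' V n) := by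
    intro n
    exact measurable_image_of_fderivWithin (hVm n)
      (fun x hx => (hφ x hx.1.1.1).hasFDerivWithinAt) ((hinj n).mono inter_subset_left)
  calc ∑' n, ∫⁻ x in V n, ENNReal.ofReal |(φ' x).det| ∂μ
      = ∑' n, μ (φ '' V n) := by simp_rw [himg]
    _ = ∑' n, ∫⁻ y, (φ '' V n).indicator (fun _ => (1:ℝ≥0∞)) y ∂μ := by
        congr 1; ext n; rw [lintegral_indicator_const (himgm n), one_mul]
    _ = ∫⁻ y, ∑' n, (φ '' V n).indicator (fun _ => (1:ℝ≥0∞)) y ∂μ := by
        rw [lintegral_tsum]
        intro n
        exact (measurable_const.indicator (himgm n)).aemeasurable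
    _ ≤ ∫⁻ y, U.indicator (fun _ => (N:ℝ≥0∞)) y ∂μ := by
        apply lintegral_mono_ae
        filter_upwards [hN] with y hNy
        by_cases hy : y ∈ U
        · rw [indicator_of_mem hy]
          -- each n with y in the image gives a distinct preimage
          show ∑' n, (φ '' V n).indicator (fun _ => (1:ℝ≥0∞)) y ≤ N
          rw [ENNReal.tsum_eq_iSup_sum]
          apply iSup_le
          intro S
          have hsum : ∑ n ∈ S, (φ '' V n).indicator (fun _ => (1:ℝ≥0∞)) y
              = ((S.filter (fun n => y ∈ φ '' V n)).card : ℝ≥0∞) := by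
            rw [Finset.card_filter]
            push_cast
            apply Finset.sum_congr rfl
            intro n _
            by_cases h : y ∈ φ '' V n
            · simp [h]
            · simp [h]
          rw [hsum]
          have hcard : ((S.filter (fun n => y ∈ φ '' V n)).card : ℕ∞) ≤ N := by
            refine le_trans ?_ hNy
            choose! g hg using fun n (h : y ∈ φ '' V n) => h
            have hinjg : InjOn g (S.filter (fun n => y ∈ φ '' V n) : Set ℕ) := by
              intro i hi j hj hij
              by_contra hne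
              have h1 := (Finset.mem_filter.1 (Finset.mem_coe.1 hi)).2
              have h2 := (Finset.mem_filter.1 (Finset.mem_coe.1 hj)).2
              have h3 := hg i h1
              have h4 := hg j h2
              rw [hij] at h3
              exact (Set.disjoint_left.1 (hVd hne)) h3.1 h4.1
            have himg2 : g '' (S.filter (fun n => y ∈ φ '' V n) : Set ℕ) ⊆ {x | x ∈ s ∧ φ x = y} := by
              rintro x ⟨n, hn, rfl⟩
              have h1 := (Finset.mem_filter.1 (Finset.mem_coe.1 hn)).2
              have h3 := hg n h1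
              exact ⟨h3.1.2.1, h3.2⟩
            have := Set.encard_le_encard himg2
            rw [hinjg.encard_image, Set.encard_coe_eq_coe_finsetCard] at this
            exact this
          exact_mod_cast hcard
        · rw [indicator_of_notMem hy]
          have : ∀ n, (φ '' V n).indicator (fun _ => (1:ℝ≥0∞)) y = 0 := by
            intro n
            apply indicator_of_notMem
            rintro ⟨x, hx, rfl⟩
            exact hy hx.2.2
          simp [this]
    _ = N * μ U := by rw [lintegral_indicator_const hU]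

end area

end Pool.Agent.H803R2.Kak
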