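import Mathlib

set_option autoImplicit false

/-!
A lower bound for the determinant of `L + t` and one-dimensional integrals.
-/

open MeasureTheory Set Filter Topology ENNReal NNReal

namespace Pool.Agent.H803R2.Kak

/-- A monic real polynomial of degree `d` is bounded below by a product of `d` real distances. -/
theorem exists_real_centers (p : Polynomial ℝ) (hp : p.Monic) :
    ∃ μ : Multiset ℝ, μ.card = p.natDegree ∧ ∀ t : ℝ, (μ.map (fun m => |t - m|)).prod ≤ |p.eval t| := by
  classical
  set q : Polynomial ℂ := p.map (algebraMap ℝ ℂ) with hq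
  have hqm : q.Monic := hp.map _
  have hsplit : q.Splits := IsAlgClosed.splits q
  refine ⟨q.roots.map Complex.re, ?_, ?_⟩
  · rw [Multiset.card_map, ← hsplit.natDegree_eq_card_roots]
    exact Polynomial.natDegree_map_eq_of_injective (algebraMap ℝ ℂ).injective p
  · intro t
    have h1 : q.eval (t : ℂ) = ((p.eval t : ℝ) : ℂ) := by
      rw [hq, Polynomial.eval_map_algebraMap]
      have := Polynomial.aeval_algebraMap_apply ℂ t p
      simpa using this
    have h2 : q = (q.roots.map (fun a => Polynomial.X - Polynomial.C a)).prod := by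
      have := hsplit.eq_prod_roots
      rw [hqm.leadingCoeff, Polynomial.C_1, one_mul] at this
      exact this
    have h3 : ‖q.eval (t : ℂ)‖ = (q.roots.map (fun a => ‖(t:ℂ) - a‖)).prod := by
      conv_lhs => rw [h2]
      rw [Polynomial.eval_multiset_prod, Multiset.map_map]
      have : ∀ (m : Multiset ℂ), ‖(m.map ((Polynomial.eval (t:ℂ)) ∘ (fun a => Polynomial.X - Polynomial.C a))).prod‖
          = (m.map (fun a => ‖(t:ℂ) - a‖)).prod := by
        intro m
        induction m using Multiset.induction_on with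
        | empty => simp
        | cons a m ih =>
          rw [Multiset.map_cons, Multiset.prod_cons, norm_mul, ih, Multiset.map_cons,
            Multiset.prod_cons]
          simp
      exact this _
    have h4 : |p.eval t| = ‖q.eval (t:ℂ)‖ := by
      rw [h1, Complex.norm_real, Real.norm_eq_abs]
    rw [h4, h3, Multiset.map_map]
    have : ∀ (m : Multiset ℂ), (m.map ((fun m => |t - m|) ∘ Complex.re)).prod
        ≤ (m.map (fun a => ‖(t:ℂ) - a‖)).prod := by
      intro m
      induction m using Multiset.induction_on with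
      | empty => simp
      | cons a m ih =>
        simp only [Multiset.map_cons, Multiset.prod_cons, Function.comp]
        apply mul_le_mul _ ih
        · apply Multiset.prod_nonneg
          intro x hx
          obtain ⟨b, _, rfl⟩ := Multiset.mem_map.1 hx
          exact abs_nonneg _
        · exact norm_nonneg _
        · have := Complex.abs_re_le_norm ((t:ℂ) - a)
          simpa using this
    exact this _

section det

variable {F : Type*} [NormedAddCommGroup F] [NormedSpace ℝ F] [FiniteDimensional ℝ F]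

theorem det_centers (L : F →L[ℝ] F) :
    ∃ μ : Multiset ℝ, μ.card = Module.finrank ℝ F ∧
      ∀ t : ℝ, (μ.map (fun m => |t - m|)).prod ≤ |(L + t • ContinuousLinearMap.id ℝ F).det| := by
  obtain ⟨μ, h1, h2⟩ := exists_real_centers ((-(L : F →ₗ[ℝ] F)).charpoly) (LinearMap.charpoly_monic _)
  refine ⟨μ, ?_, ?_⟩
  · rw [h1, LinearMap.charpoly_natDegree]
  · intro t
    refine (h2 t).trans_eq ?_
    rw [LinearMap.eval_charpoly]
    congr 1
    show LinearMap.det _ = LinearMap.det _
    congr 1
    ext x
    simp [Algebra.algebraMap_eq_smul_one, add_comm]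

end det

/-- One-sided logarithmic integral. -/
theorem lint_one_side {m δ α : ℝ} (hδ : 0 < δ) (hα : m + δ ≤ α) :
    ∫⁻ t in Icc α (α + 3), (ENNReal.ofReal |t - m|)⁻¹ ≤ ENNReal.ofReal (Real.log (1 + 3 / δ)) := by
  have hpos : ∀ t ∈ Icc α (α + 3), 0 < t - m := fun t ht => by linarith [ht.1]
  have h1 : ∫⁻ t in Icc α (α + 3), (ENNReal.ofReal |t - m|)⁻¹
      = ∫⁻ t in Icc α (α + 3), ENNReal.ofReal ((t - m)⁻¹) := by
    apply setLIntegral_congr_fun measurableSet_Icc
    intro t ht
    have := hpos t ht
    show (ENNReal.ofReal |t - m|)⁻¹ = ENNReal.ofReal ((t - m)⁻¹)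
    rw [abs_of_pos this, ENNReal.ofReal_inv_of_pos this]
  have hcont : ContinuousOn (fun t : ℝ => (t - m)⁻¹) (Icc α (α + 3)) := by
    apply ContinuousOn.inv₀ (by fun_prop)
    intro t ht; exact (hpos t ht).ne'
  have hint : IntegrableOn (fun t : ℝ => (t - m)⁻¹) (Icc α (α + 3)) := hcont.integrableOn_Icc
  rw [h1, ← ofReal_integral_eq_lintegral_ofReal hint]
  · apply ENNReal.ofReal_le_ofReal
    rw [integral_Icc_eq_integral_Ioc, ← intervalIntegral.integral_of_le (by linarith)]
    rw [intervalIntegral.integral_comp_sub_right (fun x => x⁻¹) m]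
    have hpa : 0 < α - m := by linarith
    rw [integral_inv_of_pos hpa (by linarith)]
    apply Real.log_le_log (div_pos (by linarith) hpa)
    rw [div_le_iff₀ hpa]
    have : 3 / δ * (α - m) ≥ 3 := by
      have : 3 / δ * (α - m) ≥ 3 / δ * δ := by
        apply mul_le_mul_of_nonneg_left (by linarith) (by positivity)
      rwa [div_mul_cancel₀ _ hδ.ne'] at this
    nlinarith
  · filter_upwards [self_mem_ae_restrict measurableSet_Icc] with t ht
    exact inv_nonneg.2 (hpos t ht).le

/-- The logarithmic integral away from the centre over an interval of length three. -/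
theorem lint_away {m δ h : ℝ} (hδ : 0 < δ) :
    ∫⁻ t in {t | t ∈ Icc h (h + 3) ∧ δ ≤ |t - m|}, (ENNReal.ofReal |t - m|)⁻¹
      ≤ 2 * ENNReal.ofReal (Real.log (1 + 3 / δ)) := by
  set α := max (m + δ) h
  set β := max (-m + δ) (-(h+3))
  have hsub : {t | t ∈ Icc h (h + 3) ∧ δ ≤ |t - m|} ⊆ Icc α (α + 3) ∪ (fun t => -t) ⁻¹' Icc β (β + 3) := by
    rintro t ⟨⟨h1, h2⟩, h3⟩
    rcases le_abs'.1 h3 with h4 | h4
    · right
      refine ⟨max_le (by linarith) (by linarith), ?_⟩
      have := le_max_right (-m + δ) (-(h+3))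
      show -t ≤ β + 3
      linarith
    · left
      refine ⟨max_le (by linarith) h1, ?_⟩
      have := le_max_right (m + δ) h
      linarith
  have hA : ∫⁻ t in Icc α (α + 3), (ENNReal.ofReal |t - m|)⁻¹ ≤ ENNReal.ofReal (Real.log (1 + 3 / δ)) :=
    lint_one_side hδ (le_max_left _ _)
  have hB : ∫⁻ t in (fun t => -t) ⁻¹' Icc β (β + 3), (ENNReal.ofReal |t - m|)⁻¹
      ≤ ENNReal.ofReal (Real.log (1 + 3 / δ)) := by
    have h1 := lint_one_side (m := -m) hδ (le_max_left (-m + δ) (-(h+3)))
    refine le_trans (le_of_eq ?_) h1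
    have h2 : (fun t : ℝ => (ENNReal.ofReal |t - m|)⁻¹) = (fun t => (ENNReal.ofReal |t - -m|)⁻¹) ∘ (fun t => -t) := by
      ext t
      simp only [Function.comp]
      congr 2
      rw [← abs_neg]; congr 1; ring
    rw [h2]
    have hmp : MeasurePreserving (fun t : ℝ => -t) volume volume := Measure.measurePreserving_neg volume
    exact hmp.setLIntegral_comp_preimage measurableSet_Icc
      ((((measurable_id.sub_const (-m)).abs).ennreal_ofReal).inv)
  calc ∫⁻ t in {t | t ∈ Icc h (h + 3) ∧ δ ≤ |t - m|}, (ENNReal.ofReal |t - m|)⁻¹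
      ≤ ∫⁻ t in Icc α (α + 3) ∪ (fun t => -t) ⁻¹' Icc β (β + 3), (ENNReal.ofReal |t - m|)⁻¹ :=
        lintegral_mono_set hsub
    _ ≤ _ := lintegral_union_le _ _ _
    _ ≤ _ := by
        rw [two_mul]
        exact add_le_add hA hB

end Pool.Agent.H803R2.Kak
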