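import Pool.Agent.H803R2.KakInt

set_option autoImplicit false

/-!
# MP_5168f5: the Kakeya maximal estimate for differentiable, finite-to-one families of lines

Work in `ℝ^{d+1} = ℝ^d × ℝ` with its Euclidean norm (`Space d`).  For `v ∈ ℝ^d`, `|v| ≤ 1`, let
`dir v = (v, 1)/|(v, 1)|`; these are all the directions of a fixed cap.  A family of lines, one in
each direction, is given by a map `b : ℝ^d → ℝ^d`: the line in direction `dir v` is
`{(b v + s v, s) : s ∈ ℝ}`.  `lineMax δ b f v` is the supremum of the averages of `|f|` over the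
`δ`-tubes of length one with axis on the line number `v`.

For *every* selection `b` that is differentiable on the (measurable) set of directions `B`, and
such that for almost all heights `t` the section map `v ↦ b v + t v` takes almost every value at
most `N` times at non-degenerate points of `B`, the Kakeya maximal estimate holds in `L^n`, `n = d+1`, with
only a logarithmic loss, with the constant `N` and no other dependence on `b`.
-/

open MeasureTheory Set Filter Topology ENNReal NNReal Metric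

namespace Pool.Agent.H803R2.KakFTO

open Pool.Agent.H803R2.Kak

/-- Euclidean space `ℝ^d`. -/
abbrev Vec (d : ℕ) : Type := EuclideanSpace ℝ (Fin d)

/-- Euclidean space `ℝ^{d+1}`, written as `ℝ^d × ℝ` with the Euclidean norm. -/
abbrev Space (d : ℕ) : Type := WithLp 2 (Vec d × ℝ)

/-- The closed tube of length `1` and radius `δ` with centre `a` and axis direction `e`. -/
def tube {d : ℕ} (δ : ℝ) (e a : Space d) : Set (Space d) :=
  {y | |inner ℝ (y - a) e| ≤ 1 / 2 ∧ ‖(y - a) - (inner ℝ (y - a) e : ℝ) • e‖ ≤ δ}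

/-- The unit vector `(v, 1)/√(1+|v|²)`. -/
noncomputable def dir {d : ℕ} (v : Vec d) : Space d :=
  (√(1 + ‖v‖ ^ 2))⁻¹ • WithLp.toLp 2 (v, (1:ℝ))

/-- The point of height `s` on the line `{(b v + s v, s)}`. -/
noncomputable def linePt {d : ℕ} (b : Vec d → Vec d)
    (v : Vec d) (s : ℝ) : Space d := WithLp.toLp 2 (b v + s • v, s)

/-- Supremum of the averages of `|f|` over the `δ`-tubes with axis on the line number `v`. -/
noncomputable def lineMax {d : ℕ} (δ : ℝ)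
    (b : Vec d → Vec d)
    (f : Space d → ℝ) (v : Vec d) : ℝ≥0∞ :=
  ⨆ s : ℝ, (volume (tube δ (dir v) (linePt b v s)))⁻¹ *
    ∫⁻ y in tube δ (dir v) (linePt b v s), ‖f y‖ₑ

/-- For almost every height `t`, the section map `v ↦ b v + t v` takes almost every value `y` at
most `N` times at points `v ∈ B` where its derivative is invertible. -/
def MultLE {d : ℕ} (N : ℕ) (B : Set (Vec d)) (b : Vec d → Vec d) : Prop :=
  ∀ᵐ t : ℝ, ∀ᵐ y : Vec d, {v | v ∈ B ∧ b v + t • v = y ∧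
    (fderiv ℝ b v + t • ContinuousLinearMap.id ℝ (Vec d)).det ≠ 0}.encard ≤ N

variable {d : ℕ}

section geometry

/-- Squared length `1 + |v|²` of `(v,1)`. -/
theorem inner_dir (b : (Vec d) → (Vec d)) (v : (Vec d)) (s : ℝ) (z : (Vec d)) (t : ℝ) :
    inner ℝ (WithLp.toLp 2 (z, t) - linePt b v s : Space d) (dir v)
      = (√(1 + ‖v‖ ^ 2))⁻¹ * (inner ℝ (z - (b v + t • v)) v + (t - s) * (1 + ‖v‖ ^ 2)) := by
  rw [linePt, dir, ← WithLp.toLp_sub, inner_smul_right, WithLp.prod_inner_apply]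
  simp only [Prod.fst_sub, Prod.snd_sub]
  have h1 : z - (b v + s • v) = (z - (b v + t • v)) + (t - s) • v := by
    rw [sub_smul]; abel
  rw [h1, inner_add_left, inner_smul_left, real_inner_self_eq_norm_sq]
  simp only [conj_trivial]
  have h2 : inner ℝ (t - s) (1:ℝ) = t - s := by simp
  rw [h2]
  ring

theorem norm_perp_sq (b : (Vec d) → (Vec d)) (v : (Vec d)) (s : ℝ) (z : (Vec d)) (t : ℝ) :
    ‖(WithLp.toLp 2 (z, t) - linePt b v s : Space d) -
      (inner ℝ (WithLp.toLp 2 (z, t) - linePt b v s : Space d) (dir v) : ℝ) • dir v‖ ^ 2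
      * (1 + ‖v‖ ^ 2)
      = ‖z - (b v + t • v)‖ ^ 2 * (1 + ‖v‖ ^ 2) - (inner ℝ (z - (b v + t • v)) v) ^ 2 := by
  have hw : 0 < 1 + ‖v‖ ^ 2 := by positivity
  have hs : 0 < √(1 + ‖v‖ ^ 2) := Real.sqrt_pos.mpr hw
  have hs2 : √(1 + ‖v‖ ^ 2) ^ 2 = 1 + ‖v‖ ^ 2 := Real.sq_sqrt hw.le
  have hdir : ‖dir v‖ ^ 2 = 1 := by
    rw [dir, norm_smul, mul_pow, WithLp.prod_norm_sq_eq_of_L2]
    rw [norm_inv, Real.norm_eq_abs, abs_of_pos hs, inv_pow, hs2]
    have : ‖(WithLp.toLp 2 (v, (1:ℝ)) : Space d).fst‖ ^ 2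
        + ‖(WithLp.toLp 2 (v, (1:ℝ)) : Space d).snd‖ ^ 2 = 1 + ‖v‖ ^ 2 := by
      show ‖v‖ ^ 2 + ‖(1:ℝ)‖ ^ 2 = 1 + ‖v‖ ^ 2
      simp; ring
    rw [this]
    field_simp
  have hin := inner_dir b v s z t
  set p : Space d := WithLp.toLp 2 (z, t) - linePt b v s with hp
  have hpn : ‖p‖ ^ 2 = ‖z - (b v + t • v)‖ ^ 2
      + 2 * (t - s) * inner ℝ (z - (b v + t • v)) v + (t - s) ^ 2 * (1 + ‖v‖ ^ 2) := by
    have h0 : p = WithLp.toLp 2 ((z - (b v + t • v)) + (t - s) • v, t - s) := by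
      rw [hp, linePt, ← WithLp.toLp_sub]
      congr 1
      ext1
      · simp only [Prod.fst_sub]
        rw [sub_smul]; abel
      · rfl
    rw [h0, WithLp.prod_norm_sq_eq_of_L2]
    show ‖(z - (b v + t • v)) + (t - s) • v‖ ^ 2 + ‖t - s‖ ^ 2 = _
    rw [@norm_add_sq_real, inner_smul_right, norm_smul, Real.norm_eq_abs, mul_pow, sq_abs]
    ring
  have h3 : ‖p - (inner ℝ p (dir v) : ℝ) • dir v‖ ^ 2 = ‖p‖ ^ 2 - (inner ℝ p (dir v)) ^ 2 := by
    rw [@norm_sub_sq_real, inner_smul_right, norm_smul, mul_pow, hdir, Real.norm_eq_abs, sq_abs]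
    ring
  rw [h3, hpn, hin, mul_pow, inv_pow, hs2]
  field_simp
  ring

/-- A tube is contained in a slanted box. -/
theorem tube_subset {δ : ℝ} (hδ : 0 < δ) (hδ1 : δ < 1) (b : (Vec d) → (Vec d)) {v : (Vec d)} (hv : ‖v‖ ≤ 1) (s : ℝ)
    {z : (Vec d)} {t : ℝ} (h : WithLp.toLp 2 (z, t) ∈ tube δ (dir v) (linePt b v s)) :
    t ∈ Icc (s - 3/2) (s - 3/2 + 3) ∧ ‖z - (b v + t • v)‖ ≤ 2 * δ := by
  obtain ⟨h1, h2⟩ := h
  have hp := norm_perp_sq b v s z t
  rw [inner_dir] at h1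
  set u := z - (b v + t • v) with hu
  set q := inner ℝ u v with hq
  have hqle : |q| ≤ ‖u‖ * ‖v‖ := abs_real_inner_le_norm u v
  have hw : 0 < 1 + ‖v‖ ^ 2 := by positivity
  have hs : 0 < √(1 + ‖v‖ ^ 2) := Real.sqrt_pos.mpr hw
  have hs2 : √(1 + ‖v‖ ^ 2) ^ 2 = 1 + ‖v‖ ^ 2 := Real.sq_sqrt hw.le
  set l := √(1 + ‖v‖ ^ 2) with hl
  have hv2 : ‖v‖ ^ 2 ≤ 1 := by nlinarith [norm_nonneg v]
  have hl1 : 1 ≤ l := by
    rw [hl]; exact Real.one_le_sqrt.mpr (by nlinarith [sq_nonneg ‖v‖])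
  have h2' : ‖(WithLp.toLp 2 (z, t) - linePt b v s : Space d) -
      (inner ℝ (WithLp.toLp 2 (z, t) - linePt b v s : Space d) (dir v) : ℝ) • dir v‖ ^ 2
      ≤ δ ^ 2 := by
    gcongr
  have h3 : ‖u‖ ^ 2 * (1 + ‖v‖ ^ 2) - q ^ 2 ≤ δ ^ 2 * (1 + ‖v‖ ^ 2) := by
    rw [← hp]
    exact mul_le_mul_of_nonneg_right h2' hw.le
  have hq2 : q ^ 2 ≤ ‖u‖ ^ 2 * ‖v‖ ^ 2 := by
    rw [← mul_pow, ← sq_abs q]
    gcongr
  have h4 : ‖u‖ ^ 2 ≤ (δ * l) ^ 2 := by
    rw [mul_pow, hs2]; nlinarith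
  have h5 : ‖u‖ ≤ δ * l := le_of_sq_le_sq h4 (by positivity)
  have hl2 : l ≤ 3/2 := by
    nlinarith
  constructor
  · rw [abs_mul, abs_of_pos (inv_pos.mpr hs)] at h1
    have h6 : |q + (t - s) * (1 + ‖v‖ ^ 2)| ≤ l / 2 := by
      have : |q + (t - s) * (1 + ‖v‖ ^ 2)| = l * (l⁻¹ * |q + (t - s) * (1 + ‖v‖ ^ 2)|) := by
        field_simp
      rw [this]
      nlinarith
    have h7 : |q| ≤ l := by
      calc |q| ≤ ‖u‖ * ‖v‖ := hqle
        _ ≤ (δ * l) * 1 := by gcongr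
        _ ≤ l := by nlinarith
    have h8 : |(t - s) * (1 + ‖v‖ ^ 2)| ≤ 3/2 * l := by
      calc |(t - s) * (1 + ‖v‖ ^ 2)| = |(q + (t - s) * (1 + ‖v‖ ^ 2)) - q| := by ring_nf
        _ ≤ |q + (t - s) * (1 + ‖v‖ ^ 2)| + |q| := abs_sub _ _
        _ ≤ 3/2 * l := by linarith
    rw [abs_mul, abs_of_pos hw, ← hs2] at h8
    have h9 : |t - s| * l ≤ 3/2 := by
      by_contra hcon
      push Not at hcon
      nlinarith
    have h10 : |t - s| ≤ 3/2 := by nlinarith [abs_nonneg (t - s)]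
    rw [abs_le] at h10
    constructor <;> linarith
  · nlinarith

/-- A tube contains a slanted box. -/
theorem subset_tube {δ : ℝ} (hδ : 0 < δ) (hδ1 : δ < 1) (b : (Vec d) → (Vec d)) {v : (Vec d)} (hv : ‖v‖ ≤ 1) (s : ℝ)
    {z : (Vec d)} {t : ℝ} (ht : t ∈ Icc (s - 1/8) (s + 1/8)) (hz : ‖z - (b v + t • v)‖ ≤ δ / 4) :
    WithLp.toLp 2 (z, t) ∈ tube δ (dir v) (linePt b v s) := by
  have hp := norm_perp_sq b v s z t
  have hin := inner_dir b v s z t
  set u := z - (b v + t • v) with hu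
  set q := inner ℝ u v with hq
  have hqle : |q| ≤ ‖u‖ * ‖v‖ := abs_real_inner_le_norm u v
  have hw : 0 < 1 + ‖v‖ ^ 2 := by positivity
  have hs : 0 < √(1 + ‖v‖ ^ 2) := Real.sqrt_pos.mpr hw
  have hs2 : √(1 + ‖v‖ ^ 2) ^ 2 = 1 + ‖v‖ ^ 2 := Real.sq_sqrt hw.le
  set l := √(1 + ‖v‖ ^ 2) with hl
  have hv2 : ‖v‖ ^ 2 ≤ 1 := by nlinarith [norm_nonneg v]
  have hl1 : 1 ≤ l := by
    rw [hl]; exact Real.one_le_sqrt.mpr (by nlinarith [sq_nonneg ‖v‖])
  have hl2 : l ≤ 3/2 := by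
    nlinarith
  have hts : |t - s| ≤ 1/8 := by
    rw [abs_le]
    constructor <;> linarith [ht.1, ht.2]
  constructor
  · rw [hin, abs_mul, abs_of_pos (inv_pos.mpr hs)]
    rw [inv_mul_le_iff₀ hs]
    calc |q + (t - s) * (1 + ‖v‖ ^ 2)| ≤ |q| + |(t - s) * (1 + ‖v‖ ^ 2)| := abs_add_le _ _
      _ ≤ ‖u‖ * ‖v‖ + 1/8 * l ^ 2 := by
          rw [abs_mul, abs_of_pos hw, hs2]
          gcongr
      _ ≤ (1/4) * 1 + 1/8 * l ^ 2 := by
          gcongr
          linarith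
      _ ≤ l * (1/2) := by nlinarith
  · have h1 : ‖u‖ ^ 2 * (1 + ‖v‖ ^ 2) - q ^ 2 ≤ (δ ^ 2) * (1 + ‖v‖ ^ 2) := by
      have : ‖u‖ ^ 2 ≤ δ ^ 2 := by
        have := norm_nonneg u
        nlinarith
      nlinarith [sq_nonneg q]
    rw [← hp] at h1
    have h2 := le_of_mul_le_mul_right h1 hw
    exact le_of_sq_le_sq h2 hδ.le

end geometry

section transfer

/-- Tonelli for a slanted box. -/
theorem lintegral_box {g : (Vec d) × ℝ → ℝ≥0∞} (hg : Measurable g) (c : ℝ → (Vec d)) (hc : Measurable c)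
    (I : Set ℝ) (hI : MeasurableSet I) (r : ℝ) :
    ∫⁻ p in {p : (Vec d) × ℝ | p.2 ∈ I ∧ ‖p.1 - c p.2‖ ≤ r}, g p
      = ∫⁻ t in I, ∫⁻ w in closedBall (0:(Vec d)) r, g (c t + w, t) := by
  have hbox : MeasurableSet {p : (Vec d) × ℝ | p.2 ∈ I ∧ ‖p.1 - c p.2‖ ≤ r} := by
    have h1 : MeasurableSet {p : (Vec d) × ℝ | ‖p.1 - c p.2‖ ≤ r} :=
      measurableSet_le (measurable_fst.sub (hc.comp measurable_snd)).norm measurable_const
    exact (measurable_snd hI).inter h1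
  rw [← lintegral_indicator hbox, Measure.volume_eq_prod,
    lintegral_prod_symm _ (hg.indicator hbox).aemeasurable, ← lintegral_indicator hI]
  congr 1
  ext t
  by_cases ht : t ∈ I
  · rw [indicator_of_mem ht, ← lintegral_indicator measurableSet_closedBall]
    rw [← lintegral_add_left_eq_self
      (fun y : (Vec d) => ({p : (Vec d) × ℝ | p.2 ∈ I ∧ ‖p.1 - c p.2‖ ≤ r}).indicator g (y, t)) (c t)]
    congr 1
    ext w
    by_cases hw : ‖w‖ ≤ r
    · have e1 : (c t + w, t) ∈ {p : (Vec d) × ℝ | p.2 ∈ I ∧ ‖p.1 - c p.2‖ ≤ r} :=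
        ⟨ht, by simpa using hw⟩
      have e2 : w ∈ closedBall (0:(Vec d)) r := by simpa using hw
      rw [indicator_of_mem e1, indicator_of_mem e2]
    · have e1 : (c t + w, t) ∉ {p : (Vec d) × ℝ | p.2 ∈ I ∧ ‖p.1 - c p.2‖ ≤ r} := by
        rintro ⟨_, h2⟩
        exact hw (by simpa using h2)
      have e2 : w ∉ closedBall (0:(Vec d)) r := by simpa using hw
      rw [indicator_of_notMem e1, indicator_of_notMem e2]
  · rw [indicator_of_notMem ht]
    have : ∀ y : (Vec d), ({p : (Vec d) × ℝ | p.2 ∈ I ∧ ‖p.1 - c p.2‖ ≤ r}).indicator g (y, t) = 0 := by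
      intro y
      rw [indicator_of_notMem]
      rintro ⟨h1, _⟩
      exact ht h1
    simp [this]

theorem measurable_line (b : (Vec d) → (Vec d)) (v : (Vec d)) : Measurable (fun t : ℝ => b v + t • v) := by
  fun_prop

/-- Upper bound for the integral over a tube. -/
theorem lintegral_tube_le {δ : ℝ} (hδ : 0 < δ) (hδ1 : δ < 1) (b : (Vec d) → (Vec d)) {v : (Vec d)} (hv : ‖v‖ ≤ 1)
    (s : ℝ) {g : Space d → ℝ≥0∞} (hg : Measurable g) :
    ∫⁻ y in tube δ (dir v) (linePt b v s), g y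
      ≤ volume (closedBall (0:(Vec d)) (2*δ)) *
        ∫⁻ t in Icc (s - 3/2) (s - 3/2 + 3),
          moll (2*δ) (fun p : (Vec d) × ℝ => g (WithLp.toLp 2 p)) (b v + t • v, t) := by
  have hmp := WithLp.volume_preserving_toLp (Vec d) ℝ
  have hme : MeasurableEmbedding (WithLp.toLp 2 : (Vec d) × ℝ → Space d) :=
    (MeasurableEquiv.toLp 2 ((Vec d) × ℝ)).measurableEmbedding
  rw [← hmp.setLIntegral_comp_preimage_emb hme]
  have hg2 : Measurable (fun p : (Vec d) × ℝ => g (WithLp.toLp 2 p)) := hg.comp hmp.measurable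
  have hV0 := (vol_pos (d := d) (r := 2 * δ) (by linarith)).ne'
  have hVt := (vol_lt_top (d := d) (r := 2*δ)).ne
  calc ∫⁻ p in WithLp.toLp 2 ⁻¹' (tube δ (dir v) (linePt b v s)), g (WithLp.toLp 2 p)
      ≤ ∫⁻ p in {p : (Vec d) × ℝ | p.2 ∈ Icc (s - 3/2) (s - 3/2 + 3) ∧ ‖p.1 - (b v + p.2 • v)‖ ≤ 2 * δ},
          g (WithLp.toLp 2 p) := by
        apply lintegral_mono_set
        rintro ⟨z, t⟩ hp
        exact tube_subset hδ hδ1 b hv s hp
    _ = ∫⁻ t in Icc (s - 3/2) (s - 3/2 + 3), ∫⁻ w in closedBall (0:(Vec d)) (2*δ),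
          g (WithLp.toLp 2 (b v + t • v + w, t)) :=
        lintegral_box hg2 (fun t => b v + t • v) (measurable_line b v) _ measurableSet_Icc _
    _ = ∫⁻ t in Icc (s - 3/2) (s - 3/2 + 3), volume (closedBall (0:(Vec d)) (2*δ)) *
          moll (2*δ) (fun p : (Vec d) × ℝ => g (WithLp.toLp 2 p)) (b v + t • v, t) := by
        congr 1
        ext t
        unfold moll
        rw [← mul_assoc, ENNReal.mul_inv_cancel hV0 hVt, one_mul]
    _ = _ := by
        rw [lintegral_const_mul]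
        exact (measurable_moll hg2).comp ((measurable_line b v).prodMk measurable_id)

/-- Lower bound for the volume of a tube. -/
theorem le_volume_tube {δ : ℝ} (hδ : 0 < δ) (hδ1 : δ < 1) (b : (Vec d) → (Vec d)) {v : (Vec d)} (hv : ‖v‖ ≤ 1)
    (s : ℝ) : ENNReal.ofReal (1/4) * volume (closedBall (0:(Vec d)) (δ/4))
      ≤ volume (tube δ (dir v) (linePt b v s)) := by
  have hmp := WithLp.volume_preserving_toLp (Vec d) ℝ
  have hme : MeasurableEmbedding (WithLp.toLp 2 : (Vec d) × ℝ → Space d) :=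
    (MeasurableEquiv.toLp 2 ((Vec d) × ℝ)).measurableEmbedding
  rw [← setLIntegral_one (tube δ (dir v) (linePt b v s)),
    ← hmp.setLIntegral_comp_preimage_emb hme]
  calc ENNReal.ofReal (1/4) * volume (closedBall (0:(Vec d)) (δ/4))
      = ∫⁻ t in Icc (s - 1/8) (s + 1/8), ∫⁻ w in closedBall (0:(Vec d)) (δ/4), 1 := by
        simp only [lintegral_const, Measure.restrict_apply_univ, one_mul, Real.volume_Icc]
        rw [mul_comm]
        congr 2
        ring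
    _ = ∫⁻ p in {p : (Vec d) × ℝ | p.2 ∈ Icc (s - 1/8) (s + 1/8) ∧ ‖p.1 - (b v + p.2 • v)‖ ≤ δ/4}, 1 :=
        (lintegral_box (g := fun _ => 1) measurable_const (fun t => b v + t • v)
          (measurable_line b v) _ measurableSet_Icc _).symm
    _ ≤ _ := by
        apply lintegral_mono_set
        rintro ⟨z, t⟩ ⟨ht, hz⟩
        exact subset_tube hδ hδ1 b hv s ht hz

/-- The maximal function is controlled by the integrals of the mollified function. -/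
theorem lineMax_le {δ : ℝ} (hδ : 0 < δ) (hδ1 : δ < 1) (b : (Vec d) → (Vec d)) {v : (Vec d)} (hv : ‖v‖ ≤ 1)
    {f : Space d → ℝ} (hf : Measurable f) :
    lineMax δ b f v ≤ (4 * 8 ^ d) * ⨆ h : ℝ, ∫⁻ t in Icc h (h + 3),
      moll (2*δ) (fun p : (Vec d) × ℝ => ‖f (WithLp.toLp 2 p)‖ₑ) (b v + t • v, t) := by
  unfold lineMax
  apply iSup_le
  intro s
  have h1 := lintegral_tube_le hδ hδ1 b hv s (g := fun y => ‖f y‖ₑ) hf.enorm
  have h2 := le_volume_tube hδ hδ1 b hv s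
  set I := ∫⁻ t in Icc (s - 3/2) (s - 3/2 + 3),
          moll (2*δ) (fun p : (Vec d) × ℝ => ‖f (WithLp.toLp 2 p)‖ₑ) (b v + t • v, t) with hI
  have h3 : I ≤ ⨆ h : ℝ, ∫⁻ t in Icc h (h + 3),
      moll (2*δ) (fun p : (Vec d) × ℝ => ‖f (WithLp.toLp 2 p)‖ₑ) (b v + t • v, t) :=
    le_iSup (fun h : ℝ => ∫⁻ t in Icc h (h + 3),
      moll (2*δ) (fun p : (Vec d) × ℝ => ‖f (WithLp.toLp 2 p)‖ₑ) (b v + t • v, t)) (s - 3/2)
  have hV0 := (vol_pos (d := d) (r := δ / 4) (by linarith)).ne'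
  have hVt := (vol_lt_top (d := d) (r := δ / 4)).ne
  have h4 : volume (closedBall (0:(Vec d)) (2*δ)) = 8 ^ d * volume (closedBall (0:(Vec d)) (δ/4)) := by
    rw [vol_ball_scale (d := d) (r := 2*δ) (by linarith),
      vol_ball_scale (d := d) (r := δ/4) (by linarith), ← mul_assoc, ← mul_pow]
    congr 2
    have : (8:ℝ≥0∞) = ENNReal.ofReal 8 := by simp
    rw [this, ← ENNReal.ofReal_mul (by norm_num)]
    congr 1
    ring
  set W := volume (closedBall (0:(Vec d)) (δ/4)) with hW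
  calc (volume (tube δ (dir v) (linePt b v s)))⁻¹ *
        ∫⁻ y in tube δ (dir v) (linePt b v s), ‖f y‖ₑ
      ≤ (ENNReal.ofReal (1/4) * W)⁻¹ * (8 ^ d * W * I) := by
        rw [← h4]
        gcongr
    _ = (4 * 8 ^ d) * I * (W⁻¹ * W) := by
        have h5 : ENNReal.ofReal (1/4) = 4⁻¹ := by
          rw [one_div, ENNReal.ofReal_inv_of_pos (by norm_num)]
          simp
        rw [h5, ENNReal.mul_inv (Or.inl (by simp)) (Or.inl (by simp)), inv_inv]
        ring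
    _ = (4 * 8 ^ d) * I := by rw [ENNReal.inv_mul_cancel hV0 hVt, mul_one]
    _ ≤ _ := by gcongr

end transfer

theorem ofReal_comb {P1 P2 P3 P4 n : ℝ} (h1 : 0 ≤ P1) (h2 : 0 ≤ P2) (h3 : 0 ≤ P3) (h4 : 0 ≤ P4)
    (hn : 0 ≤ n) : ENNReal.ofReal (P1 * (P2 * (P3 * n + P4)))
      = ENNReal.ofReal P1 * (ENNReal.ofReal P2 * (ENNReal.ofReal P3 * ENNReal.ofReal n
        + ENNReal.ofReal P4)) := by
  rw [ENNReal.ofReal_mul h1, ENNReal.ofReal_mul h2,
    ENNReal.ofReal_add (mul_nonneg h3 hn) h4, ENNReal.ofReal_mul h3]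

/-- The main estimate for measurable `f`. -/
theorem main_measurable (hd : 1 ≤ d) {N : ℕ} (hN1 : 1 ≤ N) {B : Set (Vec d)} (hB : MeasurableSet B)
    (hB1 : B ⊆ closedBall 0 1) {b : (Vec d) → (Vec d)} (hb : ∀ v ∈ B, DifferentiableAt ℝ b v)
    (hN : ∀ᵐ t : ℝ, ∀ᵐ y : (Vec d), {v | v ∈ B ∧ b v + t • v = y ∧
      (fderiv ℝ b v + t • ContinuousLinearMap.id ℝ (Vec d)).det ≠ 0}.encard ≤ N)
    {δ : ℝ} (hδ : 0 < δ) (hδ1 : δ < 1) {f : Space d → ℝ} (hf : Measurable f) :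
    ∫⁻ v in B, lineMax δ b f v ^ (d + 1)
      ≤ ENNReal.ofReal ((8 * 8 ^ d) ^ (d + 1) * ((4 * d) ^ d + d ^ d) * N
          * (1 + Real.log (1 / δ)) ^ d) * ∫⁻ y, ‖f y‖ₑ ^ (d + 1) := by
  have hmp := WithLp.volume_preserving_toLp (Vec d) ℝ
  have hme : MeasurableEmbedding (WithLp.toLp 2 : (Vec d) × ℝ → Space d) :=
    (MeasurableEquiv.toLp 2 ((Vec d) × ℝ)).measurableEmbedding
  have hf2 : Measurable (fun p : (Vec d) × ℝ => ‖f (WithLp.toLp 2 p)‖ₑ) :=
    (hf.comp hmp.measurable).enorm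
  have hint := integrated hd hB hB1 hb hN hδ hf2
  have hS : ∫⁻ p : (Vec d) × ℝ, ‖f (WithLp.toLp 2 p)‖ₑ ^ (d+1) = ∫⁻ y : Space d, ‖f y‖ₑ ^ (d + 1) :=
    hmp.lintegral_comp (f := fun y : Space d => ‖f y‖ₑ ^ (d + 1)) (hf.enorm.pow_const _)
  rw [hS] at hint
  set S := ∫⁻ y : Space d, ‖f y‖ₑ ^ (d + 1) with hSdef
  set M : (Vec d) → ℝ≥0∞ := fun v => ⨆ h : ℝ, (∫⁻ t in Icc h (h+3),
    moll (2*δ) (fun p : (Vec d) × ℝ => ‖f (WithLp.toLp 2 p)‖ₑ) (b v + t • v, t)) ^ (d+1) with hM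
  have hpt : ∀ v ∈ B, lineMax δ b f v ^ (d + 1) ≤ (4 * 8 ^ d) ^ (d + 1) * M v := by
    intro v hv
    have hv1 : ‖v‖ ≤ 1 := by simpa using hB1 hv
    calc lineMax δ b f v ^ (d + 1) ≤ ((4 * 8 ^ d) * ⨆ h : ℝ, ∫⁻ t in Icc h (h + 3),
          moll (2*δ) (fun p : (Vec d) × ℝ => ‖f (WithLp.toLp 2 p)‖ₑ) (b v + t • v, t)) ^ (d + 1) := by
          gcongr
          exact lineMax_le hδ hδ1 b hv1 hf
      _ = (4 * 8 ^ d) ^ (d + 1) * M v := by
          rw [mul_pow, ENNReal.iSup_pow]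
  have hlog : 0 ≤ Real.log (1 / δ) := Real.log_nonneg (by rw [le_div_iff₀ hδ]; linarith)
  have hlog2 : Real.log (1 + 3 / δ) ≤ 2 * (1 + Real.log (1 / δ)) := by
    have h1 : 1 + 3 / δ ≤ 4 * (1 / δ) := by
      have : 1 ≤ 1 / δ := by rw [le_div_iff₀ hδ]; linarith
      calc 1 + 3 / δ = 1 + 3 * (1 / δ) := by ring
        _ ≤ 4 * (1 / δ) := by linarith
    have h2 : Real.log 4 ≤ 2 := by
      have h3 : (4:ℝ) = 2 ^ 2 := by norm_num
      rw [h3, Real.log_pow]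
      have := Real.log_two_lt_d9
      push_cast
      linarith
    calc Real.log (1 + 3 / δ) ≤ Real.log (4 * (1 / δ)) := Real.log_le_log (by positivity) h1
      _ = Real.log 4 + Real.log (1 / δ) := Real.log_mul (by norm_num) (by positivity)
      _ ≤ 2 * (1 + Real.log (1 / δ)) := by linarith
  have hconst : (4 * 8 ^ d : ℝ≥0∞) ^ (d + 1) * (2 ^ (d + 1) *
      ((2 * d * ENNReal.ofReal (Real.log (1 + 3/δ)))^d * N + d^d))
      ≤ ENNReal.ofReal ((8 * 8 ^ d) ^ (d + 1) * ((4 * d) ^ d + d ^ d) * N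
          * (1 + Real.log (1 / δ)) ^ d) := by
    have e1 : (2 * d * ENNReal.ofReal (Real.log (1 + 3/δ)) : ℝ≥0∞)
        = ENNReal.ofReal (2 * d * Real.log (1 + 3/δ)) := by
      rw [ENNReal.ofReal_mul (by positivity), ENNReal.ofReal_mul (by positivity)]
      simp
    have hl0 : 0 ≤ Real.log (1 + 3/δ) := Real.log_nonneg (by
      have : 0 < 3 / δ := by positivity
      linarith)
    have e2 : (4 * 8 ^ d : ℝ≥0∞) ^ (d + 1) * (2 ^ (d + 1) *
      ((2 * d * ENNReal.ofReal (Real.log (1 + 3/δ)))^d * N + d^d))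
        = ENNReal.ofReal ((4 * 8 ^ d) ^ (d + 1) * (2 ^ (d + 1) *
          ((2 * d * Real.log (1 + 3/δ)) ^ d * N + d ^ d))) := by
      have h0 : (0:ℝ) ≤ (2 * d * Real.log (1 + 3/δ)) ^ d := by positivity
      rw [ofReal_comb (by positivity) (by positivity) h0 (by positivity) (by positivity), e1,
        ENNReal.ofReal_pow (p := 2 * d * Real.log (1 + 3/δ)) (by positivity) d]
      have a1 : ENNReal.ofReal ((4 * 8 ^ d) ^ (d + 1)) = (4 * 8 ^ d : ℝ≥0∞) ^ (d + 1) := by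
        rw [ENNReal.ofReal_pow (by positivity), ENNReal.ofReal_mul (by positivity),
          ENNReal.ofReal_pow (by positivity)]
        simp
      have a2 : ENNReal.ofReal (2 ^ (d + 1)) = (2 : ℝ≥0∞) ^ (d + 1) := by
        rw [ENNReal.ofReal_pow (by positivity)]
        simp
      have a3 : ENNReal.ofReal ((d:ℝ) ^ d) = (d : ℝ≥0∞) ^ d := by
        rw [ENNReal.ofReal_pow (by positivity)]
        simp
      have a4 : ENNReal.ofReal (N:ℝ) = (N : ℝ≥0∞) := by simp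
      rw [a1, a2, a3, a4]
    rw [e2]
    apply ENNReal.ofReal_le_ofReal
    have hN1' : (1:ℝ) ≤ N := by exact_mod_cast hN1
    set Λ := 1 + Real.log (1 / δ) with hΛ
    have hΛ1 : 1 ≤ Λ := by linarith
    have b1 : (2 * d * Real.log (1 + 3/δ)) ^ d ≤ (4 * d) ^ d * Λ ^ d := by
      rw [← mul_pow]
      apply pow_le_pow_left₀ (by positivity)
      calc 2 * d * Real.log (1 + 3/δ) ≤ 2 * d * (2 * Λ) := by gcongr
        _ = 4 * d * Λ := by ring
    have b2 : (d:ℝ) ^ d ≤ d ^ d * (N * Λ ^ d) := by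
      have : 1 ≤ N * Λ ^ d := by
        have := one_le_pow₀ (n := d) hΛ1
        nlinarith
      nlinarith [pow_nonneg (Nat.cast_nonneg (α := ℝ) d) d]
    calc (4 * 8 ^ d : ℝ) ^ (d + 1) * (2 ^ (d + 1) *
          ((2 * d * Real.log (1 + 3/δ)) ^ d * N + d ^ d))
        ≤ (4 * 8 ^ d) ^ (d + 1) * (2 ^ (d + 1) *
          (((4 * d) ^ d * Λ ^ d) * N + d ^ d * (N * Λ ^ d))) := by gcongr
      _ = (8 * 8 ^ d) ^ (d + 1) * ((4 * d) ^ d + d ^ d) * N * Λ ^ d := by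
          have : (8 * 8 ^ d : ℝ) = (4 * 8 ^ d) * 2 := by ring
          rw [this, mul_pow _ (2:ℝ)]
          ring
  calc ∫⁻ v in B, lineMax δ b f v ^ (d + 1)
      ≤ ∫⁻ v in B, (4 * 8 ^ d) ^ (d + 1) * M v := setLIntegral_mono' hB hpt
    _ = (4 * 8 ^ d) ^ (d + 1) * ∫⁻ v in B, M v := by
        rw [lintegral_const_mul']
        exact ENNReal.pow_ne_top (ENNReal.mul_ne_top (by simp) (ENNReal.pow_ne_top (by simp)))
    _ ≤ (4 * 8 ^ d) ^ (d + 1) * (2 ^ (d + 1) *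
          ((2 * d * ENNReal.ofReal (Real.log (1 + 3/δ)))^d * N + d^d) * S) := by gcongr
    _ = (4 * 8 ^ d) ^ (d + 1) * (2 ^ (d + 1) *
          ((2 * d * ENNReal.ofReal (Real.log (1 + 3/δ)))^d * N + d^d)) * S := by ring
    _ ≤ _ := by gcongr

theorem lineMax_congr {δ : ℝ} (b : (Vec d) → (Vec d)) (v : (Vec d)) {f g : Space d → ℝ} (h : f =ᵐ[volume] g) :
    lineMax δ b f v = lineMax δ b g v := by
  unfold lineMax
  congr 1
  ext s
  congr 1
  apply lintegral_congr_ae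
  filter_upwards [ae_restrict_of_ae h] with y hy
  rw [hy]

/-- **Kakeya maximal estimate for differentiable finite-to-one families of lines**, in every
dimension `n = d + 1 ≥ 2`, at the exponent `n`, with a loss of `(1 + log (1/δ))^(n-1)` only. -/
theorem result (d : ℕ) (hd : 1 ≤ d) : ∃ C : ℝ, 0 < C ∧
    ∀ (N : ℕ) (B : Set (Vec d)) (b : Vec d → Vec d) (δ : ℝ) (f : Space d → ℝ),
      1 ≤ N → MeasurableSet B → B ⊆ closedBall 0 1 → (∀ v ∈ B, DifferentiableAt ℝ b v) →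
      MultLE N B b → 0 < δ → δ < 1 → AEMeasurable f volume →
      ∫⁻ v in B, lineMax δ b f v ^ (d + 1)
        ≤ ENNReal.ofReal (C * N * (1 + Real.log (1 / δ)) ^ d) * ∫⁻ y, ‖f y‖ₑ ^ (d + 1) := by
  refine ⟨(8 * 8 ^ d) ^ (d + 1) * ((4 * d) ^ d + d ^ d), by positivity, ?_⟩
  intro N B b δ f hN1 hB hB1 hb hN hδ hδ1 hf
  have h := main_measurable hd hN1 hB hB1 hb hN hδ hδ1 hf.measurable_mk
  have e1 : ∀ v, lineMax δ b f v = lineMax δ b (hf.mk f) v :=
    fun v => lineMax_congr b v hf.ae_eq_mk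
  have e2 : ∫⁻ y, ‖f y‖ₑ ^ (d + 1) = ∫⁻ y, ‖hf.mk f y‖ₑ ^ (d + 1) := by
    apply lintegral_congr_ae
    filter_upwards [hf.ae_eq_mk] with y hy
    rw [hy]
  simp only [e1]
  rw [e2]
  exact h

end Pool.Agent.H803R2.KakFTO
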