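import Pool.Agent.H803R2.KakPoly

set_option autoImplicit false

/-!
Generic fibres of polynomial maps of `ℝ^d` of degree `≤ k` in each variable have at most
`((1 + d k)^d)^d` points.
-/

open MeasureTheory Set Filter Topology ENNReal NNReal

namespace Pool.Agent.H803R2.Kak

variable {d : ℕ}

/-- exponent vector as a finitely supported function -/
noncomputable def expo {D : ℕ} (β : Fin d → Fin (D + 1)) : Fin d →₀ ℕ :=
  Finsupp.equivFunOnFinite.symm (fun j => (β j : ℕ))

theorem expo_apply {D : ℕ} (β : Fin d → Fin (D + 1)) (j : Fin d) : expo β j = (β j : ℕ) := rfl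

theorem expo_injective {D : ℕ} : Function.Injective (expo (d := d) (D := D)) := by
  intro β β' h
  ext j
  have := DFunLike.congr_fun h j
  simpa [expo_apply] using this

theorem ae_fibre_le (hd : 1 ≤ d) (k : ℕ) (hk : 1 ≤ k)
    (P : EuclideanSpace ℝ (Fin d) → EuclideanSpace ℝ (Fin d))
    (hP : ∀ j, (fun v => P v j) ∈ Pol d k) :
    ∀ᵐ y : EuclideanSpace ℝ (Fin d), {v | P v = y}.encard ≤ ((((1 + d * k) ^ d) ^ d : ℕ) : ℕ∞) := by
  classical
  set D := (1 + d * k) ^ d with hD
  have hrel := fun i => exists_relation hd k hk (fun j v => P v j) hP i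
  choose c hc0 hc using hrel
  have hq : ∀ i, ∃ q, c i q ≠ 0 := fun i => Function.ne_iff.mp (hc0 i)
  choose q₀ hq₀ using hq
  set Q : Fin d → MvPolynomial (Fin d) ℝ := fun i =>
    ∑ β : Fin d → Fin (D + 1), MvPolynomial.monomial (expo β) (c i ((q₀ i).1, β)) with hQ
  have hQ0 : ∀ i, Q i ≠ 0 := by
    intro i h
    have h1 : MvPolynomial.coeff (expo (q₀ i).2) (Q i) = c i (q₀ i) := by
      rw [hQ]
      simp only
      rw [MvPolynomial.coeff_sum]
      simp only [MvPolynomial.coeff_monomial]
      rw [Finset.sum_eq_single (q₀ i).2]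
      · simp
      · intro β _ hβ
        rw [if_neg (fun h => hβ (expo_injective h))]
      · simp
    rw [h, MvPolynomial.coeff_zero] at h1
    exact hq₀ i h1.symm
  have hQe : ∀ i (y : EuclideanSpace ℝ (Fin d)), MvPolynomial.eval (fun j => y j) (Q i)
      = ∑ β : Fin d → Fin (D + 1), c i ((q₀ i).1, β) * ∏ j, y j ^ (β j : ℕ) := by
    intro i y
    rw [hQ]
    simp only
    rw [map_sum]
    congr 1
    ext β
    rw [MvPolynomial.eval_monomial]
    congr 1
    rw [Finsupp.prod_fintype _ _ (fun _ => pow_zero _)]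
    rfl
  have hae : ∀ᵐ y : EuclideanSpace ℝ (Fin d), ∀ i, MvPolynomial.eval (fun j => y j) (Q i) ≠ 0 :=
    ae_all_iff.mpr (fun i => ae_eval_ne_zero (hQ0 i))
  filter_upwards [hae] with y hy
  set co : Fin d → Fin (D + 1) → ℝ := fun i a =>
    ∑ β : Fin d → Fin (D + 1), c i (a, β) * ∏ j, y j ^ (β j : ℕ) with hco
  set R : Fin d → Polynomial ℝ := fun i =>
    ∑ a : Fin (D + 1), Polynomial.C (co i a) * Polynomial.X ^ (a : ℕ) with hR
  have hRc : ∀ i (a : Fin (D + 1)), (R i).coeff (a : ℕ) = co i a := by
    intro i a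
    rw [hR]
    simp only [Polynomial.finset_sum_coeff, Polynomial.coeff_C_mul, Polynomial.coeff_X_pow]
    rw [Finset.sum_eq_single a]
    · simp
    · intro b _ hb
      rw [if_neg, mul_zero]
      intro h
      exact hb (Fin.ext h.symm)
    · simp
  have hR0 : ∀ i, R i ≠ 0 := by
    intro i h
    have h1 := hRc i (q₀ i).1
    rw [h, Polynomial.coeff_zero] at h1
    apply hy i
    rw [hQe, h1]
  have hRd : ∀ i, (R i).natDegree ≤ D := by
    intro i
    rw [hR]
    apply Polynomial.natDegree_sum_le_of_forall_le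
    intro a _
    refine (Polynomial.natDegree_C_mul_X_pow_le _ _).trans ?_
    have := a.2
    omega
  have hroot : ∀ v, P v = y → ∀ i, (R i).IsRoot (v i) := by
    intro v hv i
    have h1 := hc i v
    rw [Polynomial.IsRoot.def, hR]
    simp only [Polynomial.eval_finset_sum, Polynomial.eval_mul, Polynomial.eval_C,
      Polynomial.eval_pow, Polynomial.eval_X]
    rw [← h1, Fintype.sum_prod_type]
    congr 1
    ext a
    rw [hco]
    simp only
    rw [Finset.sum_mul]
    congr 1
    ext β
    rw [hv]
    ring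
  set T : Finset (Fin d → ℝ) := Fintype.piFinset (fun i => (R i).roots.toFinset) with hT
  have hmaps : MapsTo (fun v : EuclideanSpace ℝ (Fin d) => (fun i => v i)) {v | P v = y}
      (T : Set (Fin d → ℝ)) := by
    intro v hv
    simp only [hT, Finset.mem_coe, Fintype.mem_piFinset, Multiset.mem_toFinset]
    intro i
    exact (Polynomial.mem_roots (hR0 i)).mpr (hroot v hv i)
  have hinj : InjOn (fun v : EuclideanSpace ℝ (Fin d) => (fun i => v i)) {v | P v = y} := by
    intro v _ w _ h
    ext i
    exact congrFun h i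
  refine (Set.encard_le_encard_of_injOn hmaps hinj).trans ?_
  rw [Set.encard_coe_eq_coe_finsetCard, hT, Fintype.card_piFinset]
  norm_cast
  calc ∏ i, (R i).roots.toFinset.card ≤ ∏ _i : Fin d, D := by
        apply Finset.prod_le_prod' 
        intro i _
        exact (Multiset.toFinset_card_le _).trans ((Polynomial.card_roots' _).trans (hRd i))
    _ = D ^ d := by simp

end Pool.Agent.H803R2.Kak
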