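import Pool.Agent.H803R2.KakDet

set_option autoImplicit false

/-!
The estimate on a single line.
-/

open MeasureTheory Set Filter Topology ENNReal NNReal

namespace Pool.Agent.H803R2.Kak

theorem add_pow_le_two {a b : ℝ≥0∞} (n : ℕ) : (a + b) ^ n ≤ 2 ^ n * (a ^ n + b ^ n) := by
  have h1 : a + b ≤ 2 * max a b := by
    rw [two_mul]; exact add_le_add (le_max_left _ _) (le_max_right _ _)
  calc (a + b) ^ n ≤ (2 * max a b) ^ n := by gcongr
    _ = 2 ^ n * (max a b) ^ n := by rw [mul_pow]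
    _ ≤ 2 ^ n * (a ^ n + b ^ n) := by
        gcongr
        rcases le_total a b with h | h
        · rw [max_eq_right h]; exact le_add_self
        · rw [max_eq_left h]; exact le_self_add

/-- Hölder's inequality with the exponents `d+1` and `(d+1)/d`, raised to the power `d+1`. -/
theorem holder_pow {α : Type*} [MeasurableSpace α] (ν : Measure α) {d : ℕ} (hd : 1 ≤ d)
    {f g : α → ℝ≥0∞} (hf : AEMeasurable f ν) (hg : AEMeasurable g ν) :
    (∫⁻ a, f a * g a ∂ν) ^ (d + 1)
      ≤ (∫⁻ a, f a ^ (d + 1) ∂ν) * (∫⁻ a, g a ^ (((d:ℝ) + 1) / d) ∂ν) ^ d := by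
  have hd' : (1:ℝ) ≤ d := by exact_mod_cast hd
  have hd0 : (0:ℝ) < d := by linarith
  have hpq : ((d:ℝ) + 1).HolderConjugate (((d:ℝ) + 1) / d) := by
    rw [Real.holderConjugate_iff]
    refine ⟨by linarith, ?_⟩
    field_simp
    ring
  have h := ENNReal.lintegral_mul_le_Lp_mul_Lq ν hpq hf hg
  have h2 : (∫⁻ a, f a * g a ∂ν) ^ (d + 1)
      ≤ ((∫⁻ a, f a ^ ((d:ℝ) + 1) ∂ν) ^ (1 / ((d:ℝ) + 1))
        * (∫⁻ a, g a ^ (((d:ℝ) + 1) / d) ∂ν) ^ (1 / (((d:ℝ) + 1) / d))) ^ (d + 1) :=
    pow_le_pow_left' (by simpa using h) _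
  refine h2.trans (le_of_eq ?_)
  rw [mul_pow]
  congr 1
  · rw [← ENNReal.rpow_natCast, ← ENNReal.rpow_mul]
    have : 1 / ((d:ℝ) + 1) * ((d + 1 : ℕ) : ℝ) = 1 := by
      push_cast; field_simp
    rw [this, ENNReal.rpow_one]
    congr 1
    ext a
    rw [← ENNReal.rpow_natCast]
    push_cast
    rfl
  · rw [← ENNReal.rpow_natCast, ← ENNReal.rpow_mul, ← ENNReal.rpow_natCast]
    congr 1
    push_cast
    field_simp

theorem prod_inv_rpow_le {μ : Multiset ℝ} {d : ℕ} (hd : 1 ≤ d) (hμ : μ.card = d) {t δ : ℝ}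
    (hδ : 0 < δ) (ht : ∀ m ∈ μ, δ ≤ |t - m|) {J : ℝ≥0∞}
    (hJ : ENNReal.ofReal (μ.map (fun m => |t - m|)).prod ≤ J) :
    (J ^ (-(1 / ((d:ℝ) + 1)))) ^ (((d:ℝ) + 1) / d) ≤ (μ.map (fun m => (ENNReal.ofReal |t - m|)⁻¹)).sum := by
  have hd' : (1:ℝ) ≤ d := by exact_mod_cast hd
  have hd0 : (0:ℝ) < d := by linarith
  have hne : μ ≠ 0 := by
    rintro rfl; simp at hμ; omega
  obtain ⟨m0, hm0, hmin⟩ : ∃ m0 ∈ μ, ∀ m ∈ μ, |t - m0| ≤ |t - m| := by
    have hfin : μ.toFinset.Nonempty := by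
      rw [Multiset.toFinset_nonempty]; exact hne
    obtain ⟨m0, h1, h2⟩ := Finset.exists_min_image μ.toFinset (fun m => |t - m|) hfin
    exact ⟨m0, Multiset.mem_toFinset.1 h1, fun m hm => h2 m (Multiset.mem_toFinset.2 hm)⟩
  have hpos : 0 < |t - m0| := lt_of_lt_of_le hδ (ht m0 hm0)
  have hprod : |t - m0| ^ d ≤ (μ.map (fun m => |t - m|)).prod := by
    rw [← hμ]
    have : ∀ (ν : Multiset ℝ), (∀ m ∈ ν, |t - m0| ≤ |t - m|) →
        |t - m0| ^ ν.card ≤ (ν.map (fun m => |t - m|)).prod := by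
      intro ν
      induction ν using Multiset.induction_on with
      | empty => intro _; simp
      | cons a ν ih =>
        intro h
        rw [Multiset.card_cons, pow_succ, mul_comm, Multiset.map_cons, Multiset.prod_cons]
        exact mul_le_mul (h a (Multiset.mem_cons_self a ν))
          (ih (fun m hm => h m (Multiset.mem_cons_of_mem hm))) (by positivity) (abs_nonneg _)
    exact this μ hmin
  rw [← ENNReal.rpow_mul]
  have he : -(1 / ((d:ℝ) + 1)) * (((d:ℝ) + 1) / d) = -(1 / d) := by field_simp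
  rw [he]
  have h1 : (ENNReal.ofReal |t - m0|) ^ (d:ℝ) ≤ J := by
    refine le_trans ?_ hJ
    rw [ENNReal.rpow_natCast, ← ENNReal.ofReal_pow (abs_nonneg _)]
    exact ENNReal.ofReal_le_ofReal hprod
  have h2 : J ^ (-(1 / (d:ℝ))) ≤ ((ENNReal.ofReal |t - m0|) ^ (d:ℝ)) ^ (-(1 / (d:ℝ))) := by
    rw [ENNReal.rpow_neg, ENNReal.rpow_neg]
    exact ENNReal.inv_le_inv.2 (ENNReal.rpow_le_rpow h1 (by positivity))
  have h3 : ((ENNReal.ofReal |t - m0|) ^ (d:ℝ)) ^ (-(1 / (d:ℝ))) = (ENNReal.ofReal |t - m0|)⁻¹ := by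
    rw [← ENNReal.rpow_mul]
    have : (d:ℝ) * -(1 / (d:ℝ)) = -1 := by field_simp
    rw [this, ENNReal.rpow_neg_one]
  rw [h3] at h2
  refine h2.trans ?_
  exact Multiset.single_le_sum (s := μ.map (fun m => (ENNReal.ofReal |t - m|)⁻¹)) (fun _ _ => zero_le) _
    (Multiset.mem_map_of_mem _ hm0)

/-- The estimate on one line. -/
theorem line_estimate {μ : Multiset ℝ} {d : ℕ} (hd : 1 ≤ d) (hμ : μ.card = d) {δ : ℝ}
    (hδ : 0 < δ) {J : ℝ → ℝ≥0∞} (hJm : Measurable J) (hJtop : ∀ t, J t ≠ ∞)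
    (hJ : ∀ t, ENNReal.ofReal (μ.map (fun m => |t - m|)).prod ≤ J t)
    {G : ℝ → ℝ≥0∞} (hG : Measurable G) (h : ℝ) :
    (∫⁻ t in Icc h (h + 3), G t) ^ (d + 1)
      ≤ 2 ^ (d + 1) * ((2 * d * ENNReal.ofReal (Real.log (1 + 3 / δ))) ^ d * (∫⁻ t, G t ^ (d + 1) * J t)
        + (2 * d * ENNReal.ofReal δ) ^ d * (∫⁻ t, G t ^ (d + 1))) := by
  classical
  have hd' : (1:ℝ) ≤ d := by exact_mod_cast hd
  have hd0 : (0:ℝ) < d := by linarith
  set A : Set ℝ := {t | t ∈ Icc h (h + 3) ∧ ∀ m ∈ μ, δ ≤ |t - m|} with hA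
  have hAm : MeasurableSet A := by
    have : A = Icc h (h+3) ∩ ⋂ m ∈ μ.toFinset, {t | δ ≤ |t - m|} := by
      ext t; simp [hA]
    rw [this]
    apply measurableSet_Icc.inter
    apply Finset.measurableSet_biInter
    intro m _
    exact measurableSet_le measurable_const ((measurable_id.sub_const m).abs)
  set A' : Set ℝ := ⋃ m ∈ μ.toFinset, Icc (m - δ) (m + δ) with hA'
  have hcov : Icc h (h + 3) ⊆ A ∪ A' := by
    intro t ht
    by_cases hc : ∀ m ∈ μ, δ ≤ |t - m|
    · exact Or.inl ⟨ht, hc⟩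
    · push Not at hc
      obtain ⟨m, hm, hlt⟩ := hc
      right
      rw [hA']
      simp only [mem_iUnion]
      refine ⟨m, Multiset.mem_toFinset.2 hm, ?_⟩
      have := abs_lt.1 hlt
      exact ⟨by linarith [this.1], by linarith [this.2]⟩
  have hvol : volume A' ≤ 2 * d * ENNReal.ofReal δ := by
    calc volume A' ≤ ∑ m ∈ μ.toFinset, volume (Icc (m - δ) (m + δ)) := measure_biUnion_finset_le _ _
      _ = ∑ m ∈ μ.toFinset, ENNReal.ofReal (2 * δ) := by
          apply Finset.sum_congr rfl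
          intro m _
          rw [Real.volume_Icc]; congr 1; ring
      _ = (μ.toFinset.card : ℝ≥0∞) * ENNReal.ofReal (2 * δ) := by
          rw [Finset.sum_const, nsmul_eq_mul]
      _ ≤ (d : ℝ≥0∞) * ENNReal.ofReal (2 * δ) := by
          gcongr
          have := Multiset.toFinset_card_le μ
          rw [hμ] at this
          exact_mod_cast this
      _ = 2 * d * ENNReal.ofReal δ := by
          rw [ENNReal.ofReal_mul (by norm_num)]
          rw [show ENNReal.ofReal 2 = 2 by simp]; ring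
  -- main part
  have hAint : (∫⁻ t in A, G t) ^ (d + 1)
      ≤ (2 * d * ENNReal.ofReal (Real.log (1 + 3 / δ))) ^ d * ∫⁻ t, G t ^ (d + 1) * J t := by
    have hJpos : ∀ t ∈ A, J t ≠ 0 := by
      intro t ht h0
      have h1 := hJ t
      rw [h0] at h1
      have h2 : (μ.map (fun m => |t - m|)).prod ≤ 0 := ENNReal.ofReal_eq_zero.1 (le_antisymm h1 zero_le)
      have h3 : 0 < (μ.map (fun m => |t - m|)).prod := by
        have : ∀ (ν : Multiset ℝ), (∀ m ∈ ν, δ ≤ |t - m|) → 0 < (ν.map (fun m => |t - m|)).prod := by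
          intro ν
          induction ν using Multiset.induction_on with
          | empty => intro _; simp
          | cons a ν ih =>
            intro h
            rw [Multiset.map_cons, Multiset.prod_cons]
            exact mul_pos (lt_of_lt_of_le hδ (h a (Multiset.mem_cons_self a ν)))
              (ih (fun m hm => h m (Multiset.mem_cons_of_mem hm)))
        exact this μ ht.2
      linarith
    have hfac : ∫⁻ t in A, G t = ∫⁻ t in A, (G t * J t ^ (1 / ((d:ℝ) + 1))) * J t ^ (-(1 / ((d:ℝ) + 1))) := by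
      apply setLIntegral_congr_fun hAm
      intro t ht
      show G t = G t * J t ^ (1 / ((d:ℝ) + 1)) * J t ^ (-(1 / ((d:ℝ) + 1)))
      rw [mul_assoc, ← ENNReal.rpow_add _ _ (hJpos t ht) (hJtop t)]
      simp
    rw [hfac]
    refine (holder_pow (volume.restrict A) hd
      ((hG.mul (hJm.pow_const _)).aemeasurable) ((hJm.pow_const _).aemeasurable)).trans ?_
    rw [mul_comm]
    apply mul_le_mul'
    · gcongr
      calc ∫⁻ a in A, (J a ^ (-(1 / ((d:ℝ) + 1)))) ^ (((d:ℝ) + 1) / d)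
          ≤ ∫⁻ a in A, (μ.map (fun m => (ENNReal.ofReal |a - m|)⁻¹)).sum := by
            apply setLIntegral_mono' hAm
            intro t ht
            exact prod_inv_rpow_le hd hμ hδ ht.2 (hJ t)
        _ ≤ (μ.map (fun m => 2 * ENNReal.ofReal (Real.log (1 + 3 / δ)))).sum := by
            have : ∀ (ν : Multiset ℝ), (∀ m ∈ ν, m ∈ μ) →
                ∫⁻ a in A, (ν.map (fun m => (ENNReal.ofReal |a - m|)⁻¹)).sum
                ≤ (ν.map (fun m => 2 * ENNReal.ofReal (Real.log (1 + 3 / δ)))).sum := by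
              intro ν
              induction ν using Multiset.induction_on with
              | empty => intro _; simp
              | cons a ν ih =>
                intro hν
                simp only [Multiset.map_cons, Multiset.sum_cons]
                rw [lintegral_add_left]
                · apply add_le_add _ (ih (fun m hm => hν m (Multiset.mem_cons_of_mem hm)))
                  refine le_trans (lintegral_mono_set ?_) (lint_away (h := h) hδ)
                  intro t ht
                  exact ⟨ht.1, ht.2 a (hν a (Multiset.mem_cons_self a ν))⟩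
                · exact (((measurable_id.sub_const a).abs).ennreal_ofReal).inv
            exact this μ (fun m hm => hm)
        _ = 2 * d * ENNReal.ofReal (Real.log (1 + 3 / δ)) := by
            rw [Multiset.map_const', Multiset.sum_replicate, hμ, nsmul_eq_mul]; ring
    · calc ∫⁻ a in A, (G a * J a ^ (1 / ((d:ℝ) + 1))) ^ (d + 1)
          = ∫⁻ a in A, G a ^ (d + 1) * J a := by
            congr 1; ext a
            rw [mul_pow, ← ENNReal.rpow_natCast (J a ^ (1 / ((d:ℝ) + 1))), ← ENNReal.rpow_mul]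
            have : 1 / ((d:ℝ) + 1) * ((d + 1 : ℕ) : ℝ) = 1 := by push_cast; field_simp
            rw [this, ENNReal.rpow_one]
        _ ≤ ∫⁻ a, G a ^ (d + 1) * J a := setLIntegral_le_lintegral _ _
  have hBint : (∫⁻ t in A', G t) ^ (d + 1)
      ≤ (2 * d * ENNReal.ofReal δ) ^ d * ∫⁻ t, G t ^ (d + 1) := by
    have h1 := holder_pow (volume.restrict A') hd (f := G) (g := fun _ => 1) hG.aemeasurable
      aemeasurable_const
    simp only [mul_one, ENNReal.one_rpow, lintegral_one, Measure.restrict_apply_univ] at h1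
    refine h1.trans ?_
    rw [mul_comm]
    apply mul_le_mul'
    · gcongr
    · exact setLIntegral_le_lintegral _ _
  calc (∫⁻ t in Icc h (h + 3), G t) ^ (d + 1)
      ≤ ((∫⁻ t in A, G t) + ∫⁻ t in A', G t) ^ (d + 1) := by
        gcongr
        exact (lintegral_mono_set hcov).trans (lintegral_union_le _ _ _)
    _ ≤ 2 ^ (d + 1) * ((∫⁻ t in A, G t) ^ (d + 1) + (∫⁻ t in A', G t) ^ (d + 1)) := add_pow_le_two _
    _ ≤ _ := mul_le_mul' le_rfl (add_le_add hAint hBint)

end Pool.Agent.H803R2.Kak
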