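import Pool.Agent.H803R2.KakArea
import Pool.Agent.H803R2.KakLine

set_option autoImplicit false

/-!
The area inequality for functions, mollification, and the integrated line estimate.
-/

open MeasureTheory Set Filter Topology ENNReal NNReal Metric

namespace Pool.Agent.H803R2.Kak

section area

variable {E : Type*} [NormedAddCommGroup E] [NormedSpace ℝ E] [FiniteDimensional ℝ E]
  [MeasurableSpace E] [BorelSpace E] (μ : Measure E) [μ.IsAddHaarMeasure]

/-- Area inequality for functions; only the non-degenerate points are counted. -/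
theorem lintegral_comp_det_le {φ : E → E} {φ' : E → E →L[ℝ] E} {s : Set E} {N : ℕ}
    (hs : MeasurableSet s) (hφ : ∀ x ∈ s, HasFDerivAt φ (φ' x) x) (hm : Measurable φ')
    (hN : ∀ᵐ y ∂μ, {x | x ∈ s ∧ φ x = y ∧ (φ' x).det ≠ 0}.encard ≤ N)
    {H : E → ℝ≥0∞} (hH : Measurable H) :
    ∫⁻ x in s, H (φ x) * ENNReal.ofReal |(φ' x).det| ∂μ ≤ N * ∫⁻ y, H y ∂μ := by
  classical
  have hdet : Measurable (fun x => (φ' x).det) :=
    ContinuousLinearMap.continuous_det.measurable.comp hm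
  set s' : Set E := {x | x ∈ s ∧ (φ' x).det ≠ 0} with hs'
  have hs'm : MeasurableSet s' := hs.inter (hdet (measurableSet_singleton (0:ℝ)).compl)
  have hJm : Measurable (fun x => ENNReal.ofReal |(φ' x).det|) :=
    (hdet.abs).ennreal_ofReal
  have hcont : ContinuousOn φ s' := fun x hx => (hφ x hx.1).continuousAt.continuousWithinAt
  have hae : AEMeasurable φ (μ.restrict s') := hcont.aemeasurable hs'm
  -- restrict to `s'`
  have h1 : ∫⁻ x in s, H (φ x) * ENNReal.ofReal |(φ' x).det| ∂μ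
      = ∫⁻ x in s', H (φ x) * ENNReal.ofReal |(φ' x).det| ∂μ := by
    rw [← lintegral_indicator hs, ← lintegral_indicator hs'm]
    congr 1
    ext x
    by_cases hx : x ∈ s
    · by_cases hx2 : (φ' x).det = 0
      · have : x ∉ s' := fun h => h.2 hx2
        rw [indicator_of_mem hx, indicator_of_notMem this, hx2]
        simp
      · have : x ∈ s' := ⟨hx, hx2⟩
        rw [indicator_of_mem hx, indicator_of_mem this]
    · have : x ∉ s' := fun h => hx h.1
      rw [indicator_of_notMem hx, indicator_of_notMem this]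
  rw [h1]
  set ν := (μ.restrict s').withDensity (fun x => ENNReal.ofReal |(φ' x).det|) with hν
  have haeν : AEMeasurable φ ν := hae.mono_ac (withDensity_absolutelyContinuous _ _)
  have hmap : Measure.map φ ν ≤ (N : ℝ≥0∞) • μ := by
    rw [Measure.le_iff]
    intro U hU
    rw [Measure.map_apply_of_aemeasurable haeν hU, hν, withDensity_apply',
      Measure.restrict_restrict' hs'm, Measure.smul_apply, smul_eq_mul]
    have h2 := lintegral_det_le_mul μ (s := s') (U := U) (N := N) (φ := φ) (φ' := φ') hs'm hU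
      (fun x hx => hφ x hx.1) hm (by
        filter_upwards [hN] with y hNy
        refine le_trans (Set.encard_le_encard ?_) hNy
        rintro x ⟨⟨hx1, hx2⟩, hx3⟩
        exact ⟨hx1, hx3, hx2⟩)
    have h3 : φ ⁻¹' U ∩ s' = {x | x ∈ s' ∧ φ x ∈ U} := by
      ext x; simp [and_comm]
    rw [h3]
    exact h2
  have hHae : AEMeasurable (fun x => H (φ x)) (μ.restrict s') := hH.comp_aemeasurable hae
  calc ∫⁻ x in s', H (φ x) * ENNReal.ofReal |(φ' x).det| ∂μ
      = ∫⁻ x, H (φ x) ∂ν := by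
        rw [hν, lintegral_withDensity_eq_lintegral_mul₀ hJm.aemeasurable hHae]
        simp only [Pi.mul_apply, mul_comm]
    _ = ∫⁻ y, H y ∂(Measure.map φ ν) := (lintegral_map' hH.aemeasurable haeν).symm
    _ ≤ ∫⁻ y, H y ∂((N : ℝ≥0∞) • μ) := lintegral_mono' hmap le_rfl
    _ = N * ∫⁻ y, H y ∂μ := by rw [lintegral_smul_measure, smul_eq_mul]

end area

/-- Jensen/Hölder for a finite measure. -/
theorem lintegral_pow_le {α : Type*} [MeasurableSpace α] (ν : Measure α) {d : ℕ} (hd : 1 ≤ d)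
    {f : α → ℝ≥0∞} (hf : AEMeasurable f ν) :
    (∫⁻ a, f a ∂ν) ^ (d + 1) ≤ (∫⁻ a, f a ^ (d + 1) ∂ν) * (ν univ) ^ d := by
  have h := holder_pow ν hd hf (g := fun _ => 1) aemeasurable_const
  simpa using h

section moll

variable {d : ℕ}

/-- Average of `f (·, t)` over the ball of radius `r` around `y`. -/
noncomputable def moll (r : ℝ) (f : (EuclideanSpace ℝ (Fin d)) × ℝ → ℝ≥0∞) (p : (EuclideanSpace ℝ (Fin d)) × ℝ) : ℝ≥0∞ :=
  (volume (closedBall (0:(EuclideanSpace ℝ (Fin d))) r))⁻¹ * ∫⁻ w in closedBall (0:(EuclideanSpace ℝ (Fin d))) r, f (p.1 + w, p.2)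

theorem measurable_moll {r : ℝ} {f : (EuclideanSpace ℝ (Fin d)) × ℝ → ℝ≥0∞} (hf : Measurable f) :
    Measurable (moll r f) := by
  unfold moll
  apply Measurable.const_mul
  have : Measurable (fun q : ((EuclideanSpace ℝ (Fin d)) × ℝ) × (EuclideanSpace ℝ (Fin d)) => f (q.1.1 + q.2, q.1.2)) := by
    apply hf.comp
    fun_prop
  exact this.lintegral_prod_right'

theorem vol_pos {r : ℝ} (hr : 0 < r) : 0 < volume (closedBall (0:(EuclideanSpace ℝ (Fin d))) r) :=
  measure_closedBall_pos _ _ hr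

theorem vol_lt_top {r : ℝ} : volume (closedBall (0:(EuclideanSpace ℝ (Fin d))) r) < ∞ := measure_closedBall_lt_top

theorem moll_pow_le (hd : 1 ≤ d) {r : ℝ} (hr : 0 < r) {f : (EuclideanSpace ℝ (Fin d)) × ℝ → ℝ≥0∞} (hf : Measurable f)
    (p : (EuclideanSpace ℝ (Fin d)) × ℝ) :
    moll r f p ^ (d + 1) ≤ moll r (fun q => f q ^ (d + 1)) p := by
  have hm : AEMeasurable (fun w : (EuclideanSpace ℝ (Fin d)) => f (p.1 + w, p.2)) (volume.restrict (closedBall (0:(EuclideanSpace ℝ (Fin d))) r)) := by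
    apply Measurable.aemeasurable
    apply hf.comp
    fun_prop
  have h := lintegral_pow_le (volume.restrict (closedBall (0:(EuclideanSpace ℝ (Fin d))) r)) hd hm
  unfold moll
  rw [mul_pow]
  have hv0 := (vol_pos (d := d) hr).ne'
  have hvt := (vol_lt_top (d := d) (r := r)).ne
  rw [Measure.restrict_apply_univ] at h
  set V := volume (closedBall (0:(EuclideanSpace ℝ (Fin d))) r)
  calc V⁻¹ ^ (d+1) * (∫⁻ w in closedBall (0:(EuclideanSpace ℝ (Fin d))) r, f (p.1 + w, p.2)) ^ (d + 1)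
      ≤ V⁻¹ ^ (d+1) * ((∫⁻ w in closedBall (0:(EuclideanSpace ℝ (Fin d))) r, f (p.1 + w, p.2) ^ (d+1)) * V ^ d) := by
        gcongr
    _ = V⁻¹ * (V⁻¹ ^ d * V ^ d) * (∫⁻ w in closedBall (0:(EuclideanSpace ℝ (Fin d))) r, f (p.1 + w, p.2) ^ (d+1)) := by
        rw [pow_succ]; ring
    _ = V⁻¹ * ∫⁻ w in closedBall (0:(EuclideanSpace ℝ (Fin d))) r, f (p.1 + w, p.2) ^ (d+1) := by
        rw [← mul_pow, ENNReal.inv_mul_cancel hv0 hvt, one_pow, mul_one]

/-- Translation-invariance: `∫ moll f (y,t) dy = ∫ f (y,t) dy`. -/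
theorem lintegral_moll {r : ℝ} (hr : 0 < r) {f : (EuclideanSpace ℝ (Fin d)) × ℝ → ℝ≥0∞} (hf : Measurable f) (t : ℝ) :
    ∫⁻ y : (EuclideanSpace ℝ (Fin d)), moll r f (y, t) = ∫⁻ y : (EuclideanSpace ℝ (Fin d)), f (y, t) := by
  have hv0 := (vol_pos (d := d) hr).ne'
  have hvt := (vol_lt_top (d := d) (r := r)).ne
  unfold moll
  have hm : Measurable (fun q : (EuclideanSpace ℝ (Fin d)) × (EuclideanSpace ℝ (Fin d)) => f (q.1 + q.2, t)) := by
    apply hf.comp
    fun_prop
  rw [lintegral_const_mul _ (hm.lintegral_prod_right')]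
  rw [lintegral_lintegral_swap (hm.aemeasurable)]
  have : ∀ w : (EuclideanSpace ℝ (Fin d)), ∫⁻ y : (EuclideanSpace ℝ (Fin d)), f (y + w, t) = ∫⁻ y : (EuclideanSpace ℝ (Fin d)), f (y, t) := by
    intro w
    exact lintegral_add_right_eq_self (fun y => f (y, t)) w
  simp only [this, lintegral_const, Measure.restrict_apply_univ]
  rw [mul_comm, mul_assoc, ENNReal.mul_inv_cancel hv0 hvt, mul_one]

/-- Crude bound. -/
theorem moll_le {r : ℝ} (f : (EuclideanSpace ℝ (Fin d)) × ℝ → ℝ≥0∞) (y : (EuclideanSpace ℝ (Fin d))) (t : ℝ) :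
    moll r f (y, t) ≤ (volume (closedBall (0:(EuclideanSpace ℝ (Fin d))) r))⁻¹ * ∫⁻ w : (EuclideanSpace ℝ (Fin d)), f (w, t) := by
  unfold moll
  refine mul_le_mul_right ?_ _
  calc ∫⁻ w in closedBall (0:(EuclideanSpace ℝ (Fin d))) r, f (y + w, t) ≤ ∫⁻ w : (EuclideanSpace ℝ (Fin d)), f (y + w, t) :=
        setLIntegral_le_lintegral _ _
    _ = ∫⁻ w : (EuclideanSpace ℝ (Fin d)), f (w, t) := lintegral_add_left_eq_self (fun w => f (w, t)) y

end moll

end Pool.Agent.H803R2.Kak
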