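import Pool.Agent.H803R2.KakInt

set_option autoImplicit false

/-!
Tubes with axes in a family of lines: definitions and elementary geometry.
-/

open MeasureTheory Set Filter Topology ENNReal NNReal Metric

namespace Pool.Agent.H803R2.KakG

open Pool.Agent.H803R2.Kak

/-- Euclidean space `ℝ^d`. -/
abbrev Vec (d : ℕ) : Type := EuclideanSpace ℝ (Fin d)

/-- Euclidean space `ℝ^{d+1}`, written as `ℝ^d × ℝ` with the Euclidean norm. -/
abbrev Space (d : ℕ) : Type := WithLp 2 (Vec d × ℝ)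

/-- The closed tube of length `1` and radius `δ` with centre `a` and axis direction `e`. -/
def tube {d : ℕ} (δ : ℝ) (e a : Space d) : Set (Space d) :=
  {y | |inner ℝ (y - a) e| ≤ 1 / 2 ∧ ‖(y - a) - (inner ℝ (y - a) e : ℝ) • e‖ ≤ δ}

/-- The unit vector `(v, 1)/√(1+|v|²)`. -/
noncomputable def dir {d : ℕ} (v : Vec d) : Space d :=
  (√(1 + ‖v‖ ^ 2))⁻¹ • WithLp.toLp 2 (v, (1:ℝ))

/-- The point of height `s` on the line `{(b v + s v, s)}`. -/
noncomputable def linePt {d : ℕ} (b : Vec d → Vec d)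
    (v : Vec d) (s : ℝ) : Space d := WithLp.toLp 2 (b v + s • v, s)

/-- Supremum of the averages of `|f|` over the `δ`-tubes with axis on the line number `v`. -/
noncomputable def lineMax {d : ℕ} (δ : ℝ)
    (b : Vec d → Vec d)
    (f : Space d → ℝ) (v : Vec d) : ℝ≥0∞ :=
  ⨆ s : ℝ, (volume (tube δ (dir v) (linePt b v s)))⁻¹ *
    ∫⁻ y in tube δ (dir v) (linePt b v s), ‖f y‖ₑ


variable {d : ℕ}

section geometry

/-- Squared length `1 + |v|²` of `(v,1)`. -/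
theorem inner_dir (b : (Vec d) → (Vec d)) (v : (Vec d)) (s : ℝ) (z : (Vec d)) (t : ℝ) :
    inner ℝ (WithLp.toLp 2 (z, t) - linePt b v s : Space d) (dir v)
      = (√(1 + ‖v‖ ^ 2))⁻¹ * (inner ℝ (z - (b v + t • v)) v + (t - s) * (1 + ‖v‖ ^ 2)) := by
  rw [linePt, dir, ← WithLp.toLp_sub, inner_smul_right, WithLp.prod_inner_apply]
  simp only [Prod.fst_sub, Prod.snd_sub]
  have h1 : z - (b v + s • v) = (z - (b v + t • v)) + (t - s) • v := by
    rw [sub_smul]; abel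
  rw [h1, inner_add_left, inner_smul_left, real_inner_self_eq_norm_sq]
  simp only [conj_trivial]
  have h2 : inner ℝ (t - s) (1:ℝ) = t - s := by simp
  rw [h2]
  ring

theorem norm_perp_sq (b : (Vec d) → (Vec d)) (v : (Vec d)) (s : ℝ) (z : (Vec d)) (t : ℝ) :
    ‖(WithLp.toLp 2 (z, t) - linePt b v s : Space d) -
      (inner ℝ (WithLp.toLp 2 (z, t) - linePt b v s : Space d) (dir v) : ℝ) • dir v‖ ^ 2
      * (1 + ‖v‖ ^ 2)
      = ‖z - (b v + t • v)‖ ^ 2 * (1 + ‖v‖ ^ 2) - (inner ℝ (z - (b v + t • v)) v) ^ 2 := by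
  have hw : 0 < 1 + ‖v‖ ^ 2 := by positivity
  have hs : 0 < √(1 + ‖v‖ ^ 2) := Real.sqrt_pos.mpr hw
  have hs2 : √(1 + ‖v‖ ^ 2) ^ 2 = 1 + ‖v‖ ^ 2 := Real.sq_sqrt hw.le
  have hdir : ‖dir v‖ ^ 2 = 1 := by
    rw [dir, norm_smul, mul_pow, WithLp.prod_norm_sq_eq_of_L2]
    rw [norm_inv, Real.norm_eq_abs, abs_of_pos hs, inv_pow, hs2]
    have : ‖(WithLp.toLp 2 (v, (1:ℝ)) : Space d).fst‖ ^ 2
        + ‖(WithLp.toLp 2 (v, (1:ℝ)) : Space d).snd‖ ^ 2 = 1 + ‖v‖ ^ 2 := by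
      show ‖v‖ ^ 2 + ‖(1:ℝ)‖ ^ 2 = 1 + ‖v‖ ^ 2
      simp; ring
    rw [this]
    field_simp
  have hin := inner_dir b v s z t
  set p : Space d := WithLp.toLp 2 (z, t) - linePt b v s with hp
  have hpn : ‖p‖ ^ 2 = ‖z - (b v + t • v)‖ ^ 2
      + 2 * (t - s) * inner ℝ (z - (b v + t • v)) v + (t - s) ^ 2 * (1 + ‖v‖ ^ 2) := by
    have h0 : p = WithLp.toLp 2 ((z - (b v + t • v)) + (t - s) • v, t - s) := by
      rw [hp, linePt, ← WithLp.toLp_sub]
      congr 1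
      ext1
      · simp only [Prod.fst_sub]
        rw [sub_smul]; abel
      · rfl
    rw [h0, WithLp.prod_norm_sq_eq_of_L2]
    show ‖(z - (b v + t • v)) + (t - s) • v‖ ^ 2 + ‖t - s‖ ^ 2 = _
    rw [@norm_add_sq_real, inner_smul_right, norm_smul, Real.norm_eq_abs, mul_pow, sq_abs]
    ring
  have h3 : ‖p - (inner ℝ p (dir v) : ℝ) • dir v‖ ^ 2 = ‖p‖ ^ 2 - (inner ℝ p (dir v)) ^ 2 := by
    rw [@norm_sub_sq_real, inner_smul_right, norm_smul, mul_pow, hdir, Real.norm_eq_abs, sq_abs]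
    ring
  rw [h3, hpn, hin, mul_pow, inv_pow, hs2]
  field_simp
  ring

/-- A tube is contained in a slanted box. -/
theorem tube_subset {δ : ℝ} (hδ : 0 < δ) (hδ1 : δ < 1) (b : (Vec d) → (Vec d)) {v : (Vec d)} (hv : ‖v‖ ≤ 1) (s : ℝ)
    {z : (Vec d)} {t : ℝ} (h : WithLp.toLp 2 (z, t) ∈ tube δ (dir v) (linePt b v s)) :
    t ∈ Icc (s - 3/2) (s - 3/2 + 3) ∧ ‖z - (b v + t • v)‖ ≤ 2 * δ := by
  obtain ⟨h1, h2⟩ := h
  have hp := norm_perp_sq b v s z t
  rw [inner_dir] at h1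
  set u := z - (b v + t • v) with hu
  set q := inner ℝ u v with hq
  have hqle : |q| ≤ ‖u‖ * ‖v‖ := abs_real_inner_le_norm u v
  have hw : 0 < 1 + ‖v‖ ^ 2 := by positivity
  have hs : 0 < √(1 + ‖v‖ ^ 2) := Real.sqrt_pos.mpr hw
  have hs2 : √(1 + ‖v‖ ^ 2) ^ 2 = 1 + ‖v‖ ^ 2 := Real.sq_sqrt hw.le
  set l := √(1 + ‖v‖ ^ 2) with hl
  have hv2 : ‖v‖ ^ 2 ≤ 1 := by nlinarith [norm_nonneg v]
  have hl1 : 1 ≤ l := by
    rw [hl]; exact Real.one_le_sqrt.mpr (by nlinarith [sq_nonneg ‖v‖])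
  have h2' : ‖(WithLp.toLp 2 (z, t) - linePt b v s : Space d) -
      (inner ℝ (WithLp.toLp 2 (z, t) - linePt b v s : Space d) (dir v) : ℝ) • dir v‖ ^ 2
      ≤ δ ^ 2 := by
    gcongr
  have h3 : ‖u‖ ^ 2 * (1 + ‖v‖ ^ 2) - q ^ 2 ≤ δ ^ 2 * (1 + ‖v‖ ^ 2) := by
    rw [← hp]
    exact mul_le_mul_of_nonneg_right h2' hw.le
  have hq2 : q ^ 2 ≤ ‖u‖ ^ 2 * ‖v‖ ^ 2 := by
    rw [← mul_pow, ← sq_abs q]
    gcongr
  have h4 : ‖u‖ ^ 2 ≤ (δ * l) ^ 2 := by
    rw [mul_pow, hs2]; nlinarith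
  have h5 : ‖u‖ ≤ δ * l := le_of_sq_le_sq h4 (by positivity)
  have hl2 : l ≤ 3/2 := by
    nlinarith
  constructor
  · rw [abs_mul, abs_of_pos (inv_pos.mpr hs)] at h1
    have h6 : |q + (t - s) * (1 + ‖v‖ ^ 2)| ≤ l / 2 := by
      have : |q + (t - s) * (1 + ‖v‖ ^ 2)| = l * (l⁻¹ * |q + (t - s) * (1 + ‖v‖ ^ 2)|) := by
        field_simp
      rw [this]
      nlinarith
    have h7 : |q| ≤ l := by
      calc |q| ≤ ‖u‖ * ‖v‖ := hqle
        _ ≤ (δ * l) * 1 := by gcongr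
        _ ≤ l := by nlinarith
    have h8 : |(t - s) * (1 + ‖v‖ ^ 2)| ≤ 3/2 * l := by
      calc |(t - s) * (1 + ‖v‖ ^ 2)| = |(q + (t - s) * (1 + ‖v‖ ^ 2)) - q| := by ring_nf
        _ ≤ |q + (t - s) * (1 + ‖v‖ ^ 2)| + |q| := abs_sub _ _
        _ ≤ 3/2 * l := by linarith
    rw [abs_mul, abs_of_pos hw, ← hs2] at h8
    have h9 : |t - s| * l ≤ 3/2 := by
      by_contra hcon
      push Not at hcon
      nlinarith
    have h10 : |t - s| ≤ 3/2 := by nlinarith [abs_nonneg (t - s)]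
    rw [abs_le] at h10
    constructor <;> linarith
  · nlinarith

/-- A tube contains a slanted box. -/
theorem subset_tube {δ : ℝ} (hδ : 0 < δ) (hδ1 : δ < 1) (b : (Vec d) → (Vec d)) {v : (Vec d)} (hv : ‖v‖ ≤ 1) (s : ℝ)
    {z : (Vec d)} {t : ℝ} (ht : t ∈ Icc (s - 1/8) (s + 1/8)) (hz : ‖z - (b v + t • v)‖ ≤ δ / 4) :
    WithLp.toLp 2 (z, t) ∈ tube δ (dir v) (linePt b v s) := by
  have hp := norm_perp_sq b v s z t
  have hin := inner_dir b v s z t
  set u := z - (b v + t • v) with hu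
  set q := inner ℝ u v with hq
  have hqle : |q| ≤ ‖u‖ * ‖v‖ := abs_real_inner_le_norm u v
  have hw : 0 < 1 + ‖v‖ ^ 2 := by positivity
  have hs : 0 < √(1 + ‖v‖ ^ 2) := Real.sqrt_pos.mpr hw
  have hs2 : √(1 + ‖v‖ ^ 2) ^ 2 = 1 + ‖v‖ ^ 2 := Real.sq_sqrt hw.le
  set l := √(1 + ‖v‖ ^ 2) with hl
  have hv2 : ‖v‖ ^ 2 ≤ 1 := by nlinarith [norm_nonneg v]
  have hl1 : 1 ≤ l := by
    rw [hl]; exact Real.one_le_sqrt.mpr (by nlinarith [sq_nonneg ‖v‖])
  have hl2 : l ≤ 3/2 := by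
    nlinarith
  have hts : |t - s| ≤ 1/8 := by
    rw [abs_le]
    constructor <;> linarith [ht.1, ht.2]
  constructor
  · rw [hin, abs_mul, abs_of_pos (inv_pos.mpr hs)]
    rw [inv_mul_le_iff₀ hs]
    calc |q + (t - s) * (1 + ‖v‖ ^ 2)| ≤ |q| + |(t - s) * (1 + ‖v‖ ^ 2)| := abs_add_le _ _
      _ ≤ ‖u‖ * ‖v‖ + 1/8 * l ^ 2 := by
          rw [abs_mul, abs_of_pos hw, hs2]
          gcongr
      _ ≤ (1/4) * 1 + 1/8 * l ^ 2 := by
          gcongr
          linarith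
      _ ≤ l * (1/2) := by nlinarith
  · have h1 : ‖u‖ ^ 2 * (1 + ‖v‖ ^ 2) - q ^ 2 ≤ (δ ^ 2) * (1 + ‖v‖ ^ 2) := by
      have : ‖u‖ ^ 2 ≤ δ ^ 2 := by
        have := norm_nonneg u
        nlinarith
      nlinarith [sq_nonneg q]
    rw [← hp] at h1
    have h2 := le_of_mul_le_mul_right h1 hw
    exact le_of_sq_le_sq h2 hδ.le

end geometry

section transfer

/-- Tonelli for a slanted box. -/
theorem lintegral_box {g : (Vec d) × ℝ → ℝ≥0∞} (hg : Measurable g) (c : ℝ → (Vec d)) (hc : Measurable c)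
    (I : Set ℝ) (hI : MeasurableSet I) (r : ℝ) :
    ∫⁻ p in {p : (Vec d) × ℝ | p.2 ∈ I ∧ ‖p.1 - c p.2‖ ≤ r}, g p
      = ∫⁻ t in I, ∫⁻ w in closedBall (0:(Vec d)) r, g (c t + w, t) := by
  have hbox : MeasurableSet {p : (Vec d) × ℝ | p.2 ∈ I ∧ ‖p.1 - c p.2‖ ≤ r} := by
    have h1 : MeasurableSet {p : (Vec d) × ℝ | ‖p.1 - c p.2‖ ≤ r} :=
      measurableSet_le (measurable_fst.sub (hc.comp measurable_snd)).norm measurable_const
    exact (measurable_snd hI).inter h1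
  rw [← lintegral_indicator hbox, Measure.volume_eq_prod,
    lintegral_prod_symm _ (hg.indicator hbox).aemeasurable, ← lintegral_indicator hI]
  congr 1
  ext t
  by_cases ht : t ∈ I
  · rw [indicator_of_mem ht, ← lintegral_indicator measurableSet_closedBall]
    rw [← lintegral_add_left_eq_self
      (fun y : (Vec d) => ({p : (Vec d) × ℝ | p.2 ∈ I ∧ ‖p.1 - c p.2‖ ≤ r}).indicator g (y, t)) (c t)]
    congr 1
    ext w
    by_cases hw : ‖w‖ ≤ r
    · have e1 : (c t + w, t) ∈ {p : (Vec d) × ℝ | p.2 ∈ I ∧ ‖p.1 - c p.2‖ ≤ r} :=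
        ⟨ht, by simpa using hw⟩
      have e2 : w ∈ closedBall (0:(Vec d)) r := by simpa using hw
      rw [indicator_of_mem e1, indicator_of_mem e2]
    · have e1 : (c t + w, t) ∉ {p : (Vec d) × ℝ | p.2 ∈ I ∧ ‖p.1 - c p.2‖ ≤ r} := by
        rintro ⟨_, h2⟩
        exact hw (by simpa using h2)
      have e2 : w ∉ closedBall (0:(Vec d)) r := by simpa using hw
      rw [indicator_of_notMem e1, indicator_of_notMem e2]
  · rw [indicator_of_notMem ht]
    have : ∀ y : (Vec d), ({p : (Vec d) × ℝ | p.2 ∈ I ∧ ‖p.1 - c p.2‖ ≤ r}).indicator g (y, t) = 0 := by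
      intro y
      rw [indicator_of_notMem]
      rintro ⟨h1, _⟩
      exact ht h1
    simp [this]

theorem measurable_line (b : (Vec d) → (Vec d)) (v : (Vec d)) : Measurable (fun t : ℝ => b v + t • v) := by
  fun_prop

/-- Upper bound for the integral over a tube. -/
theorem lintegral_tube_le {δ : ℝ} (hδ : 0 < δ) (hδ1 : δ < 1) (b : (Vec d) → (Vec d)) {v : (Vec d)} (hv : ‖v‖ ≤ 1)
    (s : ℝ) {g : Space d → ℝ≥0∞} (hg : Measurable g) :
    ∫⁻ y in tube δ (dir v) (linePt b v s), g y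
      ≤ volume (closedBall (0:(Vec d)) (2*δ)) *
        ∫⁻ t in Icc (s - 3/2) (s - 3/2 + 3),
          moll (2*δ) (fun p : (Vec d) × ℝ => g (WithLp.toLp 2 p)) (b v + t • v, t) := by
  have hmp := WithLp.volume_preserving_toLp (Vec d) ℝ
  have hme : MeasurableEmbedding (WithLp.toLp 2 : (Vec d) × ℝ → Space d) :=
    (MeasurableEquiv.toLp 2 ((Vec d) × ℝ)).measurableEmbedding
  rw [← hmp.setLIntegral_comp_preimage_emb hme]
  have hg2 : Measurable (fun p : (Vec d) × ℝ => g (WithLp.toLp 2 p)) := hg.comp hmp.measurable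
  have hV0 := (vol_pos (d := d) (r := 2 * δ) (by linarith)).ne'
  have hVt := (vol_lt_top (d := d) (r := 2*δ)).ne
  calc ∫⁻ p in WithLp.toLp 2 ⁻¹' (tube δ (dir v) (linePt b v s)), g (WithLp.toLp 2 p)
      ≤ ∫⁻ p in {p : (Vec d) × ℝ | p.2 ∈ Icc (s - 3/2) (s - 3/2 + 3) ∧ ‖p.1 - (b v + p.2 • v)‖ ≤ 2 * δ},
          g (WithLp.toLp 2 p) := by
        apply lintegral_mono_set
        rintro ⟨z, t⟩ hp
        exact tube_subset hδ hδ1 b hv s hp
    _ = ∫⁻ t in Icc (s - 3/2) (s - 3/2 + 3), ∫⁻ w in closedBall (0:(Vec d)) (2*δ),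
          g (WithLp.toLp 2 (b v + t • v + w, t)) :=
        lintegral_box hg2 (fun t => b v + t • v) (measurable_line b v) _ measurableSet_Icc _
    _ = ∫⁻ t in Icc (s - 3/2) (s - 3/2 + 3), volume (closedBall (0:(Vec d)) (2*δ)) *
          moll (2*δ) (fun p : (Vec d) × ℝ => g (WithLp.toLp 2 p)) (b v + t • v, t) := by
        congr 1
        ext t
        unfold moll
        rw [← mul_assoc, ENNReal.mul_inv_cancel hV0 hVt, one_mul]
    _ = _ := by
        rw [lintegral_const_mul]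
        exact (measurable_moll hg2).comp ((measurable_line b v).prodMk measurable_id)

/-- Lower bound for the volume of a tube. -/
theorem le_volume_tube {δ : ℝ} (hδ : 0 < δ) (hδ1 : δ < 1) (b : (Vec d) → (Vec d)) {v : (Vec d)} (hv : ‖v‖ ≤ 1)
    (s : ℝ) : ENNReal.ofReal (1/4) * volume (closedBall (0:(Vec d)) (δ/4))
      ≤ volume (tube δ (dir v) (linePt b v s)) := by
  have hmp := WithLp.volume_preserving_toLp (Vec d) ℝ
  have hme : MeasurableEmbedding (WithLp.toLp 2 : (Vec d) × ℝ → Space d) :=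
    (MeasurableEquiv.toLp 2 ((Vec d) × ℝ)).measurableEmbedding
  rw [← setLIntegral_one (tube δ (dir v) (linePt b v s)),
    ← hmp.setLIntegral_comp_preimage_emb hme]
  calc ENNReal.ofReal (1/4) * volume (closedBall (0:(Vec d)) (δ/4))
      = ∫⁻ t in Icc (s - 1/8) (s + 1/8), ∫⁻ w in closedBall (0:(Vec d)) (δ/4), 1 := by
        simp only [lintegral_const, Measure.restrict_apply_univ, one_mul, Real.volume_Icc]
        rw [mul_comm]
        congr 2
        ring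
    _ = ∫⁻ p in {p : (Vec d) × ℝ | p.2 ∈ Icc (s - 1/8) (s + 1/8) ∧ ‖p.1 - (b v + p.2 • v)‖ ≤ δ/4}, 1 :=
        (lintegral_box (g := fun _ => 1) measurable_const (fun t => b v + t • v)
          (measurable_line b v) _ measurableSet_Icc _).symm
    _ ≤ _ := by
        apply lintegral_mono_set
        rintro ⟨z, t⟩ ⟨ht, hz⟩
        exact subset_tube hδ hδ1 b hv s ht hz

/-- The maximal function is controlled by the integrals of the mollified function. -/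
theorem lineMax_le {δ : ℝ} (hδ : 0 < δ) (hδ1 : δ < 1) (b : (Vec d) → (Vec d)) {v : (Vec d)} (hv : ‖v‖ ≤ 1)
    {f : Space d → ℝ} (hf : Measurable f) :
    lineMax δ b f v ≤ (4 * 8 ^ d) * ⨆ h : ℝ, ∫⁻ t in Icc h (h + 3),
      moll (2*δ) (fun p : (Vec d) × ℝ => ‖f (WithLp.toLp 2 p)‖ₑ) (b v + t • v, t) := by
  unfold lineMax
  apply iSup_le
  intro s
  have h1 := lintegral_tube_le hδ hδ1 b hv s (g := fun y => ‖f y‖ₑ) hf.enorm
  have h2 := le_volume_tube hδ hδ1 b hv s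
  set I := ∫⁻ t in Icc (s - 3/2) (s - 3/2 + 3),
          moll (2*δ) (fun p : (Vec d) × ℝ => ‖f (WithLp.toLp 2 p)‖ₑ) (b v + t • v, t) with hI
  have h3 : I ≤ ⨆ h : ℝ, ∫⁻ t in Icc h (h + 3),
      moll (2*δ) (fun p : (Vec d) × ℝ => ‖f (WithLp.toLp 2 p)‖ₑ) (b v + t • v, t) :=
    le_iSup (fun h : ℝ => ∫⁻ t in Icc h (h + 3),
      moll (2*δ) (fun p : (Vec d) × ℝ => ‖f (WithLp.toLp 2 p)‖ₑ) (b v + t • v, t)) (s - 3/2)
  have hV0 := (vol_pos (d := d) (r := δ / 4) (by linarith)).ne'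
  have hVt := (vol_lt_top (d := d) (r := δ / 4)).ne
  have h4 : volume (closedBall (0:(Vec d)) (2*δ)) = 8 ^ d * volume (closedBall (0:(Vec d)) (δ/4)) := by
    rw [vol_ball_scale (d := d) (r := 2*δ) (by linarith),
      vol_ball_scale (d := d) (r := δ/4) (by linarith), ← mul_assoc, ← mul_pow]
    congr 2
    have : (8:ℝ≥0∞) = ENNReal.ofReal 8 := by simp
    rw [this, ← ENNReal.ofReal_mul (by norm_num)]
    congr 1
    ring
  set W := volume (closedBall (0:(Vec d)) (δ/4)) with hW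
  calc (volume (tube δ (dir v) (linePt b v s)))⁻¹ *
        ∫⁻ y in tube δ (dir v) (linePt b v s), ‖f y‖ₑ
      ≤ (ENNReal.ofReal (1/4) * W)⁻¹ * (8 ^ d * W * I) := by
        rw [← h4]
        gcongr
    _ = (4 * 8 ^ d) * I * (W⁻¹ * W) := by
        have h5 : ENNReal.ofReal (1/4) = 4⁻¹ := by
          rw [one_div, ENNReal.ofReal_inv_of_pos (by norm_num)]
          simp
        rw [h5, ENNReal.mul_inv (Or.inl (by simp)) (Or.inl (by simp)), inv_inv]
        ring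
    _ = (4 * 8 ^ d) * I := by rw [ENNReal.inv_mul_cancel hV0 hVt, mul_one]
    _ ≤ _ := by gcongr

end transfer

theorem lineMax_congr {δ : ℝ} (b : (Vec d) → (Vec d)) (v : (Vec d)) {f g : Space d → ℝ} (h : f =ᵐ[volume] g) :
    lineMax δ b f v = lineMax δ b g v := by
  unfold lineMax
  congr 1
  ext s
  congr 1
  apply lintegral_congr_ae
  filter_upwards [ae_restrict_of_ae h] with y hy
  rw [hy]


end Pool.Agent.H803R2.KakG
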