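import Pool.Agent.H803R2.KakFub

set_option autoImplicit false

/-!
The integrated line estimate.
-/

open MeasureTheory Set Filter Topology ENNReal NNReal Metric

namespace Pool.Agent.H803R2.Kak

variable {d : ℕ}

theorem measurable_indicator_of_differentiable {B : Set (EuclideanSpace ℝ (Fin d))} (hB : MeasurableSet B) {b : (EuclideanSpace ℝ (Fin d)) → (EuclideanSpace ℝ (Fin d))}
    (hb : ∀ v ∈ B, DifferentiableAt ℝ b v) : Measurable (B.indicator b) := by
  classical
  have hc : ContinuousOn b B := fun v hv => (hb v hv).continuousAt.continuousWithinAt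
  have := hc.measurable_piecewise (g := fun _ => (0:(EuclideanSpace ℝ (Fin d)))) continuousOn_const hB
  convert this using 1
  ext v
  by_cases hv : v ∈ B
  · simp [hv]
  · simp [hv]

theorem vol_ball_scale {r : ℝ} (hr : 0 < r) :
    volume (closedBall (0:(EuclideanSpace ℝ (Fin d))) r) = ENNReal.ofReal r ^ d * volume (closedBall (0:(EuclideanSpace ℝ (Fin d))) 1) := by
  have h := Measure.addHaar_closedBall_mul (volume : Measure (EuclideanSpace ℝ (Fin d))) (0:(EuclideanSpace ℝ (Fin d))) hr.le (s := 1) zero_le_one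
  rw [mul_one, finrank_euclideanSpace_fin] at h
  rw [h, ENNReal.ofReal_pow hr.le]

theorem lintegral_comb {α : Type*} [MeasurableSpace α] (ν : Measure α) {I1 I2 : α → ℝ≥0∞}
    (h1 : Measurable I1) (h2 : Measurable I2) (c A D : ℝ≥0∞) :
    ∫⁻ v, c * (A * I1 v + D * I2 v) ∂ν
      = c * (A * (∫⁻ v, I1 v ∂ν) + D * (∫⁻ v, I2 v ∂ν)) := by
  have h3 : Measurable (fun v => A * I1 v + D * I2 v) := (h1.const_mul A).add (h2.const_mul D)
  rw [lintegral_const_mul c h3]
  rw [lintegral_add_left (h1.const_mul A), lintegral_const_mul _ h1, lintegral_const_mul _ h2]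

theorem integrated (hd : 1 ≤ d) {N : ℕ} {B : Set (EuclideanSpace ℝ (Fin d))} (hB : MeasurableSet B)
    (hB1 : B ⊆ closedBall 0 1) {b : (EuclideanSpace ℝ (Fin d)) → (EuclideanSpace ℝ (Fin d))} (hb : ∀ v ∈ B, DifferentiableAt ℝ b v)
    (hN : ∀ᵐ t : ℝ, ∀ᵐ y : (EuclideanSpace ℝ (Fin d)), {v | v ∈ B ∧ b v + t • v = y ∧
      (fderiv ℝ b v + t • ContinuousLinearMap.id ℝ (EuclideanSpace ℝ (Fin d))).det ≠ 0}.encard ≤ N)
    {δ : ℝ} (hδ : 0 < δ) {f : (EuclideanSpace ℝ (Fin d)) × ℝ → ℝ≥0∞} (hf : Measurable f) :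
    ∫⁻ v in B, (⨆ h : ℝ, (∫⁻ t in Icc h (h+3), moll (2*δ) f (b v + t • v, t)) ^ (d+1))
      ≤ 2^(d+1) * ((2 * d * ENNReal.ofReal (Real.log (1 + 3/δ)))^d * N + d^d)
        * ∫⁻ p, f p ^ (d+1) := by
  classical
  set b₀ := B.indicator b with hb₀
  have hb₀m : Measurable b₀ := measurable_indicator_of_differentiable hB hb
  have hbb : ∀ v ∈ B, b₀ v = b v := fun v hv => indicator_of_mem hv b
  set A : ℝ≥0∞ := (2 * d * ENNReal.ofReal (Real.log (1 + 3/δ)))^d with hA
  set D : ℝ≥0∞ := (2 * d * ENNReal.ofReal δ) ^ d with hD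
  have h2δ : 0 < 2 * δ := by linarith
  set G : (EuclideanSpace ℝ (Fin d)) → ℝ → ℝ≥0∞ := fun v t => moll (2*δ) f (b₀ v + t • v, t) with hG
  set J : (EuclideanSpace ℝ (Fin d)) → ℝ → ℝ≥0∞ := fun v t =>
    ENNReal.ofReal |(fderiv ℝ b v + t • ContinuousLinearMap.id ℝ (EuclideanSpace ℝ (Fin d))).det| with hJ
  have hmm := measurable_moll (r := 2*δ) hf
  have hGm : Measurable (fun q : (EuclideanSpace ℝ (Fin d)) × ℝ => G q.1 q.2) := by
    apply hmm.comp
    fun_prop
  have hfd : Measurable (fun v : (EuclideanSpace ℝ (Fin d)) => fderiv ℝ b v) := measurable_fderiv ℝ b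
  have hJm : Measurable (fun q : (EuclideanSpace ℝ (Fin d)) × ℝ => J q.1 q.2) := by
    apply Measurable.ennreal_ofReal
    apply Measurable.abs
    apply ContinuousLinearMap.continuous_det.measurable.comp
    have h1 : Measurable (fun q : (EuclideanSpace ℝ (Fin d)) × ℝ => fderiv ℝ b q.1) := hfd.comp measurable_fst
    have h2 : Measurable (fun q : (EuclideanSpace ℝ (Fin d)) × ℝ => q.2 • ContinuousLinearMap.id ℝ (EuclideanSpace ℝ (Fin d))) := by
      have hc : Continuous (fun q : (EuclideanSpace ℝ (Fin d)) × ℝ => q.2 • ContinuousLinearMap.id ℝ (EuclideanSpace ℝ (Fin d))) := by fun_prop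
      exact hc.measurable
    exact h1.add h2
  have hGeq : ∀ v ∈ B, ∀ t, G v t = moll (2*δ) f (b v + t • v, t) := by
    intro v hv t
    rw [hG]; simp only; rw [hbb v hv]
  have hGmoll : ∀ v t, ∃ y : (EuclideanSpace ℝ (Fin d)), G v t = moll (2*δ) f (y, t) := fun v t => ⟨_, rfl⟩
  have hJeq : ∀ v t, J v t
      = ENNReal.ofReal |(fderiv ℝ b v + t • ContinuousLinearMap.id ℝ (EuclideanSpace ℝ (Fin d))).det| := fun v t => rfl
  clear_value G J
  have hpt : ∀ v ∈ B, (⨆ h : ℝ, (∫⁻ t in Icc h (h+3), moll (2*δ) f (b v + t • v, t)) ^ (d+1))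
      ≤ 2^(d+1) * (A * (∫⁻ t, G v t ^ (d+1) * J v t) + D * (∫⁻ t, G v t ^ (d+1))) := by
    intro v hv
    apply iSup_le
    intro h
    obtain ⟨μ, hμc, hμ⟩ := det_centers (fderiv ℝ b v)
    rw [finrank_euclideanSpace_fin] at hμc
    have hGv : Measurable (G v) := hGm.comp measurable_prodMk_left
    have hJv : Measurable (J v) := hJm.comp measurable_prodMk_left
    have := line_estimate hd hμc hδ hJv (fun t => by rw [hJeq]; exact ENNReal.ofReal_ne_top)
      (fun t => by rw [hJeq]; exact ENNReal.ofReal_le_ofReal (hμ t)) hGv h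
    have he : (fun t => moll (2*δ) f (b v + t • v, t)) = G v := by
      ext t; rw [hGeq v hv]
    calc (∫⁻ t in Icc h (h+3), moll (2*δ) f (b v + t • v, t)) ^ (d+1)
        = (∫⁻ t in Icc h (h+3), G v t) ^ (d+1) := by rw [← he]
      _ ≤ _ := this
  have hI1m : Measurable (fun v => ∫⁻ t, G v t ^ (d+1) * J v t) :=
    ((hGm.pow_const (d+1)).mul hJm).lintegral_prod_right'
  have hI2m : Measurable (fun v => ∫⁻ t, G v t ^ (d+1)) :=
    (hGm.pow_const (d+1)).lintegral_prod_right'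
  have hfp : Measurable (fun q => f q ^ (d+1)) := hf.pow_const (d+1)
  set S := ∫⁻ p, f p ^ (d+1) with hS
  have hS2 : S = ∫⁻ t : ℝ, ∫⁻ y : (EuclideanSpace ℝ (Fin d)), f (y, t) ^ (d+1) := by
    rw [hS, Measure.volume_eq_prod, lintegral_prod_symm _ hfp.aemeasurable]
  have hI1 : ∫⁻ v in B, ∫⁻ t, G v t ^ (d+1) * J v t ≤ N * S := by
    rw [lintegral_lintegral_swap ((hGm.pow_const (d+1)).mul hJm).aemeasurable]
    rw [hS2, ← lintegral_const_mul _ (hfp.lintegral_prod_left')]
    apply lintegral_mono_ae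
    filter_upwards [hN] with t ht
    have hder : ∀ v ∈ B, HasFDerivAt (fun v => b v + t • v)
        (fderiv ℝ b v + t • ContinuousLinearMap.id ℝ (EuclideanSpace ℝ (Fin d))) v := by
      intro v hv
      exact (hb v hv).hasFDerivAt.add ((hasFDerivAt_id v).const_smul t)
    have hH : Measurable (fun y : (EuclideanSpace ℝ (Fin d)) => moll (2*δ) f (y, t) ^ (d+1)) :=
      (hmm.comp measurable_prodMk_right).pow_const _
    have h1 := lintegral_comp_det_le (volume : Measure (EuclideanSpace ℝ (Fin d))) hB hder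
      (hfd.add_const _) ht hH
    calc ∫⁻ v in B, G v t ^ (d+1) * J v t
        = ∫⁻ v in B, moll (2*δ) f (b v + t • v, t) ^ (d+1) *
          ENNReal.ofReal |(fderiv ℝ b v + t • ContinuousLinearMap.id ℝ (EuclideanSpace ℝ (Fin d))).det| := by
          apply setLIntegral_congr_fun hB
          intro v hv
          simp only
          rw [hGeq v hv, hJeq]
      _ ≤ N * ∫⁻ y : (EuclideanSpace ℝ (Fin d)), moll (2*δ) f (y, t) ^ (d+1) := h1
      _ ≤ N * ∫⁻ y : (EuclideanSpace ℝ (Fin d)), moll (2*δ) (fun q => f q ^ (d+1)) (y, t) := by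
          gcongr with y
          exact moll_pow_le hd h2δ hf (y, t)
      _ = N * ∫⁻ y : (EuclideanSpace ℝ (Fin d)), f (y, t) ^ (d+1) := by rw [lintegral_moll h2δ hfp t]
  have hV0 := (vol_pos (d := d) h2δ).ne'
  have hVt := (vol_lt_top (d := d) (r := 2*δ)).ne
  have hI2 : D * ∫⁻ v in B, ∫⁻ t, G v t ^ (d+1) ≤ d ^ d * S := by
    have h1 : ∀ v, ∫⁻ t, G v t ^ (d+1) ≤ (volume (closedBall (0:(EuclideanSpace ℝ (Fin d))) (2*δ)))⁻¹ * S := by
      intro v
      rw [hS2, ← lintegral_const_mul _ (hfp.lintegral_prod_left')]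
      apply lintegral_mono
      intro t
      obtain ⟨y, hy⟩ := hGmoll v t
      simp only
      rw [hy]
      exact (moll_pow_le hd h2δ hf _).trans (moll_le _ _ _)
    calc D * ∫⁻ v in B, ∫⁻ t, G v t ^ (d+1)
        ≤ D * ∫⁻ v in B, (volume (closedBall (0:(EuclideanSpace ℝ (Fin d))) (2*δ)))⁻¹ * S := by
          gcongr with v
          exact h1 v
      _ = D * ((volume (closedBall (0:(EuclideanSpace ℝ (Fin d))) (2*δ)))⁻¹ * S * volume B) := by
          rw [lintegral_const, Measure.restrict_apply_univ]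
      _ ≤ D * ((volume (closedBall (0:(EuclideanSpace ℝ (Fin d))) (2*δ)))⁻¹ * S * volume (closedBall (0:(EuclideanSpace ℝ (Fin d))) 1)) := by
          gcongr
      _ = d ^ d * S := by
          rw [vol_ball_scale h2δ, hD]
          have hω0 := (vol_pos (d := d) one_pos).ne'
          have hωt := (vol_lt_top (d := d) (r := 1)).ne
          set ω := volume (closedBall (0:(EuclideanSpace ℝ (Fin d))) 1)
          have h3 : (2 * (d:ℝ≥0∞) * ENNReal.ofReal δ) ^ d
              = d ^ d * (ENNReal.ofReal (2*δ)) ^ d := by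
            rw [← mul_pow, ENNReal.ofReal_mul (by norm_num)]
            congr 1
            rw [show ENNReal.ofReal 2 = 2 by simp]
            ring
          have h4 : (ENNReal.ofReal (2*δ)) ^ d ≠ 0 := by
            apply pow_ne_zero
            simpa using h2δ
          have h5 : (ENNReal.ofReal (2*δ)) ^ d ≠ ∞ := ENNReal.pow_ne_top ENNReal.ofReal_ne_top
          rw [h3, ENNReal.mul_inv (Or.inl h4) (Or.inl h5)]
          set P := (ENNReal.ofReal (2*δ)) ^ d
          calc (d:ℝ≥0∞) ^ d * P * (P⁻¹ * ω⁻¹ * S * ω)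
              = (d:ℝ≥0∞) ^ d * S * (P * P⁻¹) * (ω⁻¹ * ω) := by ring
            _ = d ^ d * S := by
              rw [ENNReal.mul_inv_cancel h4 h5, ENNReal.inv_mul_cancel hω0 hωt, mul_one, mul_one]
  calc ∫⁻ v in B, (⨆ h : ℝ, (∫⁻ t in Icc h (h+3), moll (2*δ) f (b v + t • v, t)) ^ (d+1))
      ≤ ∫⁻ v in B, 2^(d+1) * (A * (∫⁻ t, G v t ^ (d+1) * J v t)
          + D * (∫⁻ t, G v t ^ (d+1))) := setLIntegral_mono' hB hpt
    _ = 2^(d+1) * (A * (∫⁻ v in B, ∫⁻ t, G v t ^ (d+1) * J v t)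
          + D * (∫⁻ v in B, ∫⁻ t, G v t ^ (d+1))) := by
        exact lintegral_comb _ hI1m hI2m _ _ _
    _ ≤ 2^(d+1) * (A * (N * S) + d ^ d * S) := by gcongr
    _ = 2^(d+1) * (A * N + d ^ d) * S := by ring

end Pool.Agent.H803R2.Kak
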