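import Mathlib

set_option autoImplicit false

/-!
Generic fibres of polynomial maps of `ℝ^d` of bounded degree are finite, with a bound depending
only on `d` and the degree (dimension count).
-/

open MeasureTheory Set Filter Topology ENNReal NNReal

namespace Pool.Agent.H803R2.Kak

variable {d : ℕ}

/-- Polynomial functions on `ℝ^d` of degree at most `L` in each variable. -/
def Pol (d L : ℕ) : Submodule ℝ (EuclideanSpace ℝ (Fin d) → ℝ) :=
  Submodule.span ℝ (Set.range (fun (m : Fin d → Fin (L + 1)) (x : EuclideanSpace ℝ (Fin d)) =>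
    ∏ i, x i ^ (m i : ℕ)))

theorem mono_mem {L : ℕ} (m : Fin d → ℕ) (hm : ∀ i, m i ≤ L) :
    (fun x : EuclideanSpace ℝ (Fin d) => ∏ i, x i ^ (m i)) ∈ Pol d L := by
  apply Submodule.subset_span
  exact ⟨fun i => ⟨m i, Nat.lt_succ_of_le (hm i)⟩, rfl⟩

theorem one_mem_Pol (L : ℕ) : (1 : EuclideanSpace ℝ (Fin d) → ℝ) ∈ Pol d L := by
  have := mono_mem (d := d) (L := L) (fun _ => 0) (fun _ => Nat.zero_le _)
  convert this using 1
  ext x; simp

theorem coord_mem_Pol (i : Fin d) {L : ℕ} (hL : 1 ≤ L) :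
    (fun x : EuclideanSpace ℝ (Fin d) => x i) ∈ Pol d L := by
  classical
  have := mono_mem (d := d) (L := L) (Pi.single i 1) (by
    intro j
    by_cases h : j = i
    · subst h; simpa using hL
    · simp [h])
  convert this using 1
  ext x
  rw [Finset.prod_eq_single i]
  · simp
  · intro j _ hj; simp [hj]
  · simp

theorem mul_mem_Pol {L L' : ℕ} {f g : EuclideanSpace ℝ (Fin d) → ℝ} (hf : f ∈ Pol d L)
    (hg : g ∈ Pol d L') : f * g ∈ Pol d (L + L') := by
  induction hf using Submodule.span_induction with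
  | mem f hf =>
    obtain ⟨m, rfl⟩ := hf
    induction hg using Submodule.span_induction with
    | mem g hg =>
      obtain ⟨m', rfl⟩ := hg
      have := mono_mem (d := d) (L := L + L') (fun i => (m i : ℕ) + (m' i : ℕ)) (by
        intro i
        have h1 := (m i).2
        have h2 := (m' i).2
        omega)
      convert this using 1
      ext x
      simp only [Pi.mul_apply]
      rw [← Finset.prod_mul_distrib]
      congr 1
      ext i
      rw [pow_add]
    | zero => rw [mul_zero]; exact Submodule.zero_mem _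
    | add g1 g2 _ _ h1 h2 => rw [mul_add]; exact Submodule.add_mem _ h1 h2
    | smul c g1 _ h1 => rw [mul_smul_comm]; exact Submodule.smul_mem _ _ h1
  | zero => rw [zero_mul]; exact Submodule.zero_mem _
  | add f1 f2 _ _ h1 h2 => rw [add_mul]; exact Submodule.add_mem _ h1 h2
  | smul c f1 _ h1 => rw [smul_mul_assoc]; exact Submodule.smul_mem _ _ h1

theorem Pol_mono {L L' : ℕ} (h : L ≤ L') : Pol d L ≤ Pol d L' := by
  apply Submodule.span_le.mpr
  rintro _ ⟨m, rfl⟩
  exact mono_mem (fun i => (m i : ℕ)) (fun i => by have := (m i).2; omega)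

theorem pow_mem_Pol {L : ℕ} {f : EuclideanSpace ℝ (Fin d) → ℝ} (hf : f ∈ Pol d L) (n : ℕ) :
    f ^ n ∈ Pol d (n * L) := by
  induction n with
  | zero => rw [pow_zero]; exact one_mem_Pol _
  | succ n ih =>
    rw [pow_succ, Nat.succ_mul]
    exact mul_mem_Pol ih hf

theorem prod_mem_Pol {L : ℕ} {ι : Type*} (s : Finset ι) (f : ι → EuclideanSpace ℝ (Fin d) → ℝ)
    (hf : ∀ i ∈ s, f i ∈ Pol d L) : ∏ i ∈ s, f i ∈ Pol d (s.card * L) := by
  classical
  induction s using Finset.induction_on with
  | empty => rw [Finset.prod_empty]; exact one_mem_Pol _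
  | insert a s ha ih =>
    rw [Finset.prod_insert ha, Finset.card_insert_of_notMem ha, Nat.succ_mul, Nat.add_comm]
    exact mul_mem_Pol (hf a (Finset.mem_insert_self a s))
      (ih (fun i hi => hf i (Finset.mem_insert_of_mem hi)))

theorem finrank_Pol_le (d L : ℕ) : Module.finrank ℝ (Pol d L) ≤ (L + 1) ^ d := by
  have := finrank_range_le_card (R := ℝ)
    (fun (m : Fin d → Fin (L + 1)) (x : EuclideanSpace ℝ (Fin d)) => ∏ i, x i ^ (m i : ℕ))
  rw [Set.finrank] at this
  calc Module.finrank ℝ (Pol d L) ≤ Fintype.card (Fin d → Fin (L + 1)) := this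
    _ = (L + 1) ^ d := by simp

instance (d L : ℕ) : FiniteDimensional ℝ (Pol d L) :=
  FiniteDimensional.span_of_finite ℝ (Set.finite_range _)

/-- The dimension count: an algebraic relation between `x i` and the `P j`. -/
theorem exists_relation (hd : 1 ≤ d) (k : ℕ) (hk : 1 ≤ k)
    (P : Fin d → EuclideanSpace ℝ (Fin d) → ℝ) (hP : ∀ j, P j ∈ Pol d k) (i : Fin d) :
    ∃ c : Fin ((1 + d * k) ^ d + 1) × (Fin d → Fin ((1 + d * k) ^ d + 1)) → ℝ, c ≠ 0 ∧
      ∀ x : EuclideanSpace ℝ (Fin d),
        ∑ q, c q * (x i ^ (q.1 : ℕ) * ∏ j, P j x ^ (q.2 j : ℕ)) = 0 := by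
  set D := (1 + d * k) ^ d with hD
  have hmem : ∀ q : Fin (D + 1) × (Fin d → Fin (D + 1)),
      (fun x : EuclideanSpace ℝ (Fin d) => x i ^ (q.1 : ℕ) * ∏ j, P j x ^ (q.2 j : ℕ))
        ∈ Pol d (D * (1 + d * k)) := by
    intro q
    have h1 : (fun x : EuclideanSpace ℝ (Fin d) => x i) ^ (q.1 : ℕ) ∈ Pol d D := by
      have := pow_mem_Pol (coord_mem_Pol (d := d) i (le_refl 1)) (q.1 : ℕ)
      refine Pol_mono ?_ this
      have := q.1.2
      omega
    have h2 : ∏ j, (P j) ^ (q.2 j : ℕ) ∈ Pol d (Finset.univ.card (α := Fin d) * (D * k)) := by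
      apply prod_mem_Pol
      intro j _
      refine Pol_mono ?_ (pow_mem_Pol (hP j) (q.2 j : ℕ))
      have := (q.2 j).2
      exact Nat.mul_le_mul_right _ (by omega)
    have h3 := mul_mem_Pol h1 h2
    have h4 : D + Finset.univ.card (α := Fin d) * (D * k) = D * (1 + d * k) := by
      rw [Finset.card_univ, Fintype.card_fin]; ring
    rw [h4] at h3
    convert h3 using 1
    ext x
    simp
  let T : (Fin (D + 1) × (Fin d → Fin (D + 1)) → ℝ) →ₗ[ℝ] Pol d (D * (1 + d * k)) :=
    { toFun := fun c => ∑ q, c q • (⟨_, hmem q⟩ : Pol d (D * (1 + d * k)))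
      map_add' := by
        intro c c'
        simp only [Pi.add_apply, add_smul, Finset.sum_add_distrib]
      map_smul' := by
        intro r c
        simp only [Pi.smul_apply, smul_eq_mul, mul_smul, Finset.smul_sum, RingHom.id_apply] }
  have hlt : Module.finrank ℝ (Pol d (D * (1 + d * k)))
      < Module.finrank ℝ (Fin (D + 1) × (Fin d → Fin (D + 1)) → ℝ) := by
    rw [Module.finrank_fintype_fun_eq_card, Fintype.card_prod, Fintype.card_fun, Fintype.card_fin,
      Fintype.card_fin]
    refine lt_of_le_of_lt (finrank_Pol_le _ _) ?_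
    calc (D * (1 + d * k) + 1) ^ d ≤ ((1 + d * k) * (D + 1)) ^ d := by
          apply Nat.pow_le_pow_left
          have : 1 ≤ 1 + d * k := by omega
          nlinarith
      _ = D * (D + 1) ^ d := by rw [mul_pow]
      _ < (D + 1) * (D + 1) ^ d := by
          apply Nat.mul_lt_mul_of_pos_right (Nat.lt_succ_self D)
          positivity
  have hker := LinearMap.ker_ne_bot_of_finrank_lt (f := T) hlt
  obtain ⟨c, hc, hc0⟩ := Submodule.exists_mem_ne_zero_of_ne_bot hker
  refine ⟨c, hc0, ?_⟩
  intro x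
  have h1 : (T c : EuclideanSpace ℝ (Fin d) → ℝ) x = 0 := by
    rw [LinearMap.mem_ker.mp hc]; rfl
  have h2 : (T c : EuclideanSpace ℝ (Fin d) → ℝ) x
      = ∑ q, c q * (x i ^ (q.1 : ℕ) * ∏ j, P j x ^ (q.2 j : ℕ)) := by
    show ((∑ q, c q • (⟨_, hmem q⟩ : Pol d (D * (1 + d * k))) : Pol d (D * (1 + d * k))) :
      EuclideanSpace ℝ (Fin d) → ℝ) x = _
    rw [Submodule.coe_sum, Finset.sum_apply]
    rfl
  rw [← h2, h1]

theorem eval_aeval' (f : Fin d → Polynomial ℝ) (s : ℝ) (Q : MvPolynomial (Fin d) ℝ) :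
    (MvPolynomial.aeval f Q).eval s = MvPolynomial.eval (fun i => (f i).eval s) Q := by
  induction Q using MvPolynomial.induction_on with
  | C a => simp
  | add p q hp hq => simp [hp, hq]
  | mul_X p n hp => simp [hp]

/-- The zero set of a nonzero polynomial is a null set. -/
theorem ae_eval_ne_zero {Q : MvPolynomial (Fin d) ℝ} (hQ : Q ≠ 0) :
    ∀ᵐ y : EuclideanSpace ℝ (Fin d), MvPolynomial.eval (fun i => y i) Q ≠ 0 := by
  obtain ⟨p, hp⟩ : ∃ p : Fin d → ℝ, MvPolynomial.eval p Q ≠ 0 := by
    by_contra hcon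
    push Not at hcon
    exact hQ (MvPolynomial.funext (fun x => by rw [hcon x, map_zero]))
  set p' : EuclideanSpace ℝ (Fin d) := WithLp.toLp 2 p with hp'
  set Z : Set (EuclideanSpace ℝ (Fin d)) :=
    {y | MvPolynomial.eval (fun i => y i) Q = 0} with hZ
  have hcontQ : Continuous (fun y : EuclideanSpace ℝ (Fin d) =>
      MvPolynomial.eval (fun i => y i) Q) := by
    have h1 := MvPolynomial.continuous_eval Q
    exact h1.comp (by fun_prop)
  have hZm : MeasurableSet Z := (hcontQ.measurable (measurableSet_singleton (0:ℝ)))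
  -- finitely many zeros on each line through `p`
  have hline : ∀ y : EuclideanSpace ℝ (Fin d), volume {s : ℝ | p' + s • y ∈ Z} = 0 := by
    intro y
    set q : Polynomial ℝ := MvPolynomial.aeval
      (fun i => Polynomial.C (p i) + Polynomial.C (y i) * Polynomial.X) Q with hq
    have hev : ∀ s : ℝ, q.eval s = MvPolynomial.eval (fun i => (p' + s • y) i) Q := by
      intro s
      rw [hq, eval_aeval']
      have : (fun i => (Polynomial.C (p i) + Polynomial.C (y i) * Polynomial.X).eval s)
          = (fun i => (p' + s • y) i) := by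
        ext i
        simp only [Polynomial.eval_add, Polynomial.eval_C, Polynomial.eval_mul,
          Polynomial.eval_X]
        show p i + y i * s = p i + s * y i
        ring
      rw [this]
    have hq0 : q ≠ 0 := by
      intro h
      have := hev 0
      have e0 : (fun i => (p' + (0:ℝ) • y) i) = p := by
        ext i
        show p i + 0 * y i = p i
        ring
      rw [h, Polynomial.eval_zero, e0] at this
      exact hp this.symm
    have hfin : {s : ℝ | p' + s • y ∈ Z} ⊆ (q.roots.toFinset : Set ℝ) := by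
      intro s hs
      have hs' : MvPolynomial.eval (fun i => (p' + s • y) i) Q = 0 := hs
      rw [← hev] at hs'
      simp only [Multiset.mem_toFinset, Finset.mem_coe]
      exact (Polynomial.mem_roots hq0).mpr hs'
    exact measure_mono_null hfin (Finset.measure_zero _ _)
  -- Fubini
  have hset : MeasurableSet {q : EuclideanSpace ℝ (Fin d) × ℝ | p' + q.2 • q.1 ∈ Z} := by
    have : Measurable (fun q : EuclideanSpace ℝ (Fin d) × ℝ => p' + q.2 • q.1) := by fun_prop
    exact this hZm
  have hfub : (volume.prod volume) {q : EuclideanSpace ℝ (Fin d) × ℝ | p' + q.2 • q.1 ∈ Z} = 0 := by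
    rw [Measure.prod_apply hset]
    have : ∀ y : EuclideanSpace ℝ (Fin d),
        volume (Prod.mk y ⁻¹' {q : EuclideanSpace ℝ (Fin d) × ℝ | p' + q.2 • q.1 ∈ Z}) = 0 := hline
    rw [lintegral_congr this]
    simp
  rw [Measure.prod_apply_symm hset, lintegral_eq_zero_iff' (by
    exact (measurable_measure_prodMk_right hset).aemeasurable)] at hfub
  have hne : ∀ᵐ s : ℝ, s ≠ 0 := by
    have : volume ({0} : Set ℝ) = 0 := by simp
    exact (measure_eq_zero_iff_ae_notMem.mp this)
  obtain ⟨s, hs, hs0⟩ := (hfub.and hne).exists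
  have h1 : volume ((fun y : EuclideanSpace ℝ (Fin d) => p' + s • y) ⁻¹' Z) = 0 := hs
  have h2 : (fun y : EuclideanSpace ℝ (Fin d) => p' + s • y) ⁻¹' Z
      = (fun y => s • y) ⁻¹' ((fun y => p' + y) ⁻¹' Z) := rfl
  rw [h2, Measure.addHaar_preimage_smul _ hs0, measure_preimage_add, mul_eq_zero] at h1
  rw [ae_iff]
  simp only [ne_eq, not_not]
  rcases h1 with h1 | h1
  · exfalso
    have : 0 < |(s ^ Module.finrank ℝ (EuclideanSpace ℝ (Fin d)))⁻¹| := by positivity
    rw [ENNReal.ofReal_eq_zero] at h1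
    linarith
  · exact h1

end Pool.Agent.H803R2.Kak
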