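import Mathlib

set_option autoImplicit false

/-!
Comparison of the base `b` digits of a real number `x` with those of a rational number `r`.
-/

open Finset

namespace Pool.Agent.H803R2.PerDist

/-- The `n`-th digit after the point (`n ≥ 1`) of the base `b` expansion of `x`. -/
noncomputable def dig (b : ℕ) (x : ℝ) (n : ℕ) : ℤ :=
  ⌊(b:ℝ) ^ n * x⌋ - b * ⌊(b:ℝ) ^ (n - 1) * x⌋

/-- The number of `1 ≤ n ≤ N` at which the digits of `x` and `y` differ. -/
noncomputable def dist (b : ℕ) (x y : ℝ) (N : ℕ) : ℕ :=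
  #{n ∈ Icc 1 N | dig b x n ≠ dig b y n}

theorem dig_add_int {b : ℕ} (x : ℝ) (k : ℤ) {n : ℕ} (hn : 1 ≤ n) :
    dig b (x + k) n = dig b x n := by
  unfold dig
  have h1 : (b:ℝ) ^ n * (x + k) = (b:ℝ) ^ n * x + ((b ^ n * k : ℤ) : ℝ) := by push_cast; ring
  have h2 : (b:ℝ) ^ (n - 1) * (x + k) = (b:ℝ) ^ (n-1) * x + ((b ^ (n-1) * k : ℤ) : ℝ) := by
    push_cast; ring
  rw [h1, h2, Int.floor_add_intCast, Int.floor_add_intCast]
  obtain ⟨j, rfl⟩ : ∃ j, n = j + 1 := ⟨n - 1, by omega⟩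
  simp only [Nat.add_sub_cancel]
  ring

theorem dig_nonneg {b : ℕ} (hb : 2 ≤ b) (x : ℝ) {n : ℕ} (hn : 1 ≤ n) : 0 ≤ dig b x n := by
  unfold dig
  obtain ⟨j, rfl⟩ : ∃ j, n = j + 1 := ⟨n - 1, by omega⟩
  simp only [Nat.add_sub_cancel]
  have h : ((b:ℤ) * ⌊(b:ℝ) ^ j * x⌋) ≤ ⌊(b:ℝ) ^ (j+1) * x⌋ := by
    apply Int.le_floor.mpr
    push_cast
    have h0 := Int.floor_le ((b:ℝ) ^ j * x)
    have hb0 : (0:ℝ) ≤ b := by positivity
    calc (b:ℝ) * ⌊(b:ℝ) ^ j * x⌋ ≤ b * ((b:ℝ) ^ j * x) := by gcongr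
      _ = _ := by ring
  linarith

theorem dig_le {b : ℕ} (hb : 2 ≤ b) (x : ℝ) {n : ℕ} (hn : 1 ≤ n) : dig b x n ≤ b - 1 := by
  unfold dig
  obtain ⟨j, rfl⟩ : ∃ j, n = j + 1 := ⟨n - 1, by omega⟩
  simp only [Nat.add_sub_cancel]
  have h : ⌊(b:ℝ) ^ (j+1) * x⌋ < (b:ℤ) * ⌊(b:ℝ) ^ j * x⌋ + b := by
    apply Int.floor_lt.mpr
    push_cast
    have h0 := Int.lt_floor_add_one ((b:ℝ) ^ j * x)
    have hb0 : (0:ℝ) < b := by positivity
    calc (b:ℝ) ^ (j+1) * x = b * ((b:ℝ) ^ j * x) := by ring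
      _ < b * ((⌊(b:ℝ) ^ j * x⌋ : ℝ) + 1) := by gcongr
      _ = _ := by ring
  linarith

section
variable (b : ℕ) (x y : ℝ)

/-- Difference of the integer parts of `bⁿ x` and `bⁿ y`. -/
noncomputable def E (n : ℕ) : ℤ := ⌊(b:ℝ) ^ n * x⌋ - ⌊(b:ℝ) ^ n * y⌋

/-- Difference of the digits. -/
noncomputable def ep : ℕ → ℤ
  | 0 => 0
  | n + 1 => E b x y (n + 1) - b * E b x y n

/-- The remainder. -/
noncomputable def th (n : ℕ) : ℝ := (b:ℝ) ^ n * (x - y) - E b x y n

theorem ep_succ (n : ℕ) : ep b x y (n+1) = dig b x (n+1) - dig b y (n+1) := by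
  simp only [ep, E, dig, Nat.add_sub_cancel]
  ring

theorem ep_abs_le {b : ℕ} (hb : 2 ≤ b) (x y : ℝ) (n : ℕ) : |ep b x y n| ≤ b - 1 := by
  cases n with
  | zero => simp only [ep, abs_zero]; omega
  | succ n =>
    rw [ep_succ, abs_le]
    have h1 := dig_nonneg hb x (n := n+1) (by omega)
    have h2 := dig_le hb x (n := n+1) (by omega)
    have h3 := dig_nonneg hb y (n := n+1) (by omega)
    have h4 := dig_le hb y (n := n+1) (by omega)
    constructor <;> linarith

theorem th_abs_lt (n : ℕ) : |th b x y n| < 1 := by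
  unfold th E
  have h1 := Int.floor_le ((b:ℝ) ^ n * x)
  have h2 := Int.lt_floor_add_one ((b:ℝ) ^ n * x)
  have h3 := Int.floor_le ((b:ℝ) ^ n * y)
  have h4 := Int.lt_floor_add_one ((b:ℝ) ^ n * y)
  rw [abs_lt]
  push_cast
  constructor <;> nlinarith

theorem th_succ (n : ℕ) : th b x y (n+1) = b * th b x y n - ep b x y (n+1) := by
  simp only [th, ep]
  push_cast
  ring

/-- Sum of the absolute digit differences is at most `(b-1)` times the Hamming distance. -/
theorem sum_ep_le {b : ℕ} (hb : 2 ≤ b) (x y : ℝ) (N : ℕ) :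
    ∑ n ∈ range (N+1), |(ep b x y n : ℝ)| ≤ (b - 1) * dist b x y N := by
  have h1 : ∑ n ∈ range (N+1), |(ep b x y n : ℝ)| = ∑ n ∈ Icc 1 N, |(ep b x y n : ℝ)| := by
    have h0 : |(ep b x y 0 : ℝ)| = 0 := by
      have : ep b x y 0 = 0 := rfl
      rw [this]
      simp
    rw [sum_range_succ', h0, add_zero]
    rw [Finset.range_eq_Ico, Finset.sum_Ico_add' (fun n => |(ep b x y n : ℝ)|) 0 N 1]
    apply Finset.sum_congr _ (fun _ _ => rfl)
    ext n
    simp only [Finset.mem_Ico, Finset.mem_Icc]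
    omega
  rw [h1]
  have h2 : ∑ n ∈ Icc 1 N, |(ep b x y n : ℝ)|
      = ∑ n ∈ (Icc 1 N).filter (fun n => dig b x n ≠ dig b y n), |(ep b x y n : ℝ)| := by
    rw [Finset.sum_filter_of_ne]
    intro n hn hne heq
    apply hne
    obtain ⟨j, rfl⟩ : ∃ j, n = j + 1 := ⟨n - 1, by simp at hn; omega⟩
    rw [ep_succ, heq]
    simp
  rw [h2]
  calc _ ≤ ∑ n ∈ (Icc 1 N).filter (fun n => dig b x n ≠ dig b y n), ((b:ℝ) - 1) := by
        apply Finset.sum_le_sum
        intro n _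
        have := ep_abs_le hb x y n
        exact_mod_cast this
    _ = (b - 1) * dist b x y N := by
        rw [Finset.sum_const, nsmul_eq_mul, dist, mul_comm]

/-- The sum of the remainders is at most the Hamming distance plus one. -/
theorem sum_th_le {b : ℕ} (hb : 2 ≤ b) (x y : ℝ) (N : ℕ) :
    ∑ n ∈ range N, |th b x y n| ≤ dist b x y N + 1 := by
  have hb1 : (2:ℝ) ≤ b := by exact_mod_cast hb
  have hstep : ∀ n, (b:ℝ) * |th b x y n| ≤ |th b x y (n+1)| + |(ep b x y (n+1) : ℝ)| := by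
    intro n
    have h1 : (b:ℝ) * th b x y n = th b x y (n+1) + ep b x y (n+1) := by
      rw [th_succ]; ring
    calc (b:ℝ) * |th b x y n| = |(b:ℝ) * th b x y n| := by
          rw [abs_mul, abs_of_nonneg (by linarith : (0:ℝ) ≤ b)]
      _ = |th b x y (n+1) + ep b x y (n+1)| := by rw [h1]
      _ ≤ _ := abs_add_le _ _
  have hsum : (b:ℝ) * ∑ n ∈ range N, |th b x y n|
      ≤ ∑ n ∈ range N, |th b x y (n+1)| + ∑ n ∈ range N, |(ep b x y (n+1) : ℝ)| := by
    rw [Finset.mul_sum, ← Finset.sum_add_distrib]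
    exact Finset.sum_le_sum (fun n _ => hstep n)
  have h2 : ∑ n ∈ range N, |th b x y (n+1)| ≤ ∑ n ∈ range N, |th b x y n| + 1 := by
    have h3 := Finset.sum_range_succ (fun n => |th b x y n|) N
    have h4 := Finset.sum_range_succ' (fun n => |th b x y n|) N
    have h5 := th_abs_lt b x y N
    have h6 := abs_nonneg (th b x y 0)
    linarith
  have h3 : ∑ n ∈ range N, |(ep b x y (n+1) : ℝ)| ≤ (b - 1) * dist b x y N := by
    have h4 := Finset.sum_range_succ' (fun n => |(ep b x y n : ℝ)|) N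
    have h5 := sum_ep_le hb x y N
    have h6 : |(ep b x y 0 : ℝ)| = 0 := by simp [ep]
    linarith
  have h7 : ((b:ℝ) - 1) * ∑ n ∈ range N, |th b x y n| ≤ 1 + (b-1) * dist b x y N := by linarith
  have hb2 : (1:ℝ) ≤ b - 1 := by linarith
  by_contra hcon
  push Not at hcon
  nlinarith

theorem E_eq_sum (h0 : E b x y 0 = 0) (n : ℕ) :
    E b x y n = ∑ k ∈ range (n+1), ep b x y k * (b:ℤ) ^ (n - k) := by
  induction n with
  | zero => simp [ep, h0]
  | succ n ih =>
    rw [Finset.sum_range_succ]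
    have h1 : ∑ k ∈ range (n+1), ep b x y k * (b:ℤ) ^ (n + 1 - k) = b * E b x y n := by
      rw [ih, Finset.mul_sum]
      apply Finset.sum_congr rfl
      intro k hk
      have hk' : k ≤ n := by simp at hk; omega
      have : n + 1 - k = (n - k) + 1 := by omega
      rw [this, pow_succ]
      ring
    rw [h1]
    simp only [ep, Nat.sub_self, pow_zero, mul_one]
    ring

/-- The integers `Σ_{j ≤ n} b^{n-j} [e^i]_j`. -/
noncomputable def S : ℕ → ℕ → ℤ
  | 0, n => (b:ℤ) ^ n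
  | i + 1, n => ∑ k ∈ range (n+1), ep b x y k * S i (n - k)

/-- The errors `bⁿ δ^i - S i n`. -/
noncomputable def T (i n : ℕ) : ℝ := (b:ℝ) ^ n * (x - y) ^ i - S b x y i n

theorem T_succ (h0 : E b x y 0 = 0) (i n : ℕ) :
    T b x y (i+1) n = (x - y) ^ i * th b x y n
      + ∑ k ∈ range (n+1), (ep b x y k : ℝ) * T b x y i (n - k) := by
  have h1 : ∑ k ∈ range (n+1), (ep b x y k : ℝ) * T b x y i (n - k)
      = (x - y) ^ i * E b x y n - S b x y (i+1) n := by
    rw [E_eq_sum b x y h0 n]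
    simp only [T, S]
    push_cast
    rw [Finset.mul_sum, ← Finset.sum_sub_distrib]
    apply Finset.sum_congr rfl
    intro k _
    ring
  rw [h1]
  simp only [T, th]
  ring

/-- Convolution bound. -/
theorem sum_conv_le (f g : ℕ → ℝ) (hf : ∀ n, 0 ≤ f n) (hg : ∀ n, 0 ≤ g n) (N : ℕ) :
    ∑ n ∈ range N, ∑ k ∈ range (n+1), f k * g (n - k)
      ≤ (∑ n ∈ range N, f n) * ∑ n ∈ range N, g n := by
  have h1 : ∑ n ∈ range N, ∑ k ∈ range (n+1), f k * g (n - k)
      = ∑ k ∈ range N, ∑ n ∈ Ico k N, f k * g (n - k) := by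
    apply Finset.sum_comm'
    intro n k
    simp only [Finset.mem_range, Finset.mem_Ico]
    omega
  rw [h1, Finset.sum_mul]
  apply Finset.sum_le_sum
  intro k hk
  rw [← Finset.mul_sum]
  apply mul_le_mul_of_nonneg_left _ (hf k)
  have h2 : ∑ n ∈ Ico k N, g (n - k) = ∑ n ∈ range (N - k), g n := by
    rw [Finset.sum_Ico_eq_sum_range]
    apply Finset.sum_congr rfl
    intro n _
    simp
  rw [h2]
  apply Finset.sum_le_sum_of_subset_of_nonneg
  · intro n hn
    simp at hn ⊢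
    omega
  · intro n _ _
    exact hg n

/-- One step of the estimate of the errors. -/
theorem sum_T_succ {b : ℕ} (hb : 2 ≤ b) (x y : ℝ) (h0 : E b x y 0 = 0) (i N : ℕ) :
    ∑ n ∈ range N, |T b x y (i+1) n| ≤ |x - y| ^ i * (dist b x y N + 1)
      + (b - 1) * dist b x y N * ∑ n ∈ range N, |T b x y i n| := by
  have h1 : ∀ n, |T b x y (i+1) n| ≤ |x - y| ^ i * |th b x y n|
      + ∑ k ∈ range (n+1), |(ep b x y k : ℝ)| * |T b x y i (n - k)| := by
    intro n
    rw [T_succ b x y h0]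
    refine (abs_add_le _ _).trans ?_
    rw [abs_mul, abs_pow]
    gcongr
    refine (Finset.abs_sum_le_sum_abs _ _).trans ?_
    apply Finset.sum_le_sum
    intro k _
    rw [abs_mul]
  calc ∑ n ∈ range N, |T b x y (i+1) n|
      ≤ ∑ n ∈ range N, (|x - y| ^ i * |th b x y n|
        + ∑ k ∈ range (n+1), |(ep b x y k : ℝ)| * |T b x y i (n - k)|) :=
        Finset.sum_le_sum (fun n _ => h1 n)
    _ = |x - y| ^ i * ∑ n ∈ range N, |th b x y n|
        + ∑ n ∈ range N, ∑ k ∈ range (n+1), |(ep b x y k : ℝ)| * |T b x y i (n - k)| := by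
        rw [Finset.sum_add_distrib, Finset.mul_sum]
    _ ≤ |x - y| ^ i * (dist b x y N + 1)
      + (b - 1) * dist b x y N * ∑ n ∈ range N, |T b x y i n| := by
        have h2 := sum_th_le hb x y N
        have h3 := sum_conv_le (fun n => |(ep b x y n : ℝ)|) (fun n => |T b x y i n|)
          (fun _ => abs_nonneg _) (fun _ => abs_nonneg _) N
        have h4 : ∑ n ∈ range N, |(ep b x y n : ℝ)| ≤ (b - 1) * dist b x y N := by
          refine le_trans ?_ (sum_ep_le hb x y N)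
          apply Finset.sum_le_sum_of_subset_of_nonneg
          · intro n hn; simp at hn ⊢; omega
          · intro n _ _; exact abs_nonneg _
        have h5 : 0 ≤ ∑ n ∈ range N, |T b x y i n| := Finset.sum_nonneg (fun _ _ => abs_nonneg _)
        gcongr
        exact h3.trans (by gcongr)

end

end Pool.Agent.H803R2.PerDist
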