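import Mathlib

set_option autoImplicit false

/-!
Arithmetic of the sequence of row sums of the powers of
`A = (2 0 1; 1 3 0; 0 2 3)` (eigenvalues `4, 2 ± i`).
-/

namespace Pool.Agent.H803R2.Ord

/-- row sums of `A ^ k` -/
def r : ℕ → Fin 3 → ℕ
  | 0 => fun _ => 1
  | k + 1 => ![2 * r k 0 + r k 2, r k 0 + 3 * r k 1, 2 * r k 1 + 3 * r k 2]

theorem r_succ_0 (k : ℕ) : r (k + 1) 0 = 2 * r k 0 + r k 2 := rfl
theorem r_succ_1 (k : ℕ) : r (k + 1) 1 = r k 0 + 3 * r k 1 := rfl
theorem r_succ_2 (k : ℕ) : r (k + 1) 2 = 2 * r k 1 + 3 * r k 2 := rfl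

theorem r_pos (k : ℕ) : 0 < r k 0 ∧ 0 < r k 1 ∧ 0 < r k 2 := by
  induction k with
  | zero => simp [r]
  | succ k ih =>
    obtain ⟨h0, h1, h2⟩ := ih
    rw [r_succ_0, r_succ_1, r_succ_2]
    omega

theorem r_le (k : ℕ) : r k 0 ≤ r k 2 := by
  induction k with
  | zero => simp [r]
  | succ k ih =>
    rw [r_succ_0, r_succ_2]
    omega

/-- the difference of the first two row sums -/
def D (k : ℕ) : ℤ := (r k 1 : ℤ) - r k 0

theorem D_zero : D 0 = 0 := by simp [D, r]
theorem D_one : D 1 = 1 := by simp [D, r_succ_0, r_succ_1, r]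

theorem D_rec (k : ℕ) : D (k + 2) = 4 * D (k + 1) - 5 * D k := by
  simp only [D, r_succ_0, r_succ_1, r_succ_2]
  push_cast
  ring

theorem D_mod (k : ℕ) : ((D (k + 1) : ℤ) : ZMod 5) ≠ 0 := by
  induction k with
  | zero => rw [D_one]; decide
  | succ k ih =>
    rw [D_rec]
    push_cast
    have h5 : (5 : ZMod 5) = 0 := rfl
    rw [h5, zero_mul, sub_zero]
    haveI : Fact (Nat.Prime 5) := ⟨by norm_num⟩
    exact mul_ne_zero (by decide) ih

theorem D_im (k : ℕ) : ((D k : ℤ) : ℝ) = (((2 : ℂ) + Complex.I) ^ k).im := by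
  induction k using Nat.strong_induction_on with
  | _ k ih =>
    match k with
    | 0 => simp [D_zero]
    | 1 => simp [D_one]
    | k + 2 =>
      rw [D_rec]
      push_cast
      rw [ih (k + 1) (by omega), ih k (by omega)]
      have : ((2 : ℂ) + Complex.I) ^ (k + 2)
          = 4 * ((2 : ℂ) + Complex.I) ^ (k + 1) - 5 * ((2 : ℂ) + Complex.I) ^ k := by
        have h2 : ((2 : ℂ) + Complex.I) ^ 2 = 4 * ((2 : ℂ) + Complex.I) - 5 := by
          have := Complex.I_sq
          linear_combination this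
        rw [pow_add, h2, pow_succ]
        ring
      rw [this]
      simp

/-- a positive real sequence cannot satisfy a recursion of order two with negative discriminant -/
theorem no_pos (t q : ℝ) (htq : t ^ 2 < 4 * q) (x : ℕ → ℝ) (hx : ∀ j, 0 < x j)
    (hrec : ∀ j, x (j + 2) = t * x (j + 1) - q * x j) : False := by
  set ρ : ℕ → ℝ := fun j => x (j + 1) / x j with hρ
  have hpos : ∀ j, 0 < ρ j := fun j => div_pos (hx _) (hx _)
  set δ := q - t ^ 2 / 4 with hδ
  have hδ0 : 0 < δ := by rw [hδ]; linarith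
  have hstep : ∀ j, ρ j - ρ (j + 1) = (ρ j ^ 2 - t * ρ j + q) / ρ j := by
    intro j
    have h0 := (hx j).ne'
    have h1 := (hx (j + 1)).ne'
    simp only [hρ]
    rw [show j + 1 + 1 = j + 2 from rfl, hrec j]
    field_simp
    ring
  have hge : ∀ j, δ / ρ j ≤ ρ j - ρ (j + 1) := by
    intro j
    rw [hstep]
    apply div_le_div_of_nonneg_right _ (hpos j).le
    nlinarith [sq_nonneg (ρ j - t / 2)]
  have hdec : ∀ j, ρ (j + 1) ≤ ρ j := by
    intro j
    have h1 := hge j
    have h2 : 0 < δ / ρ j := div_pos hδ0 (hpos j)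
    linarith
  have hle0 : ∀ j, ρ j ≤ ρ 0 := by
    intro j
    induction j with
    | zero => exact le_rfl
    | succ j ih => exact (hdec j).trans ih
  have hlin : ∀ j : ℕ, ρ j ≤ ρ 0 - j * (δ / ρ 0) := by
    intro j
    induction j with
    | zero => simp
    | succ j ih =>
      have h1 := hge j
      have h2 : δ / ρ 0 ≤ δ / ρ j := div_le_div_of_nonneg_left hδ0.le (hpos j) (hle0 j)
      push_cast
      linarith
  obtain ⟨n, hn⟩ := exists_nat_gt (ρ 0 / (δ / ρ 0))
  have h1 := hlin n
  have h2 : 0 < δ / ρ 0 := div_pos hδ0 (hpos 0)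
  rw [div_lt_iff₀ h2] at hn
  have h3 := hpos n
  linarith

/-- The sign of `D` is not eventually periodic. -/
theorem sign_not_periodic (N m : ℕ) (hm : 1 ≤ m)
    (h : ∀ n, N ≤ n → (0 < D n ↔ 0 < D (n + m))) : False := by
  set w : ℂ := ((2 : ℂ) + Complex.I) ^ m with hw
  have hwim : w.im ≠ 0 := by
    rw [hw, ← D_im]
    obtain ⟨m', rfl⟩ : ∃ m', m = m' + 1 := ⟨m - 1, by omega⟩
    intro h0
    have h1 : D (m' + 1) = 0 := by exact_mod_cast h0
    exact D_mod m' (by rw [h1]; simp)
  have hDne : ∀ n, D (n + 1) ≠ 0 := by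
    intro n h0
    exact D_mod n (by rw [h0]; simp)
  set x : ℕ → ℝ := fun j => ((D (N + 1 + j * m) : ℤ) : ℝ) with hx
  have hxim : ∀ j, x j = (((2 : ℂ) + Complex.I) ^ (N + 1) * w ^ j).im := by
    intro j
    simp only [hx]
    rw [D_im, hw, pow_add, ← pow_mul, mul_comm m j]
  have hrec : ∀ j, x (j + 2) = (2 * w.re) * x (j + 1) - Complex.normSq w * x j := by
    intro j
    rw [hxim, hxim, hxim]
    have hw2 : w ^ 2 = ((2 * w.re : ℝ) : ℂ) * w - ((Complex.normSq w : ℝ) : ℂ) := by
      apply Complex.ext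
      · simp [pow_two, Complex.normSq_apply]; ring
      · simp [pow_two]; ring
    have : ((2 : ℂ) + Complex.I) ^ (N + 1) * w ^ (j + 2)
        = ((2 * w.re : ℝ) : ℂ) * (((2 : ℂ) + Complex.I) ^ (N + 1) * w ^ (j + 1))
          - ((Complex.normSq w : ℝ) : ℂ) * (((2 : ℂ) + Complex.I) ^ (N + 1) * w ^ j) := by
      rw [pow_add w j 2, hw2, pow_succ w j]
      ring
    rw [this, Complex.sub_im, Complex.im_ofReal_mul, Complex.im_ofReal_mul]
  have hdisc : (2 * w.re) ^ 2 < 4 * Complex.normSq w := by
    rw [Complex.normSq_apply]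
    have : 0 < w.im ^ 2 := by positivity
    nlinarith
  have hsame : ∀ j, (0 < D (N + 1) ↔ 0 < D (N + 1 + j * m)) := by
    intro j
    induction j with
    | zero => simp
    | succ j ih =>
      rw [ih, h (N + 1 + j * m) (by omega)]
      rw [show N + 1 + j * m + m = N + 1 + (j + 1) * m by ring]
  rcases lt_or_ge 0 (D (N + 1)) with hpos | hneg
  · refine no_pos _ _ hdisc x (fun j => ?_) hrec
    simp only [hx]
    exact_mod_cast (hsame j).1 hpos
  · refine no_pos _ _ hdisc (fun j => - x j) (fun j => ?_) (fun j => ?_)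
    · simp only [hx]
      have h1 : ¬ 0 < D (N + 1 + j * m) := fun h => absurd ((hsame j).2 h) (not_lt.mpr hneg)
      have h2 : D (N + 1 + j * m) ≠ 0 := by
        have := hDne (N + j * m)
        rwa [show N + j * m + 1 = N + 1 + j * m by ring] at this
      have h3 : D (N + 1 + j * m) < 0 := lt_of_le_of_ne (not_lt.mp h1) h2
      have h4 : ((D (N + 1 + j * m) : ℤ) : ℝ) < 0 := by exact_mod_cast h3
      linarith
    · beta_reduce
      rw [hrec j]
      ring

/-- The minimal row sum. -/
def u (k : ℕ) : ℕ := min (r k 0) (r k 1)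

/-- the sequence `u` satisfies no linear recursion with integer coefficients -/
theorem u_no_rec (d : ℕ) (a : Fin d → ℤ) (K : ℕ)
    (h : ∀ k : ℕ, K ≤ k → ((u (k + d) : ℕ) : ℤ) = ∑ i : Fin d, a i * ((u (k + (i : ℕ)) : ℕ) : ℤ)) :
    False := by
  -- the state
  let S : ℕ → (Fin d → ZMod 5) × (Fin 3 → ZMod 5) := fun k =>
    (fun i => ((u (K + k + (i : ℕ)) : ℕ) : ZMod 5), fun i => ((r (K + k) i : ℕ) : ZMod 5))
  obtain ⟨k1, k2, hne, heq⟩ := Finite.exists_ne_map_eq_of_infinite S
  -- wlog k1 < k2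
  have main : ∀ k1 k2 : ℕ, k1 < k2 → S k1 = S k2 → False := by
    clear hne heq k1 k2
    intro k1 k2 hlt heq
    have hS : ∀ j, S (k1 + j) = S (k2 + j) := by
      intro j
      induction j with
      | zero => exact heq
      | succ j ih =>
        have ih1 : ∀ i : Fin d, ((u (K + (k1 + j) + (i : ℕ)) : ℕ) : ZMod 5)
            = ((u (K + (k2 + j) + (i : ℕ)) : ℕ) : ZMod 5) := fun i => congrFun (congrArg Prod.fst ih) i
        have ih2 : ∀ i : Fin 3, ((r (K + (k1 + j)) i : ℕ) : ZMod 5)
            = ((r (K + (k2 + j)) i : ℕ) : ZMod 5) := fun i => congrFun (congrArg Prod.snd ih) i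
        refine Prod.ext ?_ ?_
        · funext i
          show ((u (K + (k1 + (j + 1)) + (i : ℕ)) : ℕ) : ZMod 5)
            = ((u (K + (k2 + (j + 1)) + (i : ℕ)) : ℕ) : ZMod 5)
          by_cases hi : (i : ℕ) + 1 < d
          · have := ih1 ⟨(i : ℕ) + 1, hi⟩
            simp only at this
            rw [show K + (k1 + (j + 1)) + (i : ℕ) = K + (k1 + j) + ((i : ℕ) + 1) by ring,
              show K + (k2 + (j + 1)) + (i : ℕ) = K + (k2 + j) + ((i : ℕ) + 1) by ring]
            exact this
          · have hi2 : (i : ℕ) + 1 = d := by have := i.2; omega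
            rw [show K + (k1 + (j + 1)) + (i : ℕ) = (K + (k1 + j)) + d by omega,
              show K + (k2 + (j + 1)) + (i : ℕ) = (K + (k2 + j)) + d by omega]
            have e1 := h (K + (k1 + j)) (by omega)
            have e2 := h (K + (k2 + j)) (by omega)
            have e1' := congrArg (fun z : ℤ => (z : ZMod 5)) e1
            have e2' := congrArg (fun z : ℤ => (z : ZMod 5)) e2
            push_cast at e1' e2'
            rw [e1', e2']
            exact Finset.sum_congr rfl fun i _ => by rw [ih1 i]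
        · funext i
          show ((r (K + (k1 + (j + 1))) i : ℕ) : ZMod 5) = ((r (K + (k2 + (j + 1))) i : ℕ) : ZMod 5)
          rw [show K + (k1 + (j + 1)) = (K + (k1 + j)) + 1 by ring,
            show K + (k2 + (j + 1)) = (K + (k2 + j)) + 1 by ring]
          fin_cases i
          · simp only [Fin.zero_eta, r_succ_0]
            push_cast
            rw [ih2 0, ih2 2]
          · simp only [Fin.mk_one, r_succ_1]
            push_cast
            rw [ih2 0, ih2 1]
          · show ((r ((K + (k1 + j)) + 1) 2 : ℕ) : ZMod 5) = ((r ((K + (k2 + j)) + 1) 2 : ℕ) : ZMod 5)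
            rw [r_succ_2, r_succ_2]
            push_cast
            rw [ih2 1, ih2 2]
    -- eventual periodicity
    have hu : ∀ n, K + k1 + d ≤ n →
        ((u n : ℕ) : ZMod 5) = ((u (n + (k2 - k1)) : ℕ) : ZMod 5) := by
      intro n hn
      obtain ⟨j, rfl⟩ := Nat.exists_eq_add_of_le hn
      have e1 := h (K + (k1 + j)) (by omega)
      have e2 := h (K + (k2 + j)) (by omega)
      have e1' := congrArg (fun z : ℤ => (z : ZMod 5)) e1
      have e2' := congrArg (fun z : ℤ => (z : ZMod 5)) e2
      push_cast at e1' e2'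
      rw [show K + k1 + d + j = K + (k1 + j) + d by ring,
        show K + (k1 + j) + d + (k2 - k1) = K + (k2 + j) + d by omega, e1', e2']
      refine Finset.sum_congr rfl fun i _ => ?_
      have := congrFun (congrArg Prod.fst (hS j)) i
      simp only [S] at this
      rw [this]
    have hr : ∀ n, K + k1 ≤ n → ∀ i,
        ((r n i : ℕ) : ZMod 5) = ((r (n + (k2 - k1)) i : ℕ) : ZMod 5) := by
      intro n hn i
      obtain ⟨j, rfl⟩ := Nat.exists_eq_add_of_le hn
      have := congrFun (congrArg Prod.snd (hS j)) i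
      simp only [S] at this
      rw [show K + k1 + j = K + (k1 + j) by ring,
        show K + (k1 + j) + (k2 - k1) = K + (k2 + j) by omega]
      exact this
    have hne5 : ∀ n, 1 ≤ n → ((r n 0 : ℕ) : ZMod 5) ≠ ((r n 1 : ℕ) : ZMod 5) := by
      intro n hn h0
      obtain ⟨n', rfl⟩ : ∃ n', n = n' + 1 := ⟨n - 1, by omega⟩
      apply D_mod n'
      unfold D
      push_cast
      rw [h0, sub_self]
    refine sign_not_periodic (K + k1 + d + 1) (k2 - k1) (by omega) ?_
    intro n hn
    have e1 := hu n (by omega)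
    have e2 := hr n (by omega) 0
    have e3 := hr n (by omega) 1
    have e4 := hne5 n (by omega)
    constructor
    · intro hD
      by_contra hcon
      have h1 : u n = r n 0 := by unfold u; unfold D at hD; omega
      have h2 : u (n + (k2 - k1)) = r (n + (k2 - k1)) 1 := by
        unfold u; unfold D at hcon; omega
      rw [h1, h2, ← e3] at e1
      exact e4 e1
    · intro hD
      by_contra hcon
      have h1 : u n = r n 1 := by unfold u; unfold D at hcon; omega
      have h2 : u (n + (k2 - k1)) = r (n + (k2 - k1)) 0 := by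
        unfold u; unfold D at hD; omega
      rw [h1, h2, ← e2] at e1
      exact e4 e1.symm
  rcases lt_or_gt_of_ne hne with h1 | h1
  · exact main k1 k2 h1 heq
  · exact main k2 k1 h1 heq.symm

end Pool.Agent.H803R2.Ord
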