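import Mathlib
import Pool.Agent.H803R2.OrdArith

set_option autoImplicit false

/-!
The order at `0` of a monomial map.
-/

namespace Pool.Agent.H803R2.Ord

open Finset

/-- `g` is smooth and vanishes to order `≥ r` at `0` -/
structure Van (g : (Fin 3 → ℂ) → ℂ) (r : ℕ) : Prop where
  smooth : ContDiff ℂ ⊤ g
  van : ∀ m < r, iteratedFDeriv ℂ m g 0 = 0

theorem van_one : Van (fun _ => 1) 0 := ⟨contDiff_const, fun m hm => absurd hm (Nat.not_lt_zero m)⟩

theorem Van.mul_coord {g : (Fin 3 → ℂ) → ℂ} {r : ℕ} (h : Van g r) (j : Fin 3) :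
    Van (fun z => z j * g z) (r + 1) := by
  have hc : ContDiff ℂ ⊤ (fun z : Fin 3 → ℂ => z j) := contDiff_apply ℂ ℂ j
  refine ⟨hc.mul h.smooth, fun m hm => ?_⟩
  rw [← norm_eq_zero]
  refine le_antisymm ?_ (norm_nonneg _)
  refine (norm_iteratedFDeriv_mul_le hc h.smooth 0 (n := m) (by exact_mod_cast le_top)).trans ?_
  refine (Finset.sum_nonpos fun i hi => ?_)
  by_cases hi0 : i = 0
  · subst hi0
    have : ‖iteratedFDeriv ℂ 0 (fun z : Fin 3 → ℂ => z j) 0‖ = 0 := by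
      rw [norm_iteratedFDeriv_zero]; simp
    rw [this]; simp
  · have hi' := Finset.mem_range.mp hi
    have h1 : iteratedFDeriv ℂ (m - i) g 0 = 0 := h.van _ (by omega)
    rw [h1]; simp

theorem Van.mul_coord_pow {g : (Fin 3 → ℂ) → ℂ} {r : ℕ} (h : Van g r) (j : Fin 3) (e : ℕ) :
    Van (fun z => z j ^ e * g z) (r + e) := by
  induction e with
  | zero => simpa using h
  | succ e ih =>
    have := ih.mul_coord j
    refine ⟨?_, fun m hm => ?_⟩
    · convert this.smooth using 1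
      funext z; ring
    · have h2 := this.van m (by omega)
      convert h2 using 2
      funext z; ring

/-- a monomial -/
def mono (e : Fin 3 → ℕ) (z : Fin 3 → ℂ) : ℂ := z 0 ^ e 0 * (z 1 ^ e 1 * (z 2 ^ e 2 * 1))

theorem van_mono (e : Fin 3 → ℕ) : Van (mono e) (e 0 + e 1 + e 2) := by
  have := ((van_one.mul_coord_pow 2 (e 2)).mul_coord_pow 1 (e 1)).mul_coord_pow 0 (e 0)
  refine ⟨this.smooth, fun m hm => this.van m (by omega)⟩

/-- a monomial map -/
def mmap (M : Fin 3 → Fin 3 → ℕ) (z : Fin 3 → ℂ) : Fin 3 → ℂ := fun i => mono (M i) z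

theorem mmap_smooth (M : Fin 3 → Fin 3 → ℕ) : ContDiff ℂ ⊤ (mmap M) :=
  contDiff_pi.2 fun i => (van_mono (M i)).smooth

theorem mmap_van (M : Fin 3 → Fin 3 → ℕ) (u : ℕ) (hu : ∀ i, u ≤ M i 0 + M i 1 + M i 2) (m : ℕ)
    (hm : m < u) : iteratedFDeriv ℂ m (mmap M) 0 = 0 := by
  ext v i
  have h1 := ContinuousLinearMap.iteratedFDeriv_comp_left (𝕜 := ℂ)
    (ContinuousLinearMap.proj (R := ℂ) (φ := fun _ : Fin 3 => ℂ) i)
    (f := mmap M) (x := 0) (n := ⊤) (mmap_smooth M).contDiffAt (i := m) (by exact_mod_cast le_top)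
  have h2 : iteratedFDeriv ℂ m (⇑(ContinuousLinearMap.proj (R := ℂ) (φ := fun _ : Fin 3 => ℂ) i)
      ∘ mmap M) 0 = 0 := (van_mono (M i)).van m (by have := hu i; omega)
  rw [h2] at h1
  have h3 := congrArg (fun L => L v) h1
  simpa using h3.symm

theorem mmap_ne (M : Fin 3 → Fin 3 → ℕ) (i : Fin 3) :
    iteratedFDeriv ℂ (M i 0 + M i 1 + M i 2) (mmap M) 0 ≠ 0 := by
  intro h0
  set u := M i 0 + M i 1 + M i 2 with hu
  have h1 := ContinuousLinearMap.iteratedFDeriv_comp_left (𝕜 := ℂ)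
    (ContinuousLinearMap.proj (R := ℂ) (φ := fun _ : Fin 3 => ℂ) i)
    (f := mmap M) (x := 0) (n := ⊤) (mmap_smooth M).contDiffAt (i := u) (by exact_mod_cast le_top)
  rw [h0] at h1
  let ℓ : ℂ →L[ℂ] (Fin 3 → ℂ) := ContinuousLinearMap.toSpanSingleton ℂ (fun _ => 1)
  have h2 := ContinuousLinearMap.iteratedFDeriv_comp_right (𝕜 := ℂ) ℓ
    (f := ⇑(ContinuousLinearMap.proj (R := ℂ) (φ := fun _ : Fin 3 => ℂ) i) ∘ mmap M) (n := ⊤)
    ((ContinuousLinearMap.contDiff _).comp (mmap_smooth M)) (0 : ℂ) (i := u)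
    (by exact_mod_cast le_top)
  rw [map_zero, h1] at h2
  have h3 : (⇑(ContinuousLinearMap.proj (R := ℂ) (φ := fun _ : Fin 3 => ℂ) i) ∘ mmap M) ∘ ⇑ℓ
      = fun t : ℂ => t ^ u := by
    funext t
    simp only [Function.comp, mmap, mono, ContinuousLinearMap.proj_apply, ℓ,
      ContinuousLinearMap.toSpanSingleton_apply, Pi.smul_apply, smul_eq_mul, mul_one, hu, pow_add]
    ring
  rw [h3] at h2
  have h4 : iteratedDeriv u (fun t : ℂ => t ^ u) 0 = 0 := by
    rw [iteratedDeriv_eq_iteratedFDeriv, h2]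
    simp
  rw [iteratedDeriv_fun_pow_zero, if_pos rfl] at h4
  exact Nat.factorial_ne_zero _ (by exact_mod_cast h4)

theorem order_mmap (M : Fin 3 → Fin 3 → ℕ) (u : ℕ) (hu : ∀ i, u ≤ M i 0 + M i 1 + M i 2)
    (i : Fin 3) (hi : u = M i 0 + M i 1 + M i 2) :
    sInf {m : ℕ | iteratedFDeriv ℂ m (mmap M) 0 ≠ 0} = u := by
  have h1 : u ∈ {m : ℕ | iteratedFDeriv ℂ m (mmap M) 0 ≠ 0} := by
    rw [hi]; exact mmap_ne M i
  refine le_antisymm (Nat.sInf_le h1) ?_
  by_contra hlt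
  have h2 := Nat.sInf_mem (s := {m : ℕ | iteratedFDeriv ℂ m (mmap M) 0 ≠ 0}) ⟨u, h1⟩
  exact h2 (mmap_van M u hu _ (not_le.mp hlt))

/-- the matrices `A ^ k` -/
def Mk : ℕ → Fin 3 → Fin 3 → ℕ
  | 0 => fun i j => if i = j then 1 else 0
  | k + 1 => ![fun j => 2 * Mk k 0 j + Mk k 2 j, fun j => Mk k 0 j + 3 * Mk k 1 j,
      fun j => 2 * Mk k 1 j + 3 * Mk k 2 j]

/-- the germ `f (z₀, z₁, z₂) = (z₀² z₂, z₀ z₁³, z₁² z₂³)` -/
def f (z : Fin 3 → ℂ) : Fin 3 → ℂ := ![z 0 ^ 2 * z 2, z 0 * z 1 ^ 3, z 1 ^ 2 * z 2 ^ 3]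

theorem f_iter (k : ℕ) : f^[k] = mmap (Mk k) := by
  induction k with
  | zero =>
    funext z i
    fin_cases i <;> simp [mmap, mono, Mk]
  | succ k ih =>
    funext z i
    rw [Function.iterate_succ_apply', ih]
    fin_cases i
    · simp [f, mmap, mono, Mk, pow_add, pow_mul]; ring
    · simp [f, mmap, mono, Mk, pow_add, pow_mul]; ring
    · simp [f, mmap, mono, Mk, pow_add, pow_mul]; ring

theorem Mk_sum (k : ℕ) (i : Fin 3) : Mk k i 0 + Mk k i 1 + Mk k i 2 = r k i := by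
  induction k generalizing i with
  | zero => fin_cases i <;> simp [Mk, r]
  | succ k ih =>
    have h0 := ih 0
    have h1 := ih 1
    have h2 := ih 2
    fin_cases i
    · simp only [Fin.zero_eta, r_succ_0, ← h0, ← h2]
      simp [Mk]; ring
    · simp only [Fin.mk_one, r_succ_1, ← h0, ← h1]
      simp [Mk]; ring
    · show Mk (k + 1) 2 0 + Mk (k + 1) 2 1 + Mk (k + 1) 2 2 = r (k + 1) 2
      rw [r_succ_2, ← h1, ← h2]
      simp [Mk]; ring

theorem order_iter (k : ℕ) : sInf {m : ℕ | iteratedFDeriv ℂ m (f^[k]) 0 ≠ 0} = u k := by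
  rw [f_iter]
  rcases le_total (r k 0) (r k 1) with h | h
  · refine order_mmap _ _ (fun i => ?_) 0 ?_
    · rw [Mk_sum]
      have := r_le k
      unfold u
      fin_cases i
      · exact min_le_left _ _
      · exact min_le_right _ _
      · exact (min_le_left _ _).trans this
    · rw [Mk_sum]; exact min_eq_left h
  · refine order_mmap _ _ (fun i => ?_) 1 ?_
    · rw [Mk_sum]
      have := r_le k
      unfold u
      fin_cases i
      · exact min_le_left _ _
      · exact min_le_right _ _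
      · exact (min_le_left _ _).trans this
    · rw [Mk_sum]; exact min_eq_right h

theorem f_smooth : ContDiff ℂ ⊤ f := by
  have := mmap_smooth (Mk 1)
  rwa [← f_iter, Function.iterate_one] at this

theorem f_analytic : AnalyticAt ℂ f 0 := by
  have h : ∀ j : Fin 3, AnalyticAt ℂ (fun z : Fin 3 → ℂ => z j) 0 := fun j =>
    (ContinuousLinearMap.proj (R := ℂ) (φ := fun _ : Fin 3 => ℂ) j).analyticAt 0
  apply AnalyticAt.pi
  intro i
  fin_cases i
  · exact ((h 0).pow 2).mul (h 2)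
  · exact (h 0).mul ((h 1).pow 3)
  · exact ((h 1).pow 2).mul ((h 2).pow 3)

theorem f_zero : f 0 = 0 := by
  funext i; fin_cases i <;> simp [f]

theorem f_deriv_zero : fderiv ℂ f 0 = 0 := by
  have h := mmap_van (Mk 1) (u 1) (fun i => by
    rw [Mk_sum]
    fin_cases i <;> simp [u, r]) 1 (by simp [u, r])
  rw [← f_iter, Function.iterate_one] at h
  ext v i
  have := congrArg (fun L => L (fun _ => v)) h
  simp only [iteratedFDeriv_one_apply] at this
  rw [this]
  simp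

theorem f_det_zero : (fderiv ℂ f 0).det = 0 := by
  rw [f_deriv_zero]
  show LinearMap.det ((0 : (Fin 3 → ℂ) →L[ℂ] (Fin 3 → ℂ)) : (Fin 3 → ℂ) →ₗ[ℂ] (Fin 3 → ℂ)) = 0
  rw [ContinuousLinearMap.toLinearMap_zero, LinearMap.det_zero]
  simp

theorem f_dominant (ε : ℝ) (hε : 0 < ε) :
    ∃ z : Fin 3 → ℂ, ‖z‖ < ε ∧ (fderiv ℂ f z).det ≠ 0 := by
  obtain ⟨t, ht0, ht⟩ : ∃ t : ℝ, 0 < t ∧ t < ε := ⟨ε / 2, by linarith, by linarith⟩
  refine ⟨fun _ => (t : ℂ), ?_, ?_⟩
  · rw [pi_norm_lt_iff hε]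
    intro i
    simp [abs_of_pos ht0, ht]
  · intro hdet
    obtain ⟨v, hv, hv0⟩ := Submodule.exists_mem_ne_zero_of_ne_bot
      (LinearMap.bot_lt_ker_of_det_eq_zero
      (f := ((fderiv ℂ f fun _ => (t : ℂ)) : (Fin 3 → ℂ) →ₗ[ℂ] (Fin 3 → ℂ))) hdet).ne'
    rw [LinearMap.mem_ker] at hv
    have hd : HasFDerivAt f (fderiv ℂ f fun _ => (t : ℂ)) (fun _ => (t : ℂ)) :=
      ((f_smooth.differentiable (by simp)) _).hasFDerivAt
    have hv' : (fderiv ℂ f fun _ => (t : ℂ)) v = 0 := hv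
    have hcomp : ∀ i : Fin 3, HasDerivAt (fun s : ℂ => f (fun j => (t : ℂ) + s * v j) i) 0 0 := by
      intro i
      have hline : HasDerivAt (fun s : ℂ => (fun j => (t : ℂ) + s * v j)) v 0 := by
        rw [hasDerivAt_pi]
        intro j
        simpa using ((hasDerivAt_id (0 : ℂ)).mul_const (v j)).const_add (t : ℂ)
      have hd' : HasFDerivAt f (fderiv ℂ f fun _ => (t : ℂ)) ((fun s : ℂ => (fun j => (t : ℂ) + s * v j)) 0) := by
        simpa using hd
      have := hd'.comp_hasDerivAt (0 : ℂ) hline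
      rw [hv'] at this
      rw [hasDerivAt_pi] at this
      exact this i
    have hl : ∀ j : Fin 3, HasDerivAt (fun s : ℂ => (t : ℂ) + s * v j) (v j) 0 := fun j => by
      simpa using ((hasDerivAt_id (0 : ℂ)).mul_const (v j)).const_add (t : ℂ)
    have e0 := (hcomp 0).unique (((hl 0).pow 2).mul (hl 2))
    have e1 := (hcomp 1).unique ((hl 0).mul ((hl 1).pow 3))
    have e2 := (hcomp 2).unique (((hl 1).pow 2).mul ((hl 2).pow 3))
    have htc : (t : ℂ) ≠ 0 := by exact_mod_cast ht0.ne'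
    simp at e0 e1 e2
    have a0 : 2 * v 0 + v 2 = 0 := by
      have : (t : ℂ) ^ 2 * (2 * v 0 + v 2) = 0 := by rw [e0]; ring
      exact (mul_eq_zero.mp this).resolve_left (pow_ne_zero _ htc)
    have a1 : v 0 + 3 * v 1 = 0 := by
      have : (t : ℂ) ^ 3 * (v 0 + 3 * v 1) = 0 := by rw [e1]; ring
      exact (mul_eq_zero.mp this).resolve_left (pow_ne_zero _ htc)
    have a2 : 2 * v 1 + 3 * v 2 = 0 := by
      have : (t : ℂ) ^ 4 * (2 * v 1 + 3 * v 2) = 0 := by rw [e2]; ring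
      exact (mul_eq_zero.mp this).resolve_left (pow_ne_zero _ htc)
    have b0 : v 0 = 0 := by linear_combination (9 / 20) * a0 + (1 / 10) * a1 - (3 / 20) * a2
    have b1 : v 1 = 0 := by linear_combination (1 / 3) * a1 - (1 / 3) * b0
    have b2 : v 2 = 0 := by linear_combination a0 - 2 * b0
    apply hv0
    funext j
    fin_cases j
    · exact b0
    · exact b1
    · exact b2

end Pool.Agent.H803R2.Ord
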