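import Pool.Agent.H803R2.T3Words

set_option autoImplicit false

/-!
The Green function of the weighted adjacency operator on the `3`-regular tree off the spectrum.
-/

namespace Pool.Agent.H803R2.T3

/-- Kronecker delta. -/
noncomputable def dl (a w : W) : ℝ := if w = a then 1 else 0

theorem dl_self (a : W) : dl a a = 1 := by simp [dl]
theorem dl_ne {a w : W} (h : w ≠ a) : dl a w = 0 := by simp [dl, h]

/-- The operator `λ - H`. -/
noncomputable def Lop (lam : ℝ) (f : W → ℝ) (w : W) : ℝ :=
  lam * f w - ∑ s : Fin 3, wt s * f (R s w)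

/-- Square summability. -/
def Sq (f : W → ℝ) : Prop := Summable fun w => f w ^ 2

theorem Sq.add {f g : W → ℝ} (hf : Sq f) (hg : Sq g) : Sq fun w => f w + g w := by
  refine Summable.of_nonneg_of_le (fun w => sq_nonneg _) (fun w => ?_)
    ((hf.mul_left 2).add (hg.mul_left 2))
  nlinarith [sq_nonneg (f w - g w)]

theorem Sq.smul {f : W → ℝ} (hf : Sq f) (c : ℝ) : Sq fun w => c * f w := by
  have := hf.mul_left (c ^ 2)
  refine this.congr fun w => ?_
  ring

theorem Sq.comp {f : W → ℝ} (hf : Sq f) (e : W ≃ W) : Sq fun w => f (e w) :=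
  (e.summable_iff (f := fun w => f w ^ 2)).mpr hf

theorem Sq.indicator {f : W → ℝ} (hf : Sq f) (T : Set W) [DecidablePred (· ∈ T)] :
    Sq fun w => if w ∈ T then f w else 0 := by
  refine Summable.of_nonneg_of_le (fun w => sq_nonneg _) (fun w => ?_) hf
  beta_reduce
  split_ifs
  · exact le_rfl
  · simpa using sq_nonneg (f w)

theorem Lop_shift {lam : ℝ} (f : W → ℝ) (s : Fin 3) (w : W) :
    Lop lam (fun w => f (Lm s w)) w = Lop lam f (Lm s w) := by
  unfold Lop
  simp only [Lm_R]

theorem Lop_add {lam : ℝ} (f g : W → ℝ) (a b : ℝ) (w : W) :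
    Lop lam (fun w => a * f w + b * g w) w = a * Lop lam f w + b * Lop lam g w := by
  unfold Lop
  simp only [mul_add, Finset.sum_add_distrib, mul_sub, Finset.mul_sum]
  have h1 : ∀ s : Fin 3, wt s * (a * f (R s w)) = a * (wt s * f (R s w)) := fun s => by ring
  have h2 : ∀ s : Fin 3, wt s * (b * g (R s w)) = b * (wt s * g (R s w)) := fun s => by ring
  simp only [h1, h2]
  ring

/-- The data: Green function and uniqueness. -/
structure Green (lam : ℝ) (f : W → ℝ) : Prop where
  sq : Sq f
  eq : ∀ w, Lop lam f w = dl e w
  uniq : ∀ (g : W → ℝ), Sq g → (∀ w, Lop lam g w = 0) → ∀ w, g w = 0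

/-- Mass of a set. -/
noncomputable def mass (h : W → ℝ) (T : Set W)
    [DecidablePred (· ∈ T)] : ℝ := ∑' w, if w ∈ T then h w ^ 2 else 0

theorem summable_mass {h : W → ℝ} (hh : Sq h) (T : Set W) [DecidablePred (· ∈ T)] :
    Summable fun w => if w ∈ T then h w ^ 2 else 0 := by
  refine Summable.of_nonneg_of_le (fun w => ?_) (fun w => ?_) hh
  · split_ifs
    · exact sq_nonneg _
    · exact le_rfl
  · split_ifs
    · exact le_rfl
    · exact sq_nonneg _

theorem mass_nonneg (h : W → ℝ) (T : Set W) [DecidablePred (· ∈ T)] : 0 ≤ mass h T := by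
  refine tsum_nonneg fun w => ?_
  split_ifs
  · exact sq_nonneg _
  · exact le_rfl

theorem mass_compl {h : W → ℝ} (hh : Sq h) (T : Set W) [DecidablePred (· ∈ T)] :
    (∑' w, if w ∈ T then 0 else h w ^ 2) = ∑' w, h w ^ 2 - mass h T := by
  unfold mass
  rw [← hh.tsum_sub (summable_mass hh T)]
  refine tsum_congr fun w => ?_
  split_ifs <;> ring

/-- the total mass is the mass at `e` plus the masses of the branches -/
theorem mass_total {h : W → ℝ} (hh : Sq h) :
    ∑' w, h w ^ 2 = h e ^ 2 + ∑ s : Fin 3, mass h (St s) := by
  have h1 : ∀ w, h w ^ 2 = (if w = e then h e ^ 2 else 0)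
      + ∑ s : Fin 3, (if w ∈ St s then h w ^ 2 else 0) := by
    intro w
    by_cases hw : w = e
    · subst hw
      simp [e_notMem]
    · rw [if_neg hw, zero_add]
      obtain ⟨s, hs⟩ := exists_St hw
      rw [Finset.sum_eq_single s]
      · rw [if_pos hs]
      · intro t _ hts
        rw [if_neg]
        intro ht
        exact hts (St_unique ht hs)
      · intro h; exact absurd (Finset.mem_univ s) h
  have h2 : Summable fun w => if w = e then h e ^ 2 else 0 :=
    summable_of_ne_finset_zero (s := {e}) (fun b hb => by
      rw [if_neg]; simpa using hb)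
  rw [tsum_congr h1, Summable.tsum_add h2 (summable_sum fun s _ => summable_mass hh (St s)),
    Summable.tsum_finsetSum fun s _ => summable_mass hh (St s)]
  rw [tsum_ite_eq]
  rfl

namespace Green

variable {lam : ℝ} {f : W → ℝ} (G : Green lam f)
include G

/-- `Lop` of the restriction of the Green function to a branch. -/
theorem Lop_branch (s : Fin 3) (w : W) :
    Lop lam (fun w => if w ∈ St s then f w else 0) w
      = (wt s * f e) * dl (sg s) w - (wt s * f (sg s)) * dl e w := by
  have key : Lop lam (fun w => if w ∈ St s then f w else 0) w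
      = (if w ∈ St s then dl e w else 0) + ∑ t : Fin 3, ((if w ∈ St s then 1 else 0)
        - (if R t w ∈ St s then (1 : ℝ) else 0)) * (wt t * f (R t w)) := by
    have h1 := G.eq w
    unfold Lop at h1 ⊢
    by_cases hw : w ∈ St s
    · simp only [hw, if_true]
      rw [← h1]
      simp only [sub_mul, one_mul, Finset.sum_sub_distrib]
      simp only [ite_mul, one_mul, zero_mul, mul_ite, mul_zero]
      ring
    · simp only [hw, if_false]
      simp only [zero_sub, neg_mul, ite_mul, one_mul, zero_mul, Finset.sum_neg_distrib, mul_ite,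
        mul_zero]
      ring
  rw [key]
  by_cases hw1 : w = e
  · subst hw1
    rw [if_neg (e_notMem s), dl_self, dl_ne (show e ≠ sg s from fun h => by
      have := congrArg Subtype.val h; simp [e, sg] at this)]
    rw [Finset.sum_eq_single s]
    · simp [e_notMem, sg_mem, R_e]
    · intro t _ ht
      simp [e_notMem, sg_mem, R_e, ht]
    · intro h; exact absurd (Finset.mem_univ s) h
  · rw [dl_ne hw1]
    by_cases hw2 : w = sg s
    · subst hw2
      rw [dl_self]
      rw [Finset.sum_eq_single s]
      · have h3 : R s (sg s) = e := by rw [← R_e, R_R]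
        rw [h3]
        simp [e_notMem, sg_mem]
      · intro t _ ht
        have h3 : R t (sg s) ∈ St s := by
          by_contra hcon
          exact ht (boundary (sg_mem.mpr rfl) hcon).2
        rw [if_pos (sg_mem.mpr rfl), if_pos h3]; ring
      · intro h; exact absurd (Finset.mem_univ s) h
    · rw [dl_ne hw2]
      rw [Finset.sum_eq_zero]
      · simp
      · intro t _
        by_cases hw : w ∈ St s
        · by_cases hwy : R t w ∈ St s
          · rw [if_pos hw, if_pos hwy]; ring
          · exact absurd (boundary hw hwy).1 hw2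
        · by_cases hwy : R t w ∈ St s
          · exact absurd (boundary' hw hwy).1 hw1
          · rw [if_neg hw, if_neg hwy]; ring

theorem Lop_Lm (s : Fin 3) (w : W) : Lop lam (fun w => f (Lm s w)) w = dl (sg s) w := by
  rw [Lop_shift, G.eq]
  by_cases hw : w = sg s
  · subst hw; rw [Lm_sg, dl_self, dl_self]
  · rw [dl_ne hw, dl_ne]
    intro hh
    apply hw
    rw [← Lm_Lm s w, hh, Lm_e]

/-- The splitting identity. -/
theorem split (s : Fin 3) (w : W) :
    (if w ∈ St s then f w else 0)
      = (wt s * f e) * f (Lm s w) - (wt s * f (sg s)) * f w := by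
  have hsh : Sq fun w => f (Lm s w) := G.sq.comp (LE s)
  have h := G.uniq (fun w => 1 * (if w ∈ St s then f w else 0) +
      1 * ((-(wt s * f e)) * f (Lm s w) + (wt s * f (sg s)) * f w))
    (((G.sq.indicator (St s)).smul 1).add
      (((hsh.smul _).add (G.sq.smul _)).smul 1)) (fun w => by
      rw [Lop_add (fun w => if w ∈ St s then f w else 0)
        (fun w => (-(wt s * f e)) * f (Lm s w) + (wt s * f (sg s)) * f w),
        Lop_add (fun w => f (Lm s w)) f, G.Lop_branch, G.Lop_Lm, G.eq]
      ring) w
  linarith

/-- the coefficient `c_s = a_s f(s)` -/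
theorem c_eq (s : Fin 3) : (wt s * f (sg s)) * (1 + wt s * f (sg s)) = (wt s * f e) ^ 2 := by
  have h := G.split s (sg s)
  rw [if_pos (sg_mem.mpr rfl), Lm_sg] at h
  have h2 : wt s * f (sg s) = wt s * ((wt s * f e) * f e - (wt s * f (sg s)) * f (sg s)) := by
    rw [← h]
  linear_combination h2

theorem eq_e : lam * f e = 1 + ∑ s : Fin 3, wt s * f (sg s) := by
  have h := G.eq e
  unfold Lop at h
  rw [dl_self] at h
  simp only [R_e] at h
  linarith

/-- Mass relation on the branch. -/
theorem mass_in (s : Fin 3) :
    (1 + wt s * f (sg s)) ^ 2 * mass f (St s)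
      = (wt s * f e) ^ 2 * (∑' w, f w ^ 2 - mass f (St s)) := by
  rw [← mass_compl G.sq, mass, ← tsum_mul_left, ← tsum_mul_left, ← (LE s).tsum_eq
    (fun w => (wt s * f e) ^ 2 * (if w ∈ St s then 0 else f w ^ 2))]
  refine tsum_congr fun w => ?_
  have h1 : (LE s) w = Lm s w := rfl
  rw [h1]
  have h2 : Lm s w ∈ St s ↔ w ∉ St s := Lm_mem
  have h3 := G.split s w
  by_cases hw : w ∈ St s
  · have h4 : Lm s w ∉ St s := by rw [h2]; simpa using hw
    rw [if_pos hw, if_neg h4, ← mul_pow, ← mul_pow]
    rw [if_pos hw] at h3
    congr 1; linarith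
  · have h4 : Lm s w ∈ St s := h2.mpr hw
    rw [if_neg hw, if_pos h4]; ring

/-- The total mass is positive. -/
theorem total_pos : 0 < ∑' w, f w ^ 2 := by
  by_contra hcon
  have h1 : ∀ w, f w = 0 := by
    intro w
    have h2 : f w ^ 2 ≤ ∑' w, f w ^ 2 := G.sq.le_tsum w fun w _ => sq_nonneg _
    have h3 : f w ^ 2 ≤ 0 := h2.trans (not_lt.mp hcon)
    exact pow_eq_zero_iff (two_ne_zero) |>.mp (le_antisymm h3 (sq_nonneg _))
  have h2 := G.eq_e
  simp only [h1] at h2
  simp at h2

/-- the diagonal of the Green function does not vanish -/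
theorem g_ne : f e ≠ 0 := by
  intro hg
  -- each `c_s` is `0` or `-1`
  have hc : ∀ s, f (sg s) = 0 ∨ wt s * f (sg s) = -1 := by
    intro s
    have h := G.c_eq s
    rw [hg, mul_zero, zero_pow two_ne_zero] at h
    rcases mul_eq_zero.mp h with h | h
    · left; exact (mul_eq_zero.mp h).resolve_left (wt_pos s).ne'
    · right; linarith
  have hsum := G.eq_e
  rw [hg, mul_zero] at hsum
  -- some `c_s` is `-1`
  obtain ⟨s, hs⟩ : ∃ s, wt s * f (sg s) = -1 := by
    by_contra hcon
    push Not at hcon
    have : ∀ s, f (sg s) = 0 := fun s => (hc s).resolve_right (hcon s)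
    simp [this] at hsum
  -- off the branch `f` vanishes
  have hoff : ∀ w, w ∉ St s → f w = 0 := by
    intro w hw
    have h := G.split s w
    rw [if_neg hw, hg, mul_zero, zero_mul, hs] at h
    linarith
  obtain ⟨t, hts, hle⟩ := wt_other s
  have hft : ∀ r, r ≠ s → f (sg r) = 0 := fun r hr => hoff _ (by rw [sg_mem]; exact hr)
  -- the shifted function
  set h : W → ℝ := fun w => f (Lm s w) with hh
  have hSq : Sq h := G.sq.comp (LE s)
  have hon : ∀ w, w ∈ St s → h w = 0 := fun w hw => hoff _ (by rw [Lm_mem]; simpa using hw)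
  have he : h e = f (sg s) := by simp only [hh]; rw [Lm_e]
  have he' : wt s * h e = -1 := by rw [he]; exact hs
  -- on each other branch `h` is a multiple of a shift of `f`, up to a multiple of `f`
  have hbr : ∀ r, r ≠ s → ∀ w, (if w ∈ St r then h w else 0)
      = (wt r * h e) * f (Lm r w) - (wt r * h (sg r)) * f w := by
    intro r hr w
    have hL : ∀ w, Lop lam (fun w => if w ∈ St r then h w else 0) w
        = (wt r * h e) * dl (sg r) w - (wt r * h (sg r)) * dl e w := by
      intro w
      have key : Lop lam (fun w => if w ∈ St r then h w else 0) w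
          = (if w ∈ St r then dl (sg s) w else 0) + ∑ t : Fin 3, ((if w ∈ St r then 1 else 0)
            - (if R t w ∈ St r then (1 : ℝ) else 0)) * (wt t * h (R t w)) := by
        have h1 := G.Lop_Lm s w
        unfold Lop at h1 ⊢
        by_cases hw : w ∈ St r
        · simp only [hw, if_true]
          rw [← h1]
          simp only [sub_mul, one_mul, Finset.sum_sub_distrib]
          simp only [ite_mul, one_mul, zero_mul, mul_ite, mul_zero]
          simp only [hh]
          ring
        · simp only [hw, if_false]
          simp only [zero_sub, neg_mul, ite_mul, one_mul, zero_mul, Finset.sum_neg_distrib, mul_ite,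
            mul_zero]
          ring
      rw [key]
      have hz : (if w ∈ St r then dl (sg s) w else 0) = 0 := by
        split_ifs with hw
        · rw [dl_ne]
          rintro rfl
          exact hr (sg_mem.mp hw).symm
        · rfl
      rw [hz, zero_add]
      by_cases hw1 : w = e
      · subst hw1
        rw [dl_self, dl_ne (show e ≠ sg r from fun h => by
          have := congrArg Subtype.val h; simp [e, sg] at this)]
        rw [Finset.sum_eq_single r]
        · simp [e_notMem, sg_mem, R_e]
        · intro t _ ht
          simp [e_notMem, sg_mem, R_e, ht]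
        · intro h; exact absurd (Finset.mem_univ r) h
      · rw [dl_ne hw1]
        by_cases hw2 : w = sg r
        · subst hw2
          rw [dl_self]
          rw [Finset.sum_eq_single r]
          · have h3 : R r (sg r) = e := by rw [← R_e, R_R]
            rw [h3]
            simp [e_notMem, sg_mem]
          · intro t _ ht
            have h3 : R t (sg r) ∈ St r := by
              by_contra hcon
              exact ht (boundary (sg_mem.mpr rfl) hcon).2
            rw [if_pos (sg_mem.mpr rfl), if_pos h3]; ring
          · intro h; exact absurd (Finset.mem_univ r) h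
        · rw [dl_ne hw2]
          rw [Finset.sum_eq_zero]
          · simp
          · intro t _
            by_cases hw : w ∈ St r
            · by_cases hwy : R t w ∈ St r
              · rw [if_pos hw, if_pos hwy]; ring
              · exact absurd (boundary hw hwy).1 hw2
            · by_cases hwy : R t w ∈ St r
              · exact absurd (boundary' hw hwy).1 hw1
              · rw [if_neg hw, if_neg hwy]; ring
    have hsh : Sq fun w => f (Lm r w) := G.sq.comp (LE r)
    have h0 := G.uniq (fun w => 1 * (if w ∈ St r then h w else 0) +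
        1 * ((-(wt r * h e)) * f (Lm r w) + (wt r * h (sg r)) * f w))
      (((hSq.indicator (St r)).smul 1).add
        (((hsh.smul _).add (G.sq.smul _)).smul 1)) (fun w => by
        rw [Lop_add (fun w => if w ∈ St r then h w else 0)
          (fun w => (-(wt r * h e)) * f (Lm r w) + (wt r * h (sg r)) * f w),
          Lop_add (fun w => f (Lm r w)) f, hL, G.Lop_Lm, G.eq]
        ring) w
    linarith
  have hz : ∀ r, r ≠ s → h (sg r) = 0 := by
    intro r hr
    have h1 := hbr r hr (sg s)
    have h2 : sg s ∉ St r := by rw [sg_mem]; exact fun h => hr h.symm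
    rw [if_neg h2] at h1
    have h3 : f (Lm r (sg s)) = 0 := by
      apply hoff
      intro h4
      have h5 : Lm r (sg s) ∈ St r := Lm_mem.mpr h2
      exact hr (St_unique h5 h4)
    rw [h3, mul_zero, zero_sub] at h1
    have h4 : wt r * h (sg r) * f (sg s) = 0 := by linarith
    have h5 : f (sg s) ≠ 0 := by
      intro h6
      rw [h6, mul_zero] at hs
      linarith
    have h6 := (mul_eq_zero.mp h4).resolve_right h5
    exact (mul_eq_zero.mp h6).resolve_left (wt_pos r).ne'
  -- mass of `h` on the other branches
  have hm : mass h (St t) = (wt t * h e) ^ 2 * ∑' w, f w ^ 2 := by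
    have e1 : mass f (St t) = 0 := by
      have hz0 : (fun w => if w ∈ St t then f w ^ 2 else 0) = fun _ => (0 : ℝ) := by
        funext w
        split_ifs with hw
        · rw [hoff w (fun h1 => hts (St_unique hw h1))]; ring
        · rfl
      unfold mass
      rw [hz0, tsum_zero]
    have e2 := mass_compl G.sq (St t)
    rw [e1, sub_zero] at e2
    rw [← e2, mass, ← tsum_mul_left, ← (LE t).tsum_eq
      (fun w => (wt t * h e) ^ 2 * (if w ∈ St t then 0 else f w ^ 2))]
    refine tsum_congr fun w => ?_
    have h1 : (LE t) w = Lm t w := rfl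
    rw [h1]
    have h2 : Lm t w ∈ St t ↔ w ∉ St t := Lm_mem
    have h3 := hbr t hts w
    rw [hz t hts, mul_zero, zero_mul, sub_zero] at h3
    by_cases hw : w ∈ St t
    · have h4 : Lm t w ∉ St t := by rw [h2]; simpa using hw
      rw [if_pos hw, if_neg h4, ← mul_pow]
      rw [if_pos hw] at h3
      rw [h3]
    · have h4 : Lm t w ∈ St t := h2.mpr hw
      rw [if_neg hw, if_pos h4]; ring
  have htot : ∑' w, h w ^ 2 = ∑' w, f w ^ 2 := (LE s).tsum_eq (fun w => f w ^ 2)
  have hmt := mass_total hSq
  rw [htot] at hmt
  have hge : mass h (St t) ≤ ∑ r : Fin 3, mass h (St r) :=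
    Finset.single_le_sum (f := fun r => mass h (St r)) (fun r _ => mass_nonneg _ _)
      (Finset.mem_univ t)
  have hA := G.total_pos
  set A := ∑' w, f w ^ 2 with hAdef
  have h1 : 0 < h e ^ 2 := by
    have : h e ≠ 0 := by
      intro h0
      rw [h0, mul_zero] at he'
      linarith
    positivity
  have h2 : 1 ≤ (wt t * h e) ^ 2 := by
    have h3 : (wt s * h e) ^ 2 = 1 := by rw [he']; norm_num
    rw [mul_pow] at h3 ⊢
    rw [← h3]
    have := wt_pos s
    gcongr
  have h3 : 1 * A ≤ (wt t * h e) ^ 2 * A := mul_le_mul_of_nonneg_right h2 hA.le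
  linarith

theorem c_pos (s : Fin 3) : 0 < wt s * f (sg s) := by
  have hA := G.total_pos
  have hg := G.g_ne
  have hkey : ∀ s, 0 < (wt s * f (sg s)) * (1 + wt s * f (sg s)) := by
    intro s
    rw [G.c_eq s]
    have := wt_pos s
    positivity
  have hdich : ∀ s, 0 < wt s * f (sg s) ∨ 0 < -(1 + wt s * f (sg s)) := by
    intro s
    rcases pos_and_pos_or_neg_and_neg_of_mul_pos (hkey s) with h | h
    · left; exact h.1
    · right; linarith [h.2]
  -- mass of branches
  have hmass : ∀ s, (1 + 2 * (wt s * f (sg s))) * mass f (St s)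
      = (wt s * f (sg s)) * ∑' w, f w ^ 2 := by
    intro s
    have h1 := G.mass_in s
    rw [← G.c_eq s] at h1
    have h2 : (1 + wt s * f (sg s)) * ((1 + wt s * f (sg s)) * mass f (St s))
        = (1 + wt s * f (sg s)) * ((wt s * f (sg s)) * (∑' w, f w ^ 2 - mass f (St s))) := by
      linarith
    have h3 : (1 + wt s * f (sg s)) ≠ 0 := by
      intro h0
      have := hkey s
      rw [h0, mul_zero] at this
      exact lt_irrefl _ this
    have h4 := mul_left_cancel₀ h3 h2
    linarith
  by_contra hcon
  have hneg : 0 < -(1 + wt s * f (sg s)) := (hdich s).resolve_left hcon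
  obtain ⟨t, hts, hle⟩ := wt_other s
  have hms := hmass s
  have hmt := hmass t
  have htot := mass_total G.sq
  have h2 : mass f (St s) + mass f (St t) ≤ ∑ r : Fin 3, mass f (St r) := by
    rw [← Finset.sum_pair (f := fun r => mass f (St r)) hts.symm]
    exact Finset.sum_le_sum_of_subset_of_nonneg (Finset.subset_univ _)
      (fun r _ _ => mass_nonneg _ _)
  have hcs := G.c_eq s
  have hct := G.c_eq t
  set A := ∑' w, f w ^ 2
  set P := mass f (St s)
  set Q := mass f (St t)
  set c := wt s * f (sg s)
  set d := wt t * f (sg t)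
  have hg2 : 0 < f e ^ 2 := by positivity
  -- set e' = -1 - c
  obtain ⟨x, hx⟩ : ∃ x, x = -(1 + c) := ⟨_, rfl⟩
  have hc' : c = -1 - x := by linarith
  rw [← hx] at hneg
  have hP : (1 + 2 * x) * P = (1 + x) * A := by
    rw [hc'] at hms
    linarith
  rcases hdich t with hd | hd
  · -- `d > 0`, `d ≥ x`
    have hcd : x * (1 + x) ≤ d * (1 + d) := by
      have h3 : c * (1 + c) = x * (1 + x) := by rw [hc']; ring
      rw [← h3, hcs, hct, mul_pow, mul_pow]
      have := wt_pos s
      gcongr
    have hxd : x ≤ d := by
      by_contra h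
      have h' := not_le.mp h
      nlinarith
    -- P/A + Q/A ≥ 1
    have h3 : A ≤ P + Q := by
      have hQ : (1 + 2 * d) * Q = d * A := by linarith
      have e1 : 0 < 1 + 2 * x := by linarith
      have e2 : 0 < 1 + 2 * d := by linarith
      have e3 : P = (1 + x) * A / (1 + 2 * x) := by rw [eq_div_iff e1.ne']; linarith
      have e4 : Q = d * A / (1 + 2 * d) := by rw [eq_div_iff e2.ne']; linarith
      rw [e3, e4, div_add_div _ _ e1.ne' e2.ne', le_div_iff₀ (by positivity)]
      nlinarith [mul_nonneg hA.le (sub_nonneg.mpr hxd)]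
    linarith
  · obtain ⟨y, hy⟩ : ∃ y, y = -(1 + d) := ⟨_, rfl⟩
    have hd' : d = -1 - y := by linarith
    rw [← hy] at hd
    have hQ : (1 + 2 * y) * Q = (1 + y) * A := by
      rw [hd'] at hmt
      linarith
    have h3 : A ≤ P + Q := by
      have e1 : 0 < 1 + 2 * x := by linarith
      have e2 : 0 < 1 + 2 * y := by linarith
      have e3 : P = (1 + x) * A / (1 + 2 * x) := by rw [eq_div_iff e1.ne']; linarith
      have e4 : Q = (1 + y) * A / (1 + 2 * y) := by rw [eq_div_iff e2.ne']; linarith
      rw [e3, e4, div_add_div _ _ e1.ne' e2.ne', le_div_iff₀ (by positivity)]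
      nlinarith [mul_nonneg hA.le hneg.le, mul_nonneg hA.le hd.le]
    linarith

/-- Signs of the Green function. -/
theorem signs : (∀ w, 0 < f w) ∨ (∀ w, 0 < -(par w) * f w) := by
  have step : ∀ (s : Fin 3) (u : W), u ∉ St s → (1 + wt s * f (sg s)) * f (Lm s u)
      = (wt s * f e) * f u := by
    intro s u hu
    have h := G.split s (Lm s u)
    rw [if_pos (Lm_mem.mpr hu), Lm_Lm] at h
    linarith
  rcases lt_or_gt_of_ne G.g_ne with hg | hg
  · right
    have main : ∀ n : ℕ, ∀ w : W, len w ≤ n → 0 < -(par w) * f w := by
      intro n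
      induction n with
      | zero =>
        intro w hw
        have : w = e := W.ext (List.length_eq_zero_iff.mp (Nat.le_zero.mp hw))
        subst this
        have : par e = 1 := by simp [par, len, e]
        rw [this]; linarith
      | succ n ih =>
        intro w hw
        by_cases hw1 : w = e
        · exact ih w (by subst hw1; simp [len, e])
        · obtain ⟨s, hs⟩ := exists_St hw1
          obtain ⟨u, rfl, hu, hlen⟩ := exists_decomp hs
          have h1 := ih u (by omega)
          have h2 := step s u hu
          have h3 := G.c_pos s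
          have h4 : par (Lm s u) = - par u := by
            unfold par; rw [hlen, pow_succ]; ring
          rw [h4]
          have h5 : (1 + wt s * f (sg s)) * (- - par u * f (Lm s u))
              = (-(wt s * f e)) * (-par u * f u) := by
            linear_combination (par u) * h2
          have h6 : 0 < -(wt s * f e) := by
            have := wt_pos s
            nlinarith
          have h7 : 0 < (1 + wt s * f (sg s)) * (- - par u * f (Lm s u)) := by
            rw [h5]; exact mul_pos h6 h1
          exact (mul_pos_iff_of_pos_left (by linarith)).mp h7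
    exact fun w => main _ w le_rfl
  · left
    have main : ∀ n : ℕ, ∀ w : W, len w ≤ n → 0 < f w := by
      intro n
      induction n with
      | zero =>
        intro w hw
        have : w = e := W.ext (List.length_eq_zero_iff.mp (Nat.le_zero.mp hw))
        subst this
        exact hg
      | succ n ih =>
        intro w hw
        by_cases hw1 : w = e
        · subst hw1; exact hg
        · obtain ⟨s, hs⟩ := exists_St hw1
          obtain ⟨u, rfl, hu, hlen⟩ := exists_decomp hs
          have h1 := ih u (by omega)
          have h2 := step s u hu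
          have h3 := G.c_pos s
          have h6 : 0 < (1 + wt s * f (sg s)) * f (Lm s u) := by
            rw [h2]
            exact mul_pos (mul_pos (wt_pos s) hg) h1
          exact (mul_pos_iff_of_pos_left (by linarith)).mp h6
    exact fun w => main _ w le_rfl

/-- Existence of a positive supersolution. -/
theorem super : ∃ u : W → ℝ, (∀ w, 0 < u w) ∧
      ∀ w, ∑ s : Fin 3, wt s * u (R s w) ≤ |lam| * u w := by
  rcases G.signs with h | h
  · refine ⟨f, h, fun w => ?_⟩
    have h1 := G.eq w
    unfold Lop at h1
    have h2 : 0 ≤ dl e w := by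
      unfold dl; split_ifs <;> norm_num
    have h3 : lam * f w ≤ |lam| * f w := mul_le_mul_of_nonneg_right (le_abs_self _) (h w).le
    linarith
  · refine ⟨fun w => -(par w) * f w, h, fun w => ?_⟩
    have h1 := G.eq w
    unfold Lop at h1
    have h2 : ∀ s : Fin 3, wt s * (-(par (R s w)) * f (R s w)) = par w * (wt s * f (R s w)) := by
      intro s
      rw [par_R]; ring
    simp only [h2, ← Finset.mul_sum]
    have h3 : ∑ s : Fin 3, wt s * f (R s w) = lam * f w - dl e w := by linarith
    rw [h3]
    have h4 : (-lam) * (-(par w) * f w) ≤ |lam| * (-(par w) * f w) :=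
      mul_le_mul_of_nonneg_right (neg_le_abs _) (h w).le
    have h5 : 0 ≤ par w * dl e w := by
      by_cases hw : w = e
      · subst hw; rw [dl_self]; simp [par, len, e]
      · rw [dl_ne hw, mul_zero]
    linarith

end Green

end Pool.Agent.H803R2.T3
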