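import Pool.Agent.H803R2.T3Spec

set_option autoImplicit false

/-!
The group of automorphisms of the `3`-regular tree which commute with all `R s` and preserve the
parity of the length: it acts freely, preserves the weights, and has two orbits on vertices. It is
torsion free (it inverts no edge): the quotient graph has two vertices joined by three edges.
-/

namespace Pool.Agent.H803R2.T3

/-- the automorphism group -/
def Gam : Subgroup (Tree ≃g Tree) where
  carrier := {g | (∀ s w, g (R s w) = R s (g w)) ∧ ∀ w, par (g w) = par w}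
  mul_mem' := by
    rintro g h ⟨hg, hg'⟩ ⟨hh, hh'⟩
    refine ⟨fun s w => ?_, fun w => ?_⟩
    · show g (h (R s w)) = R s (g (h w))
      rw [hh, hg]
    · show par (g (h w)) = par w
      rw [hg', hh']
  one_mem' := ⟨fun _ _ => rfl, fun _ => rfl⟩
  inv_mem' := by
    rintro g ⟨hg, hg'⟩
    have key : ∀ w, g (g⁻¹ w) = w := fun w => by
      show (g * g⁻¹) w = w
      rw [mul_inv_cancel]; rfl
    refine ⟨fun s w => ?_, fun w => ?_⟩
    · apply g.injective
      rw [key, hg, key]
    · rw [← hg', key]

theorem Gam_free (g : Tree ≃g Tree) (hg : g ∈ Gam) (v : W) (hv : g v = v) : g = 1 := by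
  obtain ⟨h1, -⟩ := hg
  have he : g e = e := by
    obtain ⟨l, h⟩ := v
    induction l with
    | nil => exact hv
    | cons s l ih =>
      apply ih h.tail
      rw [← R_cancel s l h, h1, hv]
  have : ∀ w, g w = w := fun w => eq_of_comm R (fun w => g w) (fun w => w)
    (fun s w => h1 s w) (fun s w => rfl) he w
  exact RelIso.ext this

/-- left translations as automorphisms of the tree -/
def trG (v : W) : Tree ≃g Tree where
  toEquiv := trE v
  map_rel_iff' := by
    intro a b
    show Tree.Adj (tr v a) (tr v b) ↔ Tree.Adj a b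
    rw [adj_iff, adj_iff]
    constructor
    · rintro ⟨s, hs⟩
      refine ⟨s, ?_⟩
      apply (trE v).injective
      show tr v b = tr v (R s a)
      rw [tr_R, hs]
    · rintro ⟨s, rfl⟩
      exact ⟨s, tr_R v s a⟩

theorem par_tr (v w : W) : par (tr v w) = par v * par w := by
  obtain ⟨l, h⟩ := w
  induction l with
  | nil =>
    have : par (⟨[], h⟩ : W) = 1 := by simp [par, len]
    rw [this, mul_one]; rfl
  | cons s l ih =>
    rw [← R_cons s l h, tr_R, par_R, par_R, ih]
    ring

theorem par_sq (v : W) : par v = 1 ∨ par v = -1 := by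
  unfold par
  exact neg_one_pow_eq_or ℝ _

theorem trG_mem {v : W} (hv : par v = 1) : trG v ∈ Gam :=
  ⟨fun s w => tr_R v s w, fun w => by
    show par (tr v w) = par w
    rw [par_tr, hv, one_mul]⟩

theorem Gam_cofinite : ∃ F : Finset W, ∀ v : W, ∃ g ∈ Gam, ∃ w ∈ F, g w = v := by
  refine ⟨{e, sg 0}, fun v => ?_⟩
  rcases par_sq v with hv | hv
  · exact ⟨trG v, trG_mem hv, e, by simp, tr_e v⟩
  · have h2 : par (tr v (sg 0)) = 1 := by
      rw [par_tr, hv]
      simp [par, len, sg]
    refine ⟨trG (tr v (sg 0)), trG_mem h2, sg 0, by simp, ?_⟩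
    show tr (tr v (sg 0)) (sg 0) = v
    rw [← tr_tr]
    have : tr (sg 0) (sg 0) = e := Lm_sg 0
    rw [this, tr_e]

/-- the group inverts no edge (this is not needed for the frozen statement) -/
theorem Gam_no_inversion (g : Tree ≃g Tree) (hg : g ∈ Gam) (v : W) : ¬ Tree.Adj v (g v) := by
  rintro ⟨s, hs⟩
  have h1 := hg.2 v
  rw [hs, par_R] at h1
  rcases par_sq v with hv | hv <;> rw [hv] at h1 <;> norm_num at h1

theorem Gam_weight (g : Tree ≃g Tree) (hg : g ∈ Gam) (u v : W) (h : Tree.Adj u v) :
    aw (g u) (g v) = aw u v := by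
  obtain ⟨s, rfl⟩ := h
  rw [hg.1, aw_R, aw_R]

theorem aw_symm (u v : W) (h : Tree.Adj u v) : aw u v = aw v u := by
  obtain ⟨s, rfl⟩ := h
  have := aw_R s (R s u)
  rw [R_R] at this
  rw [aw_R, this]

theorem aw_pos (u v : W) (h : Tree.Adj u v) : 0 < aw u v := by
  obtain ⟨s, rfl⟩ := h
  rw [aw_R]
  exact wt_pos s

end Pool.Agent.H803R2.T3

namespace Pool.Agent.H803R2.T3

theorem wt_ne : wt 0 ≠ wt 2 := by
  show (1 : ℝ) ≠ 1 / 2
  norm_num

end Pool.Agent.H803R2.T3
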