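import Pool.Agent.H803R2.T3Core

set_option autoImplicit false

open scoped ENNReal

/-!
The approximate point spectrum of the weighted adjacency operator of the `3`-regular tree is an
interval.
-/

namespace Pool.Agent.H803R2.T3

/-- Real square summable functions. -/
noncomputable abbrev E2 := lp (fun _ : W => ℝ) 2

theorem two_pos' : 0 < (2 : ℝ≥0∞).toReal := by norm_num

theorem E2.summable (f : E2) : Summable fun v => (f v) ^ 2 := by
  have := (lp.memℓp f).summable two_pos'
  simpa using this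

theorem E2.norm_sq (f : E2) : ‖f‖ ^ 2 = ∑' v, (f v) ^ 2 := by
  have := lp.norm_rpow_eq_tsum two_pos' f
  simpa using this

theorem memE2 {f : W → ℝ} (hf : Sq f) : Memℓp f 2 := by
  refine memℓp_gen ?_
  unfold Sq at hf
  simpa using hf

/-- Build an element of `E2`. -/
noncomputable def mkE2 (f : W → ℝ) (hf : Sq f) : E2 := ⟨f, memE2 hf⟩

@[simp] theorem mkE2_apply (f : W → ℝ) (hf : Sq f) (v : W) :
    mkE2 f hf v = f v := rfl

theorem E2.ext' {f g : E2} (h : ∀ v, f v = g v) : f = g := lp.ext (funext h)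

/-- Translation by a permutation. -/
noncomputable def trl (p : W ≃ W) : E2 →L[ℝ] E2 :=
  LinearMap.mkContinuous
    { toFun := fun f => mkE2 (fun v => f (p v)) (Sq.comp (E2.summable f) p)
      map_add' := fun f g => E2.ext' fun v => by simp
      map_smul' := fun c f => E2.ext' fun v => by simp }
    1 (fun f => by
      have h1 := E2.norm_sq (mkE2 (fun v => f (p v)) (Sq.comp (E2.summable f) p))
      have h2 := E2.norm_sq f
      have h3 : ∑' v, ((mkE2 (fun v => f (p v)) (Sq.comp (E2.summable f) p)) v) ^ 2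
          = ∑' v, (f v) ^ 2 := p.tsum_eq (fun v => (f v) ^ 2)
      rw [h3, ← h2] at h1
      have h4 := (sq_eq_sq₀ (norm_nonneg _) (norm_nonneg _)).mp h1
      rw [one_mul]
      exact h4.le)

@[simp] theorem trl_apply (p : W ≃ W) (f : E2) (v : W) : trl p f v = f (p v) := rfl

/-- the weighted adjacency operator -/
noncomputable def H : E2 →L[ℝ] E2 := ∑ s : Fin 3, wt s • trl (RE s)

theorem H_apply (f : E2) (v : W) : H f v = ∑ s : Fin 3, wt s * f (R s v) := by
  unfold H
  simp only [Fin.sum_univ_three]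
  rfl

theorem inner_H (x z : E2) : inner ℝ (H x) z
    = ∑ s : Fin 3, wt s * ∑' v, x (R s v) * z v := by
  have h1 : ∀ s : Fin 3, inner ℝ (trl (RE s) x) z = ∑' v, x (R s v) * z v := by
    intro s
    rw [lp.inner_eq_tsum]
    refine tsum_congr fun v => ?_
    rw [trl_apply, real_inner_eq_re_inner]
    simp [RE, mul_comm]
  unfold H
  simp only [ContinuousLinearMap.sum_apply, ContinuousLinearMap.smul_apply, sum_inner,
    real_inner_smul_left, h1]

theorem H_symm (x z : E2) : inner ℝ (H x) z = inner ℝ x (H z) := by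
  rw [real_inner_comm (H z) x, inner_H, inner_H]
  refine Finset.sum_congr rfl fun s _ => ?_
  congr 1
  rw [← (RE s).tsum_eq (fun v => x (R s v) * z v)]
  refine tsum_congr fun v => ?_
  have : R s ((RE s) v) = v := R_R s v
  rw [this]
  simp [RE, mul_comm]

/-- the spectral inequality -/
def Below (c t : ℝ) : Prop := ∀ x : E2, c * ‖x‖ ≤ ‖t • x - H x‖

/-- bounded below implies Green function -/
theorem exists_green {c t : ℝ} (hc : 0 < c) (hb : Below c t) : ∃ f : W → ℝ, Green t f := by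
  set T : E2 →L[ℝ] E2 := t • ContinuousLinearMap.id ℝ E2 - H with hT
  have hTx : ∀ x, T x = t • x - H x := fun x => by simp [hT]
  have hbd : ∀ x, c * ‖x‖ ≤ ‖T x‖ := fun x => by rw [hTx]; exact hb x
  have hinj : Function.Injective T := by
    intro x y hxy
    have h1 := hbd (x - y)
    rw [map_sub, hxy, sub_self, norm_zero] at h1
    have h2 : ‖x - y‖ ≤ 0 := by
      by_contra hcon
      have := mul_pos hc (not_le.mp hcon)
      linarith
    exact sub_eq_zero.mp (norm_le_zero_iff.mp h2)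
  have hanti : AntilipschitzWith (⟨c⁻¹, by positivity⟩ : NNReal) T :=
    T.antilipschitz_of_bound (fun x => by
      show ‖x‖ ≤ c⁻¹ * ‖T x‖
      rw [inv_mul_eq_div, le_div_iff₀ hc, mul_comm]
      exact hbd x)
  have hclosed : IsClosed (Set.range T) := hanti.isClosed_range T.uniformContinuous
  have hsymm : ∀ x y, inner ℝ (T x) y = inner ℝ x (T y) := by
    intro x y
    rw [hTx, hTx, inner_sub_left, inner_sub_right, H_symm, real_inner_smul_left,
      real_inner_smul_right]
  have hsurj : Function.Surjective T := by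
    have hcl : IsClosed (T.range : Set E2) := by
      rw [LinearMap.coe_range]
      exact hclosed
    haveI : CompleteSpace T.range := hcl.completeSpace_coe
    have h1 : T.range = ⊤ := by
      rw [← Submodule.orthogonal_eq_bot_iff]
      rw [Submodule.eq_bot_iff]
      intro x hx
      have h2 : inner ℝ (T (T x)) x = 0 := (Submodule.mem_orthogonal _ _).mp hx _ ⟨T x, rfl⟩
      rw [hsymm] at h2
      have h3 : T x = 0 := inner_self_eq_zero.mp h2
      exact hinj (by rw [h3, map_zero])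
    intro y
    have : y ∈ T.range := by rw [h1]; trivial
    exact this
  obtain ⟨f, hf⟩ := hsurj (mkE2 (dl e) (by
    unfold Sq
    refine summable_of_ne_finset_zero (s := {e}) (fun b hb => ?_)
    rw [dl_ne (by simpa using hb)]; ring))
  refine ⟨f, E2.summable f, fun w => ?_, fun g hg h0 w => ?_⟩
  · have h1 := congrArg (fun z : E2 => z w) hf
    simp only [mkE2_apply] at h1
    rw [← h1, hTx]
    show _ = (t • f - H f) w
    rw [lp.coeFn_sub, Pi.sub_apply, lp.coeFn_smul, Pi.smul_apply, H_apply]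
    rfl
  · have h1 : T (mkE2 g hg) = 0 := by
      refine E2.ext' fun v => ?_
      rw [hTx, lp.coeFn_sub, Pi.sub_apply, lp.coeFn_smul, Pi.smul_apply, H_apply]
      exact h0 v
    have h2 : mkE2 g hg = 0 := hinj (by rw [h1, map_zero])
    have h3 := congrArg (fun z : E2 => z w) h2
    simpa using h3

/-- The Schur test. -/
theorem schur {Λ : ℝ} {u : W → ℝ} (hu : ∀ w, 0 < u w)
    (hs : ∀ w, ∑ s : Fin 3, wt s * u (R s w) ≤ Λ * u w) (x : E2) :
    |inner ℝ (H x) x| ≤ Λ * ‖x‖ ^ 2 := by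
  have hΛ : 0 < Λ := by
    have h1 : 0 < ∑ s : Fin 3, wt s * u (R s e) :=
      Finset.sum_pos (fun s _ => mul_pos (wt_pos s) (hu _)) Finset.univ_nonempty
    exact (mul_pos_iff_of_pos_right (hu e)).mp (h1.trans_le (hs e))
  have hx := E2.summable x
  have hr : ∀ (s : Fin 3) w, wt s * (u (R s w) / u w) ≤ Λ := by
    intro s w
    rw [← mul_div_assoc, div_le_iff₀ (hu w)]
    refine le_trans ?_ (hs w)
    exact Finset.single_le_sum (f := fun s : Fin 3 => wt s * u (R s w))
      (fun s _ => (mul_pos (wt_pos s) (hu _)).le) (Finset.mem_univ s)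
  have hS1 : ∀ s : Fin 3, Summable fun w => wt s * (x w ^ 2 * (u (R s w) / u w)) := by
    intro s
    refine Summable.of_nonneg_of_le (fun w => ?_) (fun w => ?_) (hx.mul_right Λ)
    · have := hu w; have := hu (R s w); have := wt_pos s; positivity
    · calc wt s * (x w ^ 2 * (u (R s w) / u w)) = x w ^ 2 * (wt s * (u (R s w) / u w)) := by ring
        _ ≤ x w ^ 2 * Λ := mul_le_mul_of_nonneg_left (hr s w) (sq_nonneg _)
  have hS2 : ∀ s : Fin 3, Summable fun w => wt s * (x (R s w) ^ 2 * (u w / u (R s w))) := by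
    intro s
    have h1 := (RE s).summable_iff.mpr (hS1 s)
    refine h1.congr fun w => ?_
    simp only [Function.comp]
    have h2 : (RE s) w = R s w := rfl
    rw [h2, R_R]
  have hP : ∀ s : Fin 3, Summable fun w => wt s * |x (R s w) * x w| := by
    intro s
    refine Summable.of_nonneg_of_le (fun w => mul_nonneg (wt_pos s).le (abs_nonneg _))
      (fun w => ?_) (((hx.comp_injective (RE s).injective).add hx).mul_left (wt s))
    refine mul_le_mul_of_nonneg_left ?_ (wt_pos s).le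
    simp only [Function.comp]
    have h2 : (RE s) w = R s w := rfl
    rw [h2, abs_mul, ← sq_abs (x (R s w)), ← sq_abs (x w)]
    nlinarith [sq_nonneg (|x (R s w)| - |x w|), sq_nonneg (|x (R s w)|), sq_nonneg (|x w|)]
  have e1 : ∀ s : Fin 3, ∑' w, wt s * |x (R s w) * x w| ≤
      ∑' w, wt s * (x w ^ 2 * (u (R s w) / u w)) := by
    intro s
    have e2 : ∑' w, wt s * (x w ^ 2 * (u (R s w) / u w))
        = ∑' w, wt s * (x (R s w) ^ 2 * (u w / u (R s w))) := by
      rw [← (RE s).tsum_eq (fun w => wt s * (x w ^ 2 * (u (R s w) / u w)))]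
      refine tsum_congr fun w => ?_
      have h2 : (RE s) w = R s w := rfl
      rw [h2, R_R]
    have e3 : ∑' w, wt s * (x w ^ 2 * (u (R s w) / u w))
        = ∑' w, (1 / 2 * (wt s * (x w ^ 2 * (u (R s w) / u w)))
          + 1 / 2 * (wt s * (x (R s w) ^ 2 * (u w / u (R s w))))) := by
      have e4 := ((hS1 s).mul_left (1 / 2)).tsum_add ((hS2 s).mul_left (1 / 2))
      rw [e4, tsum_mul_left (a := (1 / 2 : ℝ)) (f := fun w => wt s * (x w ^ 2 * (u (R s w) / u w))),
        tsum_mul_left (a := (1 / 2 : ℝ))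
          (f := fun w => wt s * (x (R s w) ^ 2 * (u w / u (R s w)))), ← e2]
      ring
    rw [e3]
    refine Summable.tsum_le_tsum (fun w => ?_) (hP s)
      (((hS1 s).mul_left (1 / 2)).add ((hS2 s).mul_left (1 / 2)))
    have a1 := hu w
    have a2 := hu (R s w)
    have a3 : |x (R s w) * x w| * (u w * u (R s w))
        ≤ 1 / 2 * (x w ^ 2 * u (R s w) ^ 2) + 1 / 2 * (x (R s w) ^ 2 * u w ^ 2) := by
      rw [abs_mul, ← sq_abs (x w), ← sq_abs (x (R s w))]
      nlinarith [sq_nonneg (|x w| * u (R s w) - |x (R s w)| * u w)]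
    have a4 : |x (R s w) * x w| ≤ 1 / 2 * (x w ^ 2 * (u (R s w) / u w))
        + 1 / 2 * (x (R s w) ^ 2 * (u w / u (R s w))) := by
      have a5 : 1 / 2 * (x w ^ 2 * (u (R s w) / u w))
          + 1 / 2 * (x (R s w) ^ 2 * (u w / u (R s w)))
          = (1 / 2 * (x w ^ 2 * u (R s w) ^ 2) + 1 / 2 * (x (R s w) ^ 2 * u w ^ 2))
            / (u w * u (R s w)) := by
        field_simp
      rw [a5, le_div_iff₀ (by positivity)]
      exact a3
    have := mul_le_mul_of_nonneg_left a4 (wt_pos s).le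
    linarith
  have e5 : |inner ℝ (H x) x| ≤ ∑ s : Fin 3, ∑' w, wt s * |x (R s w) * x w| := by
    rw [inner_H]
    refine (Finset.abs_sum_le_sum_abs _ _).trans (Finset.sum_le_sum fun s _ => ?_)
    rw [abs_mul, abs_of_pos (wt_pos s), tsum_mul_left]
    refine mul_le_mul_of_nonneg_left ?_ (wt_pos s).le
    have hsm : Summable fun w => |x (R s w) * x w| := by
      have := (hP s).mul_left (wt s)⁻¹
      refine this.congr fun w => ?_
      rw [← mul_assoc, inv_mul_cancel₀ (wt_pos s).ne', one_mul]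
    have := norm_tsum_le_tsum_norm (f := fun w => x (R s w) * x w)
      (by simpa [Real.norm_eq_abs] using hsm)
    simpa [Real.norm_eq_abs] using this
  refine e5.trans ((Finset.sum_le_sum fun s _ => e1 s).trans ?_)
  rw [← Summable.tsum_finsetSum fun s _ => hS1 s, E2.norm_sq, ← tsum_mul_left]
  refine Summable.tsum_le_tsum (fun w => ?_) (summable_sum fun s _ => hS1 s) (hx.mul_left Λ)
  have h1 : ∑ s : Fin 3, wt s * (x w ^ 2 * (u (R s w) / u w))
      = (∑ s : Fin 3, wt s * u (R s w)) * (x w ^ 2 / u w) := by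
    rw [Finset.sum_mul]
    refine Finset.sum_congr rfl fun s _ => ?_
    ring
  rw [h1]
  have h2 : (0 : ℝ) ≤ x w ^ 2 / u w := div_nonneg (sq_nonneg _) (hu w).le
  refine (mul_le_mul_of_nonneg_right (hs w) h2).trans (le_of_eq ?_)
  have := (hu w).ne'
  field_simp

/-- points beyond `|t|` are far from the spectrum -/
theorem below_of_form {Λ mu : ℝ} (hb : ∀ x : E2, |inner ℝ (H x) x| ≤ Λ * ‖x‖ ^ 2) :
    Below (|mu| - Λ) mu := by
  intro x
  by_cases hx : x = 0
  · subst hx; simp
  have hx' : 0 < ‖x‖ := norm_pos_iff.mpr hx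
  have h1 : |inner ℝ (mu • x - H x) x| ≤ ‖mu • x - H x‖ * ‖x‖ := abs_real_inner_le_norm _ _
  have h2 : inner ℝ (mu • x - H x) x = mu * ‖x‖ ^ 2 - inner ℝ (H x) x := by
    rw [inner_sub_left, real_inner_smul_left, real_inner_self_eq_norm_sq]
  have h3 : |mu| * ‖x‖ ^ 2 - |inner ℝ (H x) x| ≤ |inner ℝ (mu • x - H x) x| := by
    rw [h2]
    have := abs_sub_abs_le_abs_sub (mu * ‖x‖ ^ 2) (inner ℝ (H x) x)
    rw [abs_mul, abs_of_nonneg (sq_nonneg ‖x‖)] at this
    exact this
  have h4 := hb x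
  have h5 : (|mu| - Λ) * ‖x‖ * ‖x‖ ≤ ‖mu • x - H x‖ * ‖x‖ := by
    nlinarith
  exact le_of_mul_le_mul_right h5 hx'

/-- the set in the frozen statement -/
def Spec : Set ℝ := {t : ℝ | ∀ ε : ℝ, 0 < ε → ∃ ψ : W →₀ ℝ, ψ ≠ 0 ∧
  (∑ᶠ v : W, (((0 : ℝ) - t) * ψ v + ∑ᶠ w ∈ Tree.neighborSet v, aw v w * ψ w) ^ 2)
    < ε * ∑ᶠ v : W, ψ v ^ 2}

theorem sum_nb (ψ : W → ℝ) (v : W) :
    (∑ᶠ w ∈ Tree.neighborSet v, aw v w * ψ w) = ∑ s : Fin 3, wt s * ψ (R s v) := by
  rw [finsum_nbhd]
  refine Finset.sum_congr rfl fun s _ => ?_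
  rw [aw_R]

/-- finitely supported vectors -/
theorem sq_fin (ψ : W →₀ ℝ) : Sq ψ := by
  unfold Sq
  refine summable_of_ne_finset_zero (s := ψ.support) (fun b hb => ?_)
  rw [Finsupp.notMem_support_iff.mp hb]; ring

/-- finitely supported vectors as elements of `E2` -/
noncomputable def io (ψ : W →₀ ℝ) : E2 := mkE2 ψ (sq_fin ψ)

theorem norm_io (ψ : W →₀ ℝ) : ‖io ψ‖ ^ 2 = ∑ᶠ v : W, ψ v ^ 2 := by
  rw [E2.norm_sq]
  rw [tsum_eq_finsum]
  · rfl
  · refine (ψ.finite_support).subset fun v hv => ?_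
    simp only [Function.mem_support] at hv ⊢
    intro h
    apply hv
    show ψ v ^ 2 = 0
    rw [h]; ring

theorem norm_T_io (t : ℝ) (ψ : W →₀ ℝ) : ‖t • io ψ - H (io ψ)‖ ^ 2 =
    ∑ᶠ v : W, (((0 : ℝ) - t) * ψ v + ∑ᶠ w ∈ Tree.neighborSet v, aw v w * ψ w) ^ 2 := by
  have hval : ∀ v, (t • io ψ - H (io ψ)) v = t * ψ v - ∑ s : Fin 3, wt s * ψ (R s v) := by
    intro v
    rw [lp.coeFn_sub, Pi.sub_apply, lp.coeFn_smul, Pi.smul_apply, H_apply]
    rfl
  rw [E2.norm_sq, tsum_eq_finsum]
  · refine finsum_congr fun v => ?_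
    rw [hval, sum_nb]
    ring
  · refine ((ψ.support ∪ Finset.univ.biUnion fun s : Fin 3 =>
        ψ.support.image (R s) : Finset W).finite_toSet).subset fun v hv => ?_
    by_contra hcon
    simp only [Finset.coe_union, Set.mem_union, Finset.mem_coe, Finset.mem_biUnion,
      Finset.mem_univ, true_and, Finset.mem_image, not_or, not_exists, not_and] at hcon
    apply hv
    show ((t • io ψ - H (io ψ)) v) ^ 2 = 0
    rw [hval, Finsupp.notMem_support_iff.mp hcon.1]
    have : ∀ s : Fin 3, ψ (R s v) = 0 := by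
      intro s
      by_contra h
      exact hcon.2 s (R s v) (Finsupp.mem_support_iff.mpr h) (R_R s v)
    simp [this]

/-- a truncation -/
theorem dense_bound {c t : ℝ} (hc : 0 ≤ c)
    (h : ∀ ψ : W →₀ ℝ, c * ‖io ψ‖ ≤ ‖t • io ψ - H (io ψ)‖) : Below c t := by
  intro x
  have h1 := lp.hasSum_single (by norm_num : (2 : ℝ≥0∞) ≠ ⊤) x
  have h2 : ∀ F : Finset W, c * ‖∑ i ∈ F, lp.single 2 i (x i)‖ ≤
      ‖t • (∑ i ∈ F, lp.single 2 i (x i)) - H (∑ i ∈ F, lp.single 2 i (x i))‖ := by
    intro F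
    have h3 : (∑ i ∈ F, lp.single 2 i (x i) : E2) = io (∑ i ∈ F, Finsupp.single i (x i)) := by
      refine E2.ext' fun v => ?_
      rw [lp.coeFn_sum, Finset.sum_apply]
      show _ = (∑ i ∈ F, Finsupp.single i (x i)) v
      rw [Finsupp.finsetSum_apply]
      refine Finset.sum_congr rfl fun i _ => ?_
      rw [lp.single_apply, Finsupp.single_apply]
      by_cases hiv : i = v
      · subst hiv; simp
      · rw [if_neg hiv]
        simp [Ne.symm hiv]
    rw [h3]
    exact h _
  have h3 : Filter.Tendsto (fun F : Finset W => c * ‖∑ i ∈ F, lp.single 2 i (x i)‖) Filter.atTop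
      (nhds (c * ‖x‖)) := (h1.norm).const_mul c
  have h4 : Filter.Tendsto (fun F : Finset W => ‖t • (∑ i ∈ F, lp.single 2 i (x i))
      - H (∑ i ∈ F, lp.single 2 i (x i))‖) Filter.atTop (nhds ‖t • x - H x‖) := by
    have h5 : Filter.Tendsto (fun F : Finset W => (∑ i ∈ F, lp.single 2 i (x i) : E2)) Filter.atTop
      (nhds x) := h1
    exact ((h5.const_smul t).sub ((H.continuous.tendsto x).comp h5)).norm
  exact le_of_tendsto_of_tendsto' h3 h4 h2

theorem notMem_Spec_of_below {c t : ℝ} (hc : 0 < c) (h : Below c t) : t ∉ Spec := by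
  intro ht
  obtain ⟨ψ, hψ, hlt⟩ := ht (c ^ 2) (by positivity)
  rw [← norm_io, ← norm_T_io] at hlt
  have h1 := h (io ψ)
  have h2 : (c * ‖io ψ‖) ^ 2 ≤ ‖t • io ψ - H (io ψ)‖ ^ 2 :=
    pow_le_pow_left₀ (by positivity) h1 2
  rw [mul_pow] at h2
  linarith

theorem below_of_notMem {t : ℝ} (ht : t ∉ Spec) : ∃ c : ℝ, 0 < c ∧ Below c t := by
  simp only [Spec, Set.mem_setOf_eq, not_forall] at ht
  obtain ⟨ε, hε, h⟩ := ht
  push Not at h
  refine ⟨Real.sqrt ε, Real.sqrt_pos.mpr hε, dense_bound (Real.sqrt_nonneg _) fun ψ => ?_⟩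
  by_cases hψ : ψ = 0
  · subst hψ
    have : io 0 = 0 := E2.ext' fun v => rfl
    rw [this]; simp
  · have h1 := h ψ hψ
    rw [← norm_io, ← norm_T_io] at h1
    rw [← sq_le_sq₀ (mul_nonneg (Real.sqrt_nonneg _) (norm_nonneg _)) (norm_nonneg _), mul_pow,
      Real.sq_sqrt hε.le]
    exact h1

theorem spec_preconnected : IsPreconnected Spec := by
  rw [isPreconnected_iff_ordConnected]
  refine ⟨fun a ha b hb t ht => ?_⟩
  by_contra hcon
  obtain ⟨c, hc, hbel⟩ := below_of_notMem hcon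
  obtain ⟨f, G⟩ := exists_green hc hbel
  obtain ⟨u, hu, hs⟩ := G.super
  have hform := schur hu hs
  have key : ∀ mu, |t| < |mu| → mu ∉ Spec := by
    intro mu hmu
    exact notMem_Spec_of_below (by linarith : 0 < |mu| - |t|) (below_of_form hform)
  have h1 : a ≠ t := by rintro rfl; exact hcon ha
  have h2 : b ≠ t := by rintro rfl; exact hcon hb
  have h3 : a < t := lt_of_le_of_ne ht.1 h1
  have h4 : t < b := lt_of_le_of_ne ht.2 h2.symm
  rcases le_or_gt 0 t with h0 | h0
  · refine key b ?_ hb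
    rw [abs_of_nonneg h0, abs_of_nonneg (h0.trans h4.le)]
    exact h4
  · refine key a ?_ ha
    rw [abs_of_neg h0, abs_of_neg (h3.trans h0)]
    linarith

end Pool.Agent.H803R2.T3
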