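import Mathlib
import Pool.Agent.Helper73.Cayley

set_option autoImplicit false

/-!
The free product `W` of three groups of order two, as the set of reduced words in three letters,
and the `3`-regular tree.
-/

namespace Pool.Agent.H803R2.T3

/-- reduced words -/
def W : Type := {l : List (Fin 3) // l.IsChain (· ≠ ·)}

/-- the empty word -/
def e : W := ⟨[], by simp⟩

/-- one letter word -/
def sg (s : Fin 3) : W := ⟨[s], by simp⟩

theorem W.ext {u v : W} (h : u.1 = v.1) : u = v := Subtype.ext h

instance : DecidableEq W := inferInstanceAs (DecidableEq {l : List (Fin 3) // l.IsChain (· ≠ ·)})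

/-- multiplication by a letter -/
def R (s : Fin 3) (w : W) : W :=
  match w with
  | ⟨[], _⟩ => sg s
  | ⟨t :: l, h⟩ => if hst : s = t then ⟨l, h.tail⟩ else ⟨s :: t :: l, by
      rw [List.isChain_cons_cons]; exact ⟨hst, h⟩⟩

theorem R_e (s : Fin 3) : R s e = sg s := rfl

theorem R_cancel (s : Fin 3) (l : List (Fin 3)) (h : (s :: l).IsChain (· ≠ ·)) :
    R s ⟨s :: l, h⟩ = ⟨l, h.tail⟩ := by simp [R]

theorem R_cons (s : Fin 3) (l : List (Fin 3)) (h : (s :: l).IsChain (· ≠ ·)) :
    R s ⟨l, h.tail⟩ = ⟨s :: l, h⟩ := by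
  cases l with
  | nil => rfl
  | cons t l =>
    have hst : s ≠ t := (List.isChain_cons_cons.mp h).1
    simp [R, hst]

theorem R_R (s : Fin 3) (w : W) : R s (R s w) = w := by
  obtain ⟨l, h⟩ := w
  by_cases hs : ∃ m, l = s :: m
  · obtain ⟨m, rfl⟩ := hs
    rw [R_cancel, R_cons]
  · have h' : (s :: l).IsChain (· ≠ ·) := by
      cases l with
      | nil => simp
      | cons t l =>
        rw [List.isChain_cons_cons]
        refine ⟨?_, h⟩
        rintro rfl
        exact hs ⟨l, rfl⟩
    have := R_cons s l h'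
    rw [this, R_cancel]

/-- multiplication by a letter as a permutation -/
def RE (s : Fin 3) : W ≃ W := ⟨R s, R s, R_R s, R_R s⟩

/-- length -/
def len (w : W) : ℕ := w.1.length

theorem len_R (s : Fin 3) (w : W) :
    (R s w).1 = s :: w.1 ∨ w.1 = s :: (R s w).1 := by
  obtain ⟨l, h⟩ := w
  by_cases hs : ∃ m, l = s :: m
  · obtain ⟨m, rfl⟩ := hs
    right
    rw [R_cancel]
  · left
    have h' : (s :: l).IsChain (· ≠ ·) := by
      cases l with
      | nil => simp
      | cons t l =>
        rw [List.isChain_cons_cons]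
        refine ⟨?_, h⟩
        rintro rfl
        exact hs ⟨l, rfl⟩
    rw [R_cons s l h']

theorem len_R' (s : Fin 3) (w : W) : len (R s w) = len w + 1 ∨ len w = len (R s w) + 1 := by
  unfold len
  rcases len_R s w with h | h
  · left; rw [h]; rfl
  · right; rw [h]; rfl

theorem R_inj {s t : Fin 3} {w : W} (h : R s w = R t w) : s = t := by
  rcases len_R s w with h1 | h1 <;> rcases len_R t w with h2 | h2
  · rw [h, h2] at h1
    simpa using h1.symm
  · rw [h] at h1
    have := congrArg List.length h1
    rw [h2] at this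
    simp only [List.length_cons] at this
    omega
  · rw [h] at h1
    have := congrArg List.length h1
    rw [h2] at this
    simp only [List.length_cons] at this
    omega
  · rw [h1] at h2
    simp at h2
    exact h2.1

/-- the parity of the length -/
def par (w : W) : ℝ := (-1) ^ len w

theorem par_R (s : Fin 3) (w : W) : par (R s w) = - par w := by
  unfold par
  rcases len_R' s w with h | h
  · rw [h, pow_succ]; ring
  · rw [h, pow_succ]; ring

/-- action of a list -/
def act (l : List (Fin 3)) (v : W) : W := l.foldr R v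

/-- left translation: the map commuting with all `R s` and sending `e` to `v` -/
def tr (v w : W) : W := act w.1 v

theorem tr_e (v : W) : tr v e = v := rfl

theorem tr_R (v : W) (s : Fin 3) (w : W) : tr v (R s w) = R s (tr v w) := by
  unfold tr act
  rcases len_R s w with h | h
  · rw [h]; rfl
  · conv_rhs => rw [h]
    rw [List.foldr_cons, R_R]

/-- maps commuting with all `R s` are determined by the value at `e` -/
theorem eq_of_comm {X : Type} (S : Fin 3 → X → X) (φ ψ : W → X)
    (hφ : ∀ s w, φ (R s w) = S s (φ w)) (hψ : ∀ s w, ψ (R s w) = S s (ψ w))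
    (he : φ e = ψ e) (w : W) : φ w = ψ w := by
  obtain ⟨l, h⟩ := w
  induction l with
  | nil => exact he
  | cons s l ih =>
    rw [← R_cons s l h, hφ, hψ, ih]

theorem tr_tr (u v w : W) : tr u (tr v w) = tr (tr u v) w := by
  refine eq_of_comm R (fun w => tr u (tr v w)) (fun w => tr (tr u v) w) ?_ ?_ ?_ w
  · intro s w; simp only [tr_R]
  · intro s w; simp only [tr_R]
  · simp only [tr_e]

theorem e_tr (w : W) : tr e w = w := by
  refine eq_of_comm R (fun w => tr e w) (fun w => w) ?_ ?_ ?_ w
  · intro s w; simp only [tr_R]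
  · intro s w; rfl
  · rfl

/-- the inverse word -/
def inv (v : W) : W := ⟨v.1.reverse, by
  have h := v.2
  rw [List.isChain_reverse]
  exact h.imp fun a b hab => hab.symm⟩

theorem inv_inv (v : W) : inv (inv v) = v := W.ext (by simp [inv])

theorem tr_inv (v : W) : tr v (inv v) = e := by
  obtain ⟨l, h⟩ := v
  unfold tr inv act
  simp only
  induction l with
  | nil => rfl
  | cons s l ih =>
    rw [List.reverse_cons, List.foldr_append]
    simp only [List.foldr_cons, List.foldr_nil]
    rw [R_cancel]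
    exact ih h.tail

theorem inv_tr (v : W) : tr (inv v) v = e := by
  have := tr_inv (inv v)
  rwa [inv_inv] at this

/-- left translation as a permutation -/
def trE (v : W) : W ≃ W where
  toFun := tr v
  invFun := tr (inv v)
  left_inv w := by rw [tr_tr, inv_tr, e_tr]
  right_inv w := by rw [tr_tr, tr_inv, e_tr]

theorem act_append (l m : List (Fin 3)) (h : (l ++ m).IsChain (· ≠ ·))
    (hm : m.IsChain (· ≠ ·)) : act l ⟨m, hm⟩ = ⟨l ++ m, h⟩ := by
  induction l with
  | nil => rfl
  | cons s l ih =>
    have h' : (l ++ m).IsChain (· ≠ ·) := (show (s :: (l ++ m)).IsChain (· ≠ ·) from h).tail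
    show R s (act l ⟨m, hm⟩) = _
    rw [ih h']
    exact R_cons s (l ++ m) h

/-- branch at `s`: words whose last letter (the one next to the root side) is `s` -/
def St (s : Fin 3) : Set W := {w | w.1.getLast? = some s}

instance (s : Fin 3) : DecidablePred (· ∈ St s) := fun w =>
  inferInstanceAs (Decidable (w.1.getLast? = some s))

theorem mem_St {s : Fin 3} {w : W} : w ∈ St s ↔ w.1.getLast? = some s := Iff.rfl

theorem e_notMem (s : Fin 3) : e ∉ St s := by simp [mem_St, e]

theorem sg_mem {s t : Fin 3} : sg t ∈ St s ↔ t = s := by simp [mem_St, sg]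

theorem St_unique {s t : Fin 3} {w : W} (h1 : w ∈ St s) (h2 : w ∈ St t) : s = t := by
  rw [mem_St] at h1 h2
  rw [h1] at h2
  exact Option.some.inj h2

theorem exists_St {w : W} (hw : w ≠ e) : ∃ s, w ∈ St s := by
  obtain ⟨l, h⟩ := w
  rcases List.eq_nil_or_concat l with rfl | ⟨m, s, rfl⟩
  · exact absurd rfl hw
  · exact ⟨s, by simp [mem_St]⟩

theorem R_mem {s t : Fin 3} {w : W} (h1 : w ≠ e) (h2 : R t w ≠ e) : R t w ∈ St s ↔ w ∈ St s := by
  rcases len_R t w with h | h
  · rw [mem_St, mem_St, h]
    obtain ⟨l, hl⟩ := w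
    cases l with
    | nil => exact absurd rfl h1
    | cons a l => simp [List.getLast?_cons_cons]
  · rw [mem_St, mem_St]
    rw [h]
    generalize R t w = v at h2
    obtain ⟨l, hl⟩ := v
    cases l with
    | nil => exact absurd rfl h2
    | cons a l => simp [List.getLast?_cons_cons]

theorem R_eq_e {t : Fin 3} {w : W} : R t w = e ↔ w = sg t := by
  constructor
  · intro h
    rw [← R_R t w, h, R_e]
  · rintro rfl
    rw [← R_e, R_R]

theorem boundary {s t : Fin 3} {w : W} (h1 : w ∈ St s) (h2 : R t w ∉ St s) : w = sg s ∧ t = s := by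
  by_cases hw : w = e
  · exact absurd h1 (hw ▸ e_notMem s)
  by_cases hR : R t w = e
  · have := R_eq_e.mp hR
    subst this
    have := sg_mem.mp h1
    exact ⟨by rw [this], this⟩
  · exact absurd ((R_mem hw hR).mpr h1) h2

theorem boundary' {s t : Fin 3} {w : W} (h1 : w ∉ St s) (h2 : R t w ∈ St s) : w = e ∧ t = s := by
  have h3 := boundary h2 (by rwa [R_R])
  refine ⟨?_, h3.2⟩
  have h4 := h3.1
  rw [← R_R t w, h4, h3.2, ← R_e, R_R]

/-- left multiplication by a letter -/
def Lm (s : Fin 3) (w : W) : W := tr (sg s) w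

theorem Lm_R (s t : Fin 3) (w : W) : Lm s (R t w) = R t (Lm s w) := tr_R _ _ _

theorem Lm_Lm (s : Fin 3) (w : W) : Lm s (Lm s w) = w := by
  unfold Lm
  rw [tr_tr]
  have : tr (sg s) (sg s) = e := by
    rw [← R_e s, tr_R, tr_e, R_R]
  rw [this, e_tr]

theorem Lm_e (s : Fin 3) : Lm s e = sg s := rfl

theorem Lm_sg (s : Fin 3) : Lm s (sg s) = e := by rw [← Lm_e, Lm_Lm]

/-- left multiplication by a letter as a permutation -/
def LE (s : Fin 3) : W ≃ W := ⟨Lm s, Lm s, Lm_Lm s, Lm_Lm s⟩

theorem exists_last {s : Fin 3} {w : W} (h : w ∈ St s) :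
    ∃ (u : W) (hc : (u.1 ++ [s]).IsChain (· ≠ ·)), w = ⟨u.1 ++ [s], hc⟩ ∧ u ∉ St s := by
  obtain ⟨l, hl⟩ := w
  rcases List.eq_nil_or_concat l with rfl | ⟨m, t, rfl⟩
  · exact absurd h (e_notMem s)
  · have hts : t = s := by simpa [mem_St] using h
    subst hts
    have hl' := hl
    simp only [List.concat_eq_append] at hl'
    rw [List.isChain_append] at hl'
    refine ⟨⟨m, hl'.1⟩, by simpa using hl, W.ext (by simp), ?_⟩
    intro hm
    rw [mem_St] at hm
    simp only at hm
    exact hl'.2.2 t hm t (by simp) rfl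

theorem Lm_of_last {s : Fin 3} (u : W) (hc : (u.1 ++ [s]).IsChain (· ≠ ·)) :
    Lm s u = ⟨u.1 ++ [s], hc⟩ := act_append u.1 [s] hc (by simp)

theorem chain_of_notMem {s : Fin 3} {u : W} (h : u ∉ St s) : (u.1 ++ [s]).IsChain (· ≠ ·) := by
  rw [List.isChain_append]
  refine ⟨u.2, by simp, ?_⟩
  intro x hx y hy
  simp only [List.head?_cons, Option.mem_def, Option.some.injEq] at hy
  subst hy
  rintro rfl
  exact h hx

theorem Lm_mem {s : Fin 3} {w : W} : Lm s w ∈ St s ↔ w ∉ St s := by
  constructor
  · intro h1 h2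
    obtain ⟨u, hc, rfl, hu⟩ := exists_last h2
    rw [← Lm_of_last u hc, Lm_Lm] at h1
    exact hu h1
  · intro h
    rw [Lm_of_last w (chain_of_notMem h)]
    simp [mem_St]

theorem exists_decomp {s : Fin 3} {w : W} (h : w ∈ St s) :
    ∃ u : W, w = Lm s u ∧ u ∉ St s ∧ len w = len u + 1 := by
  obtain ⟨u, hc, rfl, hu⟩ := exists_last h
  exact ⟨u, (Lm_of_last u hc).symm, hu, by simp [len]⟩

/-! The tree. -/

/-- the `3`-regular tree -/
def Tree : SimpleGraph W where
  Adj u v := ∃ s, v = R s u
  symm := ⟨by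
    rintro u v ⟨s, rfl⟩
    exact ⟨s, (R_R s u).symm⟩⟩
  loopless := ⟨by
    rintro u ⟨s, h⟩
    have := len_R' s u
    rw [← h] at this
    omega⟩

theorem adj_iff {u v : W} : Tree.Adj u v ↔ ∃ s, v = R s u := Iff.rfl

theorem tree_isTree : Tree.IsTree := by
  refine ⟨?_, ?_⟩
  · haveI : Nonempty W := ⟨e⟩
    refine SimpleGraph.Connected.mk ?_
    have key : ∀ w : W, Tree.Reachable w e := by
      rintro ⟨l, h⟩
      induction l with
      | nil => exact SimpleGraph.Reachable.refl _
      | cons s l ih =>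
        refine SimpleGraph.Reachable.trans ?_ (ih h.tail)
        exact SimpleGraph.Adj.reachable ⟨s, (R_cancel s l h).symm⟩
    intro u v
    exact (key u).trans (key v).symm
  · refine Pool.Agent.Helper73.acyclic_of_height Tree len ?_ ?_
    · rintro u v ⟨s, rfl⟩
      have := len_R' s u
      omega
    · rintro v u w ⟨s, rfl⟩ ⟨t, rfl⟩ h1 h2
      rcases len_R s v with h3 | h3
      · exfalso; unfold len at h1; rw [h3] at h1; simp at h1
      rcases len_R t v with h4 | h4
      · exfalso; unfold len at h2; rw [h4] at h2; simp at h2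
      rw [h3] at h4
      simp only [List.cons.injEq] at h4
      exact W.ext h4.2

theorem nbhd (v : W) : Tree.neighborSet v = Set.range fun s => R s v := by
  ext w
  simp only [SimpleGraph.mem_neighborSet, adj_iff, Set.mem_range]
  exact ⟨fun ⟨s, h⟩ => ⟨s, h.symm⟩, fun ⟨s, h⟩ => ⟨s, h.symm⟩⟩

theorem nbhd_card (v : W) : (Tree.neighborSet v).ncard = 2 * 1 + 1 := by
  rw [nbhd, Set.ncard_range_of_injective (fun s t h => R_inj h)]
  simp

/-- sum over neighbours -/
theorem finsum_nbhd (v : W) (g : W → ℝ) :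
    (∑ᶠ w ∈ Tree.neighborSet v, g w) = ∑ s : Fin 3, g (R s v) := by
  rw [nbhd, finsum_mem_range (fun s t h => R_inj h), finsum_eq_sum_of_fintype]

/-- the edge weights -/
noncomputable def wt : Fin 3 → ℝ := ![1, 1, 1 / 2]

theorem wt_pos (s : Fin 3) : 0 < wt s := by fin_cases s <;> norm_num [wt]

/-- every letter has another letter with at least the same weight -/
theorem wt_other (s : Fin 3) : ∃ t, t ≠ s ∧ wt s ≤ wt t := by
  fin_cases s
  · exact ⟨1, by decide, by norm_num [wt]⟩
  · exact ⟨0, by decide, by norm_num [wt]⟩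
  · exact ⟨0, by decide, by norm_num [wt]⟩

/-- the weight of an edge -/
noncomputable def aw (u v : W) : ℝ := ∑ s : Fin 3, if v = R s u then wt s else 0

theorem aw_R (s : Fin 3) (v : W) : aw v (R s v) = wt s := by
  unfold aw
  rw [Finset.sum_eq_single s]
  · simp
  · intro t _ hts
    rw [if_neg]
    intro h
    exact hts (R_inj h).symm
  · intro h; exact absurd (Finset.mem_univ s) h

end Pool.Agent.H803R2.T3
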