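import Pool.Agent.H803R2.TriStep

set_option autoImplicit false

/-!
The estimate for triangular families, by induction on the dimension.
-/

open MeasureTheory Set Filter Topology ENNReal NNReal

namespace Pool.Agent.H803R2.Tri

/-- The coordinate `b v i` depends on `v j`, `j ≤ i`, only. -/
def IsTri {d : ℕ} (b : (Fin d → ℝ) → (Fin d → ℝ)) : Prop :=
  ∀ (i : Fin d) (v w : Fin d → ℝ), (∀ j, j ≤ i → v j = w j) → b v i = b w i

theorem measurable_snoc {d : ℕ} :
    Measurable (fun p : ℝ × (Fin d → ℝ) => (Fin.snoc (α := fun _ => ℝ) p.2 p.1 : Fin (d + 1) → ℝ)) := by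
  rw [measurable_pi_iff]
  intro i
  refine Fin.lastCases ?_ (fun j => ?_) i
  · simp only [Fin.snoc_last]
    exact measurable_fst
  · simp only [Fin.snoc_castSucc]
    exact (measurable_pi_apply j).comp measurable_snd

theorem measurable_snoc_comp {α : Type*} [MeasurableSpace α] {d : ℕ} {g : α → (Fin d → ℝ)} {f : α → ℝ}
    (hf : Measurable f) (hg : Measurable g) :
    Measurable (fun a => (Fin.snoc (α := fun _ => ℝ) (g a) (f a) : Fin (d + 1) → ℝ)) :=
  measurable_snoc.comp (hf.prodMk hg)

theorem lintegral_snoc (μ : Measure ℝ) [SigmaFinite μ] {d : ℕ} {g : (Fin (d + 1) → ℝ) → ℝ≥0∞}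
    (hg : Measurable g) :
    ∫⁻ v, g v ∂(Measure.pi fun _ : Fin (d + 1) => μ)
      = ∫⁻ v', ∫⁻ s, g (Fin.snoc (α := fun _ => ℝ) v' s) ∂μ ∂(Measure.pi fun _ : Fin d => μ) := by
  have hmp := measurePreserving_piFinSuccAbove (fun _ : Fin (d + 1) => μ) (Fin.last d)
  have h1 := (hmp.symm (MeasurableEquiv.piFinSuccAbove (fun _ => ℝ) (Fin.last d))).lintegral_comp hg
  rw [← h1]
  have hm : Measurable (fun p : ℝ × (Fin d → ℝ) => g (Fin.snoc (α := fun _ => ℝ) p.2 p.1)) :=
    hg.comp measurable_snoc
  have e : ∀ p : ℝ × (Fin d → ℝ),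
      (MeasurableEquiv.piFinSuccAbove (fun _ : Fin (d + 1) => ℝ) (Fin.last d)).symm p
        = (Fin.snoc (α := fun _ => ℝ) p.2 p.1 : Fin (d + 1) → ℝ) := by
    intro p
    exact Fin.insertNth_last' p.1 p.2
  simp only [e]
  rw [lintegral_prod_symm _ hm.aemeasurable]

theorem snoc_add_smul_add {d : ℕ} (x v z : Fin d → ℝ) (a s ζ t : ℝ) :
    (Fin.snoc (α := fun _ => ℝ) x a : Fin (d + 1) → ℝ)
      + t • (Fin.snoc (α := fun _ => ℝ) v s : Fin (d + 1) → ℝ)
      + (Fin.snoc (α := fun _ => ℝ) z ζ : Fin (d + 1) → ℝ)
      = Fin.snoc (α := fun _ => ℝ) (x + t • v + z) (a + t * s + ζ) := by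
  ext i
  refine Fin.lastCases ?_ (fun j => ?_) i
  · simp
  · simp

theorem tri_core {r : ℝ} (hr : 0 < r) {I : Set ℝ} (hI4 : volume I ≤ 4) : ∀ (d : ℕ)
    (b : (Fin d → ℝ) → (Fin d → ℝ)), Measurable b → IsTri b →
    ∀ u : ℝ × (Fin d → ℝ) → ℝ≥0∞, Measurable u →
    ∫⁻ v, (∫⁻ q, u (q.1, b v + q.1 • v + q.2)
        ∂((volume.restrict I).prod (Measure.pi fun _ : Fin d => rho r))) ^ (d + 1)
        ∂(Measure.pi fun _ : Fin d => kap)
      ≤ lam r ^ d * ∫⁻ y, u y ^ (d + 1)
          ∂((volume.restrict I).prod (volume : Measure (Fin d → ℝ))) := by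
  have hp := rho_prob hr
  intro d
  induction d with
  | zero =>
    intro b _ _ u hu
    have h1 : ∀ μ : Measure ℝ, (Measure.pi fun _ : Fin 0 => μ) = Measure.dirac (fun i => i.elim0) := by
      intro μ
      exact Measure.pi_of_empty (fun _ => μ) _
    have h2 : (volume : Measure (Fin 0 → ℝ)) = Measure.dirac (fun i => i.elim0) := by
      rw [volume_pi]
      exact h1 _
    rw [h1 kap, h1 (rho r), h2]
    rw [lintegral_dirac]
    simp only [zero_add, pow_one, pow_zero, one_mul]
    apply le_of_eq
    apply lintegral_congr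
    intro y
    congr 1
    ext1
    · rfl
    · exact Subsingleton.elim _ _
  | succ d ih =>
    intro b hb htri u hu
    set b' : (Fin d → ℝ) → (Fin d → ℝ) :=
      fun v' j => b (Fin.snoc (α := fun _ => ℝ) v' 0) j.castSucc with hb'
    set β : (Fin d → ℝ) → ℝ → ℝ :=
      fun v' s => b (Fin.snoc (α := fun _ => ℝ) v' s) (Fin.last d) with hβ
    have hsn0 : Measurable (fun v' : Fin d → ℝ => (Fin.snoc (α := fun _ => ℝ) v' 0 : Fin (d + 1) → ℝ)) :=
      measurable_snoc.comp (measurable_const.prodMk measurable_id)
    have hsn : ∀ v' : Fin d → ℝ, Measurable (fun s : ℝ => (Fin.snoc (α := fun _ => ℝ) v' s : Fin (d + 1) → ℝ)) :=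
      fun v' => measurable_snoc.comp (measurable_id.prodMk measurable_const)
    have hb'm : Measurable b' := by
      rw [measurable_pi_iff]
      intro j
      exact (measurable_pi_apply j.castSucc).comp (hb.comp hsn0)
    have hβm : ∀ v', Measurable (β v') := fun v' =>
      (measurable_pi_apply (Fin.last d)).comp (hb.comp (hsn v'))
    have hb'tri : IsTri b' := by
      intro i v w hvw
      apply htri
      intro j hj
      refine Fin.lastCases (motive := fun j => j ≤ i.castSucc →
        (Fin.snoc (α := fun _ => ℝ) v 0 : Fin (d + 1) → ℝ) j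
          = (Fin.snoc (α := fun _ => ℝ) w 0 : Fin (d + 1) → ℝ) j) ?_ (fun j => ?_) j hj
      · intro _
        simp
      · intro hj
        simp only [Fin.snoc_castSucc]
        exact hvw j (by simpa using hj)
    have hbs : ∀ v' s, b (Fin.snoc (α := fun _ => ℝ) v' s)
        = Fin.snoc (α := fun _ => ℝ) (b' v') (β v' s) := by
      intro v' s
      ext i
      refine Fin.lastCases ?_ (fun j => ?_) i
      · simp [hβ]
      · simp only [Fin.snoc_castSucc, hb']
        apply htri
        intro l hl
        refine Fin.lastCases (motive := fun l => l ≤ j.castSucc →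
          (Fin.snoc (α := fun _ => ℝ) v' s : Fin (d + 1) → ℝ) l
            = (Fin.snoc (α := fun _ => ℝ) v' 0 : Fin (d + 1) → ℝ) l) ?_ (fun l => ?_) l hl
        · intro h
          exact absurd h (by simp [Fin.le_def])
        · intro _
          simp
    set W : ℝ × (Fin d → ℝ) → ℝ≥0∞ := fun y =>
      (∫⁻ ξ, u (y.1, Fin.snoc (α := fun _ => ℝ) y.2 ξ) ^ (d + 1 + 1)) ^ ((1:ℝ) / ((d + 1 : ℕ) : ℝ)) with hW
    have husn : Measurable (fun p : (ℝ × (Fin d → ℝ)) × ℝ =>
        u (p.1.1, (Fin.snoc (α := fun _ => ℝ) p.1.2 p.2 : Fin (d + 1) → ℝ))) := by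
      apply hu.comp
      apply Measurable.prodMk
      · exact measurable_fst.comp measurable_fst
      · exact measurable_snoc.comp (measurable_snd.prodMk (measurable_snd.comp measurable_fst))
    have hWm : Measurable W := ((husn.pow_const (d + 1 + 1)).lintegral_prod_right').pow_const _
    -- the inner integral
    set N : (Fin (d + 1) → ℝ) → ℝ≥0∞ := fun v =>
      (∫⁻ q, u (q.1, b v + q.1 • v + q.2)
        ∂((volume.restrict I).prod (Measure.pi fun _ : Fin (d + 1) => rho r))) with hN
    have hbig : Measurable (fun p : (Fin (d + 1) → ℝ) × (ℝ × (Fin (d + 1) → ℝ)) =>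
        u (p.2.1, b p.1 + p.2.1 • p.1 + p.2.2)) := by
      apply hu.comp
      apply Measurable.prodMk (measurable_fst.comp measurable_snd)
      exact ((hb.comp measurable_fst).add
        ((measurable_fst.comp measurable_snd).smul measurable_fst)).add
        (measurable_snd.comp measurable_snd)
    have hNm : Measurable N := hbig.lintegral_prod_right'
    have hNeq : ∀ v' s, N (Fin.snoc (α := fun _ => ℝ) v' s)
        = ∫⁻ q : (ℝ × (Fin d → ℝ)) × ℝ,
            (fun p : (ℝ × (Fin d → ℝ)) × ℝ =>
              u (p.1.1, (Fin.snoc (α := fun _ => ℝ) (b' v' + p.1.1 • v' + p.1.2) p.2 : Fin (d + 1) → ℝ)))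
              (q.1, β v' s + q.1.1 * s + q.2)
            ∂(((volume.restrict I).prod (Measure.pi fun _ : Fin d => rho r)).prod (rho r)) := by
      intro v' s
      have m1 : Measurable (fun q : ℝ × (Fin (d + 1) → ℝ) =>
          u (q.1, b (Fin.snoc (α := fun _ => ℝ) v' s) + q.1 • (Fin.snoc (α := fun _ => ℝ) v' s) + q.2)) :=
        hbig.comp (measurable_const.prodMk measurable_id)
      have m2 : Measurable (fun q : (ℝ × (Fin d → ℝ)) × ℝ =>
          u (q.1.1, (Fin.snoc (α := fun _ => ℝ) (b' v' + q.1.1 • v' + q.1.2)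
            (β v' s + q.1.1 * s + q.2) : Fin (d + 1) → ℝ))) := by
        apply hu.comp
        apply Measurable.prodMk (measurable_fst.comp measurable_fst)
        apply measurable_snoc_comp
        · exact (measurable_const.add ((measurable_fst.comp measurable_fst).mul_const s)).add
            measurable_snd
        · exact (measurable_const.add ((measurable_fst.comp measurable_fst).smul_const v')).add
            (measurable_snd.comp measurable_fst)
      have m3 : Measurable (fun p : ℝ × (Fin d → ℝ) => ∫⁻ ζ,
          u (p.1, (Fin.snoc (α := fun _ => ℝ) (b' v' + p.1 • v' + p.2)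
            (β v' s + p.1 * s + ζ) : Fin (d + 1) → ℝ)) ∂(rho r)) := m2.lintegral_prod_right'
      calc N (Fin.snoc (α := fun _ => ℝ) v' s)
          = ∫⁻ t, ∫⁻ z, u (t, b (Fin.snoc (α := fun _ => ℝ) v' s)
              + t • (Fin.snoc (α := fun _ => ℝ) v' s) + z)
              ∂(Measure.pi fun _ : Fin (d + 1) => rho r) ∂(volume.restrict I) := by
            rw [hN]
            simp only
            rw [lintegral_prod _ m1.aemeasurable]
        _ = ∫⁻ t, ∫⁻ z', ∫⁻ ζ, u (t, (Fin.snoc (α := fun _ => ℝ) (b' v' + t • v' + z')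
              (β v' s + t * s + ζ) : Fin (d + 1) → ℝ)) ∂(rho r)
              ∂(Measure.pi fun _ : Fin d => rho r) ∂(volume.restrict I) := by
            apply lintegral_congr
            intro t
            have m4 : Measurable (fun z : Fin (d + 1) → ℝ => u (t, b (Fin.snoc (α := fun _ => ℝ) v' s)
              + t • (Fin.snoc (α := fun _ => ℝ) v' s) + z)) :=
              m1.comp measurable_prodMk_left
            rw [lintegral_snoc (rho r) m4]
            apply lintegral_congr
            intro z'
            apply lintegral_congr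
            intro ζ
            rw [hbs, snoc_add_smul_add]
        _ = _ := by
            rw [lintegral_prod _ m2.aemeasurable, lintegral_prod _ m3.aemeasurable]
    calc ∫⁻ v, N v ^ (d + 1 + 1) ∂(Measure.pi fun _ : Fin (d + 1) => kap)
        = ∫⁻ v', ∫⁻ s, N (Fin.snoc (α := fun _ => ℝ) v' s) ^ (d + 1 + 1) ∂kap
            ∂(Measure.pi fun _ : Fin d => kap) := by
          rw [lintegral_snoc kap (hNm.pow_const (d + 1 + 1))]
      _ ≤ ∫⁻ v', lam r * (∫⁻ q, W (q.1, b' v' + q.1 • v' + q.2)
            ∂((volume.restrict I).prod (Measure.pi fun _ : Fin d => rho r))) ^ (d + 1)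
            ∂(Measure.pi fun _ : Fin d => kap) := by
          apply lintegral_mono
          intro v'
          simp only [hNeq]
          have m5 : Measurable (fun p : (ℝ × (Fin d → ℝ)) × ℝ =>
              u (p.1.1, (Fin.snoc (α := fun _ => ℝ) (b' v' + p.1.1 • v' + p.1.2) p.2 : Fin (d + 1) → ℝ))) := by
            apply hu.comp
            apply Measurable.prodMk (measurable_fst.comp measurable_fst)
            apply measurable_snoc_comp
            · exact measurable_snd
            · exact (measurable_const.add ((measurable_fst.comp measurable_fst).smul_const v')).add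
                (measurable_snd.comp measurable_fst)
          exact step (Measure.pi fun _ : Fin d => rho r) hr hI4 (hβm v') m5 (k := d + 1) (by omega)
      _ = lam r * ∫⁻ v', (∫⁻ q, W (q.1, b' v' + q.1 • v' + q.2)
            ∂((volume.restrict I).prod (Measure.pi fun _ : Fin d => rho r))) ^ (d + 1)
            ∂(Measure.pi fun _ : Fin d => kap) := by
          rw [lintegral_const_mul]
          have m6 : Measurable (fun p : (Fin d → ℝ) × (ℝ × (Fin d → ℝ)) =>
              W (p.2.1, b' p.1 + p.2.1 • p.1 + p.2.2)) := by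
            apply hWm.comp
            apply Measurable.prodMk (measurable_fst.comp measurable_snd)
            exact ((hb'm.comp measurable_fst).add
              ((measurable_fst.comp measurable_snd).smul measurable_fst)).add
              (measurable_snd.comp measurable_snd)
          exact m6.lintegral_prod_right'.pow_const _
      _ ≤ lam r * (lam r ^ d * ∫⁻ y, W y ^ (d + 1)
            ∂((volume.restrict I).prod (volume : Measure (Fin d → ℝ)))) := by
          gcongr
          exact ih b' hb'm hb'tri W hWm
      _ = lam r ^ (d + 1) * ∫⁻ y, u y ^ (d + 1 + 1)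
            ∂((volume.restrict I).prod (volume : Measure (Fin (d + 1) → ℝ))) := by
          rw [← mul_assoc, ← pow_succ']
          congr 1
          have hW2 : ∀ y, W y ^ (d + 1)
              = ∫⁻ ξ, u (y.1, (Fin.snoc (α := fun _ => ℝ) y.2 ξ : Fin (d + 1) → ℝ)) ^ (d + 1 + 1) := by
            intro y
            rw [hW]
            exact rpow_inv_pow (k := d + 1) (by omega) _
          simp only [hW2]
          have m7 : Measurable (fun p : ℝ × (Fin d → ℝ) =>
              ∫⁻ ξ, u (p.1, (Fin.snoc (α := fun _ => ℝ) p.2 ξ : Fin (d + 1) → ℝ)) ^ (d + 1 + 1)) :=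
            (husn.pow_const (d + 1 + 1)).lintegral_prod_right'
          rw [lintegral_prod _ m7.aemeasurable, lintegral_prod _ (hu.pow_const _).aemeasurable]
          apply lintegral_congr
          intro t
          have m8 : Measurable (fun x : Fin (d + 1) → ℝ => u (t, x) ^ (d + 1 + 1)) :=
            (hu.comp measurable_prodMk_left).pow_const _
          rw [volume_pi, volume_pi, lintegral_snoc volume m8]

end Pool.Agent.H803R2.Tri
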