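import Pool.Agent.H803R2.KakDet

set_option autoImplicit false

/-!
A Schur / TT* lemma for positive kernels, and the planar Kakeya estimate in kernel form.
-/

open MeasureTheory Set Filter Topology ENNReal NNReal

namespace Pool.Agent.H803R2.Tri

theorem sq_le_of_sq_le_mul {x c : ℝ≥0∞} (hx : x ≠ ∞) (h : x ^ 2 ≤ c * x) : x ≤ c := by
  by_cases h0 : x = 0
  · rw [h0]; exact zero_le
  · rw [sq] at h
    exact (ENNReal.mul_le_mul_iff_left h0 hx).1 h

/-- Cauchy-Schwarz for lower integrals. -/
theorem cauchy_schwarz {α : Type*} [MeasurableSpace α] (μ : Measure α) {f g : α → ℝ≥0∞}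
    (hf : AEMeasurable f μ) (hg : AEMeasurable g μ) :
    (∫⁻ a, f a * g a ∂μ) ^ 2 ≤ (∫⁻ a, f a ^ 2 ∂μ) * (∫⁻ a, g a ^ 2 ∂μ) := by
  have h := ENNReal.lintegral_mul_norm_pow_le (μ := μ) (hf.pow_const 2) (hg.pow_const 2)
    (p := 1/2) (q := 1/2) (by norm_num) (by norm_num) (by norm_num)
  have e : ∀ x : ℝ≥0∞, (x ^ 2) ^ ((1:ℝ)/2) = x := by
    intro x
    rw [← ENNReal.rpow_natCast, ← ENNReal.rpow_mul]
    norm_num
  have e2 : ∀ x : ℝ≥0∞, (x ^ ((1:ℝ)/2)) ^ 2 = x := by
    intro x
    rw [← ENNReal.rpow_natCast, ← ENNReal.rpow_mul]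
    norm_num
  simp only [e] at h
  calc (∫⁻ a, f a * g a ∂μ) ^ 2
      ≤ ((∫⁻ a, f a ^ 2 ∂μ) ^ ((1:ℝ)/2) * (∫⁻ a, g a ^ 2 ∂μ) ^ ((1:ℝ)/2)) ^ 2 := by gcongr
    _ = _ := by rw [mul_pow, e2, e2]

theorem two_mul_le_sq_add (a b : ℝ≥0∞) : 2 * (a * b) ≤ a ^ 2 + b ^ 2 := by
  by_cases ha : a = ∞
  · rw [ha]
    have : (∞ : ℝ≥0∞) ^ 2 = ∞ := by simp
    rw [this]; simp
  by_cases hb : b = ∞
  · rw [hb]
    have : (∞ : ℝ≥0∞) ^ 2 = ∞ := by simp
    rw [this]; simp
  lift a to ℝ≥0 using ha
  lift b to ℝ≥0 using hb
  have h : 2 * (a * b) ≤ a ^ 2 + b ^ 2 := by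
    have := two_mul_le_add_sq (a:ℝ) b
    have h2 : (2:ℝ) * (a * b) ≤ a ^ 2 + b ^ 2 := by linarith
    exact_mod_cast h2
  exact_mod_cast h

/-- **Schur / TT* lemma** for a positive kernel. -/
theorem schur_sq {V Y : Type*} [MeasurableSpace V] [MeasurableSpace Y] (μ : Measure V)
    [IsFiniteMeasure μ] (ν : Measure Y) [SFinite ν] {k : V → Y → ℝ≥0∞}
    (hk : Measurable (Function.uncurry k)) {Λ : ℝ≥0∞}
    (hΛ : ∀ v, ∫⁻ w, ∫⁻ y, k v y * k w y ∂ν ∂μ ≤ Λ) {F : Y → ℝ≥0∞} (hF : Measurable F) :
    ∫⁻ v, (∫⁻ y, k v y * F y ∂ν) ^ 2 ∂μ ≤ Λ * ∫⁻ y, F y ^ 2 ∂ν := by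
  set A : V → ℝ≥0∞ := fun v => ∫⁻ y, k v y * F y ∂ν with hA
  have hkF : Measurable (fun p : V × Y => k p.1 p.2 * F p.2) :=
    hk.mul (hF.comp measurable_snd)
  have hAm : Measurable A := hkF.lintegral_prod_right'
  set S := ∫⁻ y, F y ^ 2 ∂ν with hS
  have key : ∀ M : ℕ, ∫⁻ v, (min (A v) M) ^ 2 ∂μ ≤ Λ * S := by
    intro M
    set h : V → ℝ≥0∞ := fun v => min (A v) M with hh
    have hhm : Measurable h := hAm.min measurable_const
    set Q := ∫⁻ v, h v ^ 2 ∂μ with hQ
    have hQtop : Q ≠ ∞ := by
      have : Q ≤ ∫⁻ _ : V, (M:ℝ≥0∞) ^ 2 ∂μ := by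
        apply lintegral_mono
        intro v
        exact pow_le_pow_left' (min_le_right _ _) 2
      refine ne_top_of_le_ne_top ?_ this
      rw [lintegral_const]
      exact ENNReal.mul_ne_top (by simp) (measure_ne_top μ univ)
    have hQle : Q ≤ ∫⁻ v, h v * A v ∂μ := by
      apply lintegral_mono
      intro v
      simp only [sq]
      gcongr
      exact min_le_left _ _
    set H : Y → ℝ≥0∞ := fun y => ∫⁻ v, h v * k v y ∂μ with hH
    have hhk : Measurable (fun p : V × Y => h p.1 * k p.1 p.2) :=
      (hhm.comp measurable_fst).mul hk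
    have hHm : Measurable H := hhk.lintegral_prod_left'
    have hhky : ∀ y, Measurable (fun v => h v * k v y) := fun y => hhk.comp measurable_prodMk_right
    have h1 : ∫⁻ v, h v * A v ∂μ = ∫⁻ y, F y * H y ∂ν := by
      calc ∫⁻ v, h v * A v ∂μ = ∫⁻ v, ∫⁻ y, h v * (k v y * F y) ∂ν ∂μ := by
            apply lintegral_congr
            intro v
            rw [hA]
            simp only
            rw [lintegral_const_mul]
            exact hkF.comp measurable_prodMk_left
        _ = ∫⁻ y, ∫⁻ v, h v * (k v y * F y) ∂μ ∂ν := by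
            rw [lintegral_lintegral_swap]
            exact ((hhm.comp measurable_fst).mul hkF).aemeasurable
        _ = ∫⁻ y, F y * H y ∂ν := by
            apply lintegral_congr
            intro y
            rw [hH]
            simp only
            rw [← lintegral_const_mul]
            · apply lintegral_congr
              intro v
              ring
            · exact hhk.comp measurable_prodMk_right
    have hK : Measurable (fun p : V × V => ∫⁻ y, k p.1 y * k p.2 y ∂ν) := by
      have : Measurable (fun q : (V × V) × Y => k q.1.1 q.2 * k q.1.2 q.2) := by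
        apply Measurable.mul
        · exact hk.comp ((measurable_fst.comp measurable_fst).prodMk measurable_snd)
        · exact hk.comp ((measurable_snd.comp measurable_fst).prodMk measurable_snd)
      exact this.lintegral_prod_right'
    have hKv : ∀ v, Measurable (fun w => ∫⁻ y, k v y * k w y ∂ν) :=
      fun v => hK.comp measurable_prodMk_left
    have h2 : ∫⁻ y, H y ^ 2 ∂ν ≤ Λ * Q := by
      have e1 : ∫⁻ y, H y ^ 2 ∂ν
          = ∫⁻ v, ∫⁻ w, h v * h w * (∫⁻ y, k v y * k w y ∂ν) ∂μ ∂μ := by
        calc ∫⁻ y, H y ^ 2 ∂ν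
            = ∫⁻ y, ∫⁻ v, ∫⁻ w, (h v * k v y) * (h w * k w y) ∂μ ∂μ ∂ν := by
              apply lintegral_congr
              intro y
              rw [sq, hH]
              simp only
              rw [← lintegral_mul_const _ (hhky y)]
              apply lintegral_congr
              intro v
              rw [← lintegral_const_mul _ (hhky y)]
          _ = ∫⁻ v, ∫⁻ y, ∫⁻ w, (h v * k v y) * (h w * k w y) ∂μ ∂ν ∂μ := by
              rw [lintegral_lintegral_swap]
              apply Measurable.aemeasurable
              have : Measurable (fun q : (Y × V) × V =>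
                  (h q.1.2 * k q.1.2 q.1.1) * (h q.2 * k q.2 q.1.1)) := by
                apply Measurable.mul
                · exact hhk.comp ((measurable_snd.comp measurable_fst).prodMk
                    (measurable_fst.comp measurable_fst))
                · exact hhk.comp (measurable_snd.prodMk
                    (measurable_fst.comp measurable_fst))
              exact this.lintegral_prod_right'
          _ = ∫⁻ v, ∫⁻ w, ∫⁻ y, (h v * k v y) * (h w * k w y) ∂ν ∂μ ∂μ := by
              apply lintegral_congr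
              intro v
              rw [lintegral_lintegral_swap]
              apply Measurable.aemeasurable
              show Measurable (fun q : Y × V => (h v * k v q.1) * (h q.2 * k q.2 q.1))
              apply Measurable.mul
              · exact hhk.comp (measurable_const.prodMk measurable_fst)
              · exact hhk.comp (measurable_snd.prodMk measurable_fst)
          _ = _ := by
              apply lintegral_congr
              intro v
              apply lintegral_congr
              intro w
              rw [← lintegral_const_mul]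
              · apply lintegral_congr
                intro y
                ring
              · exact (hk.comp measurable_prodMk_left).mul (hk.comp measurable_prodMk_left)
      have e2 : 2 * ∫⁻ y, H y ^ 2 ∂ν ≤ 2 * (Λ * Q) := by
        rw [e1]
        have hsym : ∀ v w, ∫⁻ y, k v y * k w y ∂ν = ∫⁻ y, k w y * k v y ∂ν := by
          intro v w
          apply lintegral_congr
          intro y
          ring
        have m1 : Measurable (fun p : V × V => h p.1 ^ 2 * (∫⁻ y, k p.1 y * k p.2 y ∂ν)) :=
          ((hhm.comp measurable_fst).pow_const 2).mul hK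
        have m2 : Measurable (fun p : V × V => h p.2 ^ 2 * (∫⁻ y, k p.1 y * k p.2 y ∂ν)) :=
          ((hhm.comp measurable_snd).pow_const 2).mul hK
        have b1 : ∫⁻ v, ∫⁻ w, h v ^ 2 * (∫⁻ y, k v y * k w y ∂ν) ∂μ ∂μ ≤ Λ * Q := by
          calc ∫⁻ v, ∫⁻ w, h v ^ 2 * (∫⁻ y, k v y * k w y ∂ν) ∂μ ∂μ
              ≤ ∫⁻ v, Λ * h v ^ 2 ∂μ := by
                apply lintegral_mono
                intro v
                simp only
                rw [lintegral_const_mul _ (hKv v), mul_comm]
                gcongr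
                exact hΛ v
            _ = Λ * Q := by rw [lintegral_const_mul _ (hhm.pow_const 2)]
        have b2 : ∫⁻ v, ∫⁻ w, h w ^ 2 * (∫⁻ y, k v y * k w y ∂ν) ∂μ ∂μ ≤ Λ * Q := by
          rw [lintegral_lintegral_swap m2.aemeasurable]
          refine le_trans (le_of_eq ?_) b1
          apply lintegral_congr
          intro v
          apply lintegral_congr
          intro w
          rw [hsym]
        calc 2 * ∫⁻ v, ∫⁻ w, h v * h w * (∫⁻ y, k v y * k w y ∂ν) ∂μ ∂μ
            = ∫⁻ v, ∫⁻ w, 2 * (h v * h w * (∫⁻ y, k v y * k w y ∂ν)) ∂μ ∂μ := by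
              rw [← lintegral_const_mul]
              · apply lintegral_congr
                intro v
                rw [← lintegral_const_mul]
                exact (measurable_const.mul hhm).mul (hKv v)
              · have : Measurable (fun p : V × V => h p.1 * h p.2 * (∫⁻ y, k p.1 y * k p.2 y ∂ν)) :=
                  ((hhm.comp measurable_fst).mul (hhm.comp measurable_snd)).mul hK
                exact this.lintegral_prod_right'
          _ ≤ ∫⁻ v, ∫⁻ w, (h v ^ 2 * (∫⁻ y, k v y * k w y ∂ν)
                + h w ^ 2 * (∫⁻ y, k v y * k w y ∂ν)) ∂μ ∂μ := by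
              apply lintegral_mono
              intro v
              apply lintegral_mono
              intro w
              simp only
              rw [← mul_assoc, ← add_mul]
              gcongr
              exact two_mul_le_sq_add _ _
          _ = (∫⁻ v, ∫⁻ w, h v ^ 2 * (∫⁻ y, k v y * k w y ∂ν) ∂μ ∂μ)
                + ∫⁻ v, ∫⁻ w, h w ^ 2 * (∫⁻ y, k v y * k w y ∂ν) ∂μ ∂μ := by
              rw [← lintegral_add_left m1.lintegral_prod_right']
              apply lintegral_congr
              intro v
              rw [lintegral_add_left]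
              exact measurable_const.mul (hKv v)
          _ ≤ Λ * Q + Λ * Q := add_le_add b1 b2
          _ = 2 * (Λ * Q) := by rw [two_mul]
      exact (ENNReal.mul_le_mul_iff_right (by norm_num) (by norm_num)).1 e2
    apply sq_le_of_sq_le_mul hQtop
    calc Q ^ 2 ≤ (∫⁻ y, F y * H y ∂ν) ^ 2 := by
          rw [← h1]; exact pow_le_pow_left' hQle 2
      _ ≤ S * ∫⁻ y, H y ^ 2 ∂ν := cauchy_schwarz ν hF.aemeasurable hHm.aemeasurable
      _ ≤ S * (Λ * Q) := by gcongr
      _ = Λ * S * Q := by ring
  have hmono : ∀ v, A v ^ 2 = ⨆ M : ℕ, (min (A v) M) ^ 2 := by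
    intro v
    apply le_antisymm
    · by_cases hv : A v = ∞
      · rw [hv]
        have : ∀ M : ℕ, (M:ℝ≥0∞) ≤ ⨆ M : ℕ, (min ∞ (M:ℝ≥0∞)) ^ 2 := by
          intro M
          refine le_trans ?_ (le_iSup (fun M : ℕ => (min ∞ (M:ℝ≥0∞)) ^ 2) M)
          simp only [le_top, inf_of_le_right]
          rcases M with _ | M
          · simp
          · exact_mod_cast Nat.le_self_pow (by norm_num) _
        have h3 : (⨆ M : ℕ, (M:ℝ≥0∞)) ≤ ⨆ M : ℕ, (min ∞ (M:ℝ≥0∞)) ^ 2 := iSup_le this
        rw [ENNReal.iSup_natCast] at h3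
        exact le_top.trans h3
      · obtain ⟨M, hM⟩ := ENNReal.exists_nat_gt hv
        refine le_trans ?_ (le_iSup (fun M : ℕ => (min (A v) (M:ℝ≥0∞)) ^ 2) M)
        simp only [min_eq_left hM.le, le_refl]
    · apply iSup_le
      intro M
      exact pow_le_pow_left' (min_le_left _ _) 2
  calc ∫⁻ v, A v ^ 2 ∂μ = ∫⁻ v, ⨆ M : ℕ, (min (A v) M) ^ 2 ∂μ := by simp only [hmono]
    _ = ⨆ M : ℕ, ∫⁻ v, (min (A v) M) ^ 2 ∂μ := by
        rw [lintegral_iSup]
        · intro M
          exact (hAm.min measurable_const).pow_const 2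
        · intro M N hMN v
          simp only
          gcongr
    _ ≤ Λ * S := iSup_le key

end Pool.Agent.H803R2.Tri
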