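import Pool.Agent.H803R2.TriCore

set_option autoImplicit false

/-!
Measurable selection for a countable supremum, cubes, and sums over unit intervals.
-/

open MeasureTheory Set Filter Topology ENNReal NNReal

namespace Pool.Agent.H803R2.Tri

/-- A countable supremum is controlled by measurable selections. -/
theorem select_iSup {V : Type*} [MeasurableSpace V] (μ : Measure V) {A : ℕ → V → ℝ≥0∞}
    (hA : ∀ n, Measurable (A n)) (p : ℕ) {K : ℝ≥0∞}
    (h : ∀ J : V → ℕ, Measurable J → ∫⁻ v, A (J v) v ^ p ∂μ ≤ K) :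
    ∫⁻ v, (⨆ n, A n v) ^ p ∂μ ≤ K := by
  classical
  have hAJ : ∀ J : V → ℕ, Measurable J → Measurable (fun v => A (J v) v) := by
    intro J hJ
    have : Measurable (fun q : ℕ × V => A q.1 q.2) :=
      measurable_from_prod_countable_right (fun n => hA n)
    exact this.comp (hJ.prodMk measurable_id)
  have hsel : ∀ N : ℕ, ∃ J : V → ℕ, Measurable J ∧ (∀ v, J v ≤ N) ∧
      (∀ v, ∀ n ≤ N, A n v ≤ A (J v) v) := by
    intro N
    induction N with
    | zero =>
      refine ⟨fun _ => 0, measurable_const, fun _ => le_rfl, ?_⟩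
      intro v n hn
      have : n = 0 := by omega
      rw [this]
    | succ N ih =>
      obtain ⟨J, hJ, hJN, hJmax⟩ := ih
      refine ⟨fun v => if A (J v) v < A (N + 1) v then N + 1 else J v, ?_, ?_, ?_⟩
      · exact Measurable.ite (measurableSet_lt (hAJ J hJ) (hA (N + 1))) measurable_const hJ
      · intro v
        show (if A (J v) v < A (N + 1) v then N + 1 else J v) ≤ N + 1
        split_ifs
        · exact le_rfl
        · exact (hJN v).trans (Nat.le_succ N)
      · intro v n hn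
        show A n v ≤ A (if A (J v) v < A (N + 1) v then N + 1 else J v) v
        split_ifs with hlt
        · rcases Nat.lt_or_ge N n with h1 | h1
          · have : n = N + 1 := by omega
            rw [this]
          · exact (hJmax v n h1).trans hlt.le
        · push Not at hlt
          rcases Nat.lt_or_ge N n with h1 | h1
          · have : n = N + 1 := by omega
            rw [this]
            exact hlt
          · exact hJmax v n h1
  set S : ℕ → V → ℝ≥0∞ := fun N v => (Finset.range (N + 1)).sup (fun n => A n v) with hS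
  have hSeq : ∀ N, ∃ J : V → ℕ, Measurable J ∧ ∀ v, S N v = A (J v) v := by
    intro N
    obtain ⟨J, hJ, hJN, hJmax⟩ := hsel N
    refine ⟨J, hJ, fun v => le_antisymm ?_ ?_⟩
    · apply Finset.sup_le
      intro n hn
      exact hJmax v n (by simpa [Nat.lt_succ_iff] using hn)
    · exact Finset.le_sup (f := fun n => A n v) (Finset.mem_range.2 (Nat.lt_succ_of_le (hJN v)))
  have hsup : ∀ v, (⨆ n, A n v) ^ p = ⨆ N, S N v ^ p := by
    intro v
    rw [← ENNReal.iSup_pow]
    congr 1
    apply le_antisymm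
    · apply iSup_le
      intro n
      refine le_trans ?_ (le_iSup (fun N => S N v) n)
      exact Finset.le_sup (f := fun n => A n v) (Finset.mem_range.2 (Nat.lt_succ_self n))
    · apply iSup_le
      intro N
      apply Finset.sup_le
      intro n _
      exact le_iSup (fun n => A n v) n
  simp only [hsup]
  rw [lintegral_iSup]
  · apply iSup_le
    intro N
    obtain ⟨J, hJ, hJS⟩ := hSeq N
    simp only [hJS]
    exact h J hJ
  · intro N
    obtain ⟨J, hJ, hJS⟩ := hSeq N
    have : (fun v => S N v ^ p) = fun v => A (J v) v ^ p := by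
      funext v
      rw [hJS]
    rw [this]
    exact (hAJ J hJ).pow_const p
  · intro M N hMN v
    simp only [hS]
    gcongr

/-- The product of the restricted Lebesgue measures is a multiple of the product of the `rho r`. -/
theorem pi_restrict_eq {r : ℝ} (hr : 0 < r) (D : ℕ) :
    (Measure.pi fun _ : Fin D => volume.restrict (Icc (-r) r))
      = (ENNReal.ofReal (2 * r)) ^ D • (Measure.pi fun _ : Fin D => rho r) := by
  have hp := rho_prob hr
  have h0 : ENNReal.ofReal (2 * r) ≠ 0 := by simpa using hr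
  have h1 : ENNReal.ofReal (2 * r) ≠ ∞ := ENNReal.ofReal_ne_top
  apply Measure.pi_eq
  intro s hs
  rw [Measure.smul_apply, Measure.pi_pi, smul_eq_mul]
  have h2 : ∀ i, (volume.restrict (Icc (-r) r)) (s i) = ENNReal.ofReal (2 * r) * rho r (s i) := by
    intro i
    unfold rho
    rw [Measure.smul_apply, smul_eq_mul, ← mul_assoc, ENNReal.mul_inv_cancel h0 h1, one_mul]
  simp only [h2]
  rw [Finset.prod_mul_distrib]
  simp

/-- Integrals over cubes. -/
theorem lintegral_cube {r : ℝ} (hr : 0 < r) {D : ℕ} {g : (Fin D → ℝ) → ℝ≥0∞} (hg : Measurable g)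
    (y : Fin D → ℝ) :
    ∫⁻ x in {x : Fin D → ℝ | ∀ i, |x i - y i| ≤ r}, g x
      = (ENNReal.ofReal (2 * r)) ^ D * ∫⁻ z, g (y + z) ∂(Measure.pi fun _ : Fin D => rho r) := by
  have hset : MeasurableSet {x : Fin D → ℝ | ∀ i, |x i - y i| ≤ r} := by
    have : {x : Fin D → ℝ | ∀ i, |x i - y i| ≤ r} = ⋂ i, {x | |x i - y i| ≤ r} := by
      ext x; simp
    rw [this]
    apply MeasurableSet.iInter
    intro i
    exact measurableSet_le ((measurable_pi_apply i).sub_const _).abs measurable_const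
  have hset2 : MeasurableSet (Set.univ.pi fun _ : Fin D => Icc (-r) r) :=
    MeasurableSet.univ_pi fun _ => measurableSet_Icc
  rw [← lintegral_indicator hset,
    ← lintegral_add_left_eq_self (fun x => ({x : Fin D → ℝ | ∀ i, |x i - y i| ≤ r}).indicator g x) y]
  have h1 : ∀ z, ({x : Fin D → ℝ | ∀ i, |x i - y i| ≤ r}).indicator g (y + z)
      = (Set.univ.pi fun _ : Fin D => Icc (-r) r).indicator (fun z => g (y + z)) z := by
    intro z
    by_cases hz : z ∈ Set.univ.pi fun _ : Fin D => Icc (-r) r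
    · rw [indicator_of_mem hz, indicator_of_mem]
      intro i
      have := hz i (mem_univ i)
      rw [Pi.add_apply, add_sub_cancel_left, abs_le]
      exact ⟨this.1, this.2⟩
    · rw [indicator_of_notMem hz, indicator_of_notMem]
      intro h
      apply hz
      intro i _
      have := h i
      rw [Pi.add_apply, add_sub_cancel_left, abs_le] at this
      exact ⟨this.1, this.2⟩
  simp only [h1]
  rw [lintegral_indicator hset2, volume_pi, Measure.restrict_pi_pi, pi_restrict_eq hr,
    lintegral_smul_measure, smul_eq_mul]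

/-- Sum over the intervals `[k, k+4)`. -/
theorem tsum_Ico_le {g : ℝ → ℝ≥0∞} :
    ∑' k : ℤ, ∫⁻ t in Ico (k:ℝ) (k + 4), g t ≤ 4 * ∫⁻ t, g t := by
  have h1 : ∀ i : ℤ, ∑' k : ℤ, ∫⁻ t in Ico ((k + i : ℤ) : ℝ) ((k + i : ℤ) + 1), g t ≤ ∫⁻ t, g t := by
    intro i
    have e : ∑' k : ℤ, ∫⁻ t in Ico ((k + i : ℤ) : ℝ) ((k + i : ℤ) + 1), g t
        = ∑' k : ℤ, ∫⁻ t in Ico (k : ℝ) (k + 1), g t :=
      (Equiv.addRight i).tsum_eq (fun k : ℤ => ∫⁻ t in Ico (k : ℝ) (k + 1), g t)
    rw [e, ← lintegral_iUnion (fun k => measurableSet_Ico) (pairwise_disjoint_Ico_intCast ℝ)]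
    exact setLIntegral_le_lintegral _ _
  have h2 : ∀ k : ℤ, ∫⁻ t in Ico (k:ℝ) (k + 4), g t
      ≤ (∫⁻ t in Ico ((k + 0 : ℤ) : ℝ) ((k + 0 : ℤ) + 1), g t)
        + (∫⁻ t in Ico ((k + 1 : ℤ) : ℝ) ((k + 1 : ℤ) + 1), g t)
        + (∫⁻ t in Ico ((k + 2 : ℤ) : ℝ) ((k + 2 : ℤ) + 1), g t)
        + (∫⁻ t in Ico ((k + 3 : ℤ) : ℝ) ((k + 3 : ℤ) + 1), g t) := by
    intro k
    have hsub : Ico (k:ℝ) (k + 4) ⊆ ((Ico ((k + 0 : ℤ) : ℝ) ((k + 0 : ℤ) + 1)
        ∪ Ico ((k + 1 : ℤ) : ℝ) ((k + 1 : ℤ) + 1))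
        ∪ Ico ((k + 2 : ℤ) : ℝ) ((k + 2 : ℤ) + 1)) ∪ Ico ((k + 3 : ℤ) : ℝ) ((k + 3 : ℤ) + 1) := by
      intro t ht
      push_cast
      simp only [mem_union, mem_Ico] at *
      rcases lt_or_ge t (k + 1) with h | h
      · left; left; left; constructor <;> linarith
      · rcases lt_or_ge t (k + 2) with h' | h'
        · left; left; right; constructor <;> linarith
        · rcases lt_or_ge t (k + 3) with h'' | h''
          · left; right; constructor <;> linarith
          · right; constructor <;> linarith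
    refine (lintegral_mono_set hsub).trans ?_
    refine (lintegral_union_le _ _ _).trans ?_
    gcongr
    refine (lintegral_union_le _ _ _).trans ?_
    gcongr
    exact lintegral_union_le _ _ _
  calc ∑' k : ℤ, ∫⁻ t in Ico (k:ℝ) (k + 4), g t
      ≤ ∑' k : ℤ, ((∫⁻ t in Ico ((k + 0 : ℤ) : ℝ) ((k + 0 : ℤ) + 1), g t)
        + (∫⁻ t in Ico ((k + 1 : ℤ) : ℝ) ((k + 1 : ℤ) + 1), g t)
        + (∫⁻ t in Ico ((k + 2 : ℤ) : ℝ) ((k + 2 : ℤ) + 1), g t)
        + (∫⁻ t in Ico ((k + 3 : ℤ) : ℝ) ((k + 3 : ℤ) + 1), g t)) := ENNReal.tsum_le_tsum h2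
    _ ≤ (∫⁻ t, g t) + (∫⁻ t, g t) + (∫⁻ t, g t) + (∫⁻ t, g t) := by
        rw [ENNReal.tsum_add, ENNReal.tsum_add, ENNReal.tsum_add]
        gcongr
        · exact h1 0
        · exact h1 1
        · exact h1 2
        · exact h1 3
    _ = 4 * ∫⁻ t, g t := by ring

end Pool.Agent.H803R2.Tri
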