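import Pool.Agent.H803R2.TriSchur

set_option autoImplicit false

/-!
One step of the iteration for triangular families.
-/

open MeasureTheory Set Filter Topology ENNReal NNReal

namespace Pool.Agent.H803R2.Tri

/-- Normalised Lebesgue measure on `[-r, r]`. -/
noncomputable def rho (r : ℝ) : Measure ℝ :=
  (ENNReal.ofReal (2 * r))⁻¹ • volume.restrict (Icc (-r) r)

/-- Lebesgue measure on `[-1, 1]`. -/
noncomputable def kap : Measure ℝ := volume.restrict (Icc (-1) 1)

instance : IsFiniteMeasure kap := by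
  unfold kap
  infer_instance

theorem rho_prob {r : ℝ} (hr : 0 < r) : IsProbabilityMeasure (rho r) := by
  constructor
  unfold rho
  rw [Measure.smul_apply, Measure.restrict_apply_univ, Real.volume_Icc, smul_eq_mul]
  have : r - -r = 2 * r := by ring
  rw [this]
  apply ENNReal.inv_mul_cancel
  · simpa using hr
  · exact ENNReal.ofReal_ne_top

/-- The constant of the planar estimate. -/
noncomputable def lam (r : ℝ) : ℝ≥0∞ := 4 + 4 * ENNReal.ofReal (Real.log (1 + 3 / r))

/-- The kernel `1_{|ξ - c| ≤ r} / (2 r)`. -/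
noncomputable def ker (r c ξ : ℝ) : ℝ≥0∞ :=
  if |ξ - c| ≤ r then (ENNReal.ofReal (2 * r))⁻¹ else 0

theorem measurable_ker (r : ℝ) : Measurable (fun p : ℝ × ℝ => ker r p.1 p.2) := by
  unfold ker
  apply Measurable.ite
  · exact measurableSet_le ((measurable_snd.sub measurable_fst).abs) measurable_const
  · exact measurable_const
  · exact measurable_const

theorem lintegral_rho (r c : ℝ) {G : ℝ → ℝ≥0∞} (hG : Measurable G) :
    ∫⁻ ζ, G (c + ζ) ∂(rho r) = ∫⁻ ξ, ker r c ξ * G ξ := by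
  unfold rho
  rw [lintegral_smul_measure, smul_eq_mul, ← lintegral_indicator measurableSet_Icc,
    ← lintegral_const_mul]
  · rw [← lintegral_add_left_eq_self (fun ξ => ker r c ξ * G ξ) c]
    apply lintegral_congr
    intro ζ
    unfold ker
    by_cases h : ζ ∈ Icc (-r) r
    · rw [indicator_of_mem h, if_pos]
      rw [add_sub_cancel_left, abs_le]
      exact ⟨h.1, h.2⟩
    · rw [indicator_of_notMem h, if_neg]
      · simp
      · rw [add_sub_cancel_left, abs_le]
        exact fun h2 => h ⟨h2.1, h2.2⟩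
  · exact (hG.comp (measurable_const.add measurable_id)).indicator measurableSet_Icc

theorem lintegral_ker {r : ℝ} (hr : 0 < r) (c : ℝ) : ∫⁻ ξ, ker r c ξ = 1 := by
  have := lintegral_rho r c (G := fun _ => 1) measurable_const
  simp only [mul_one] at this
  rw [← this]
  have := rho_prob hr
  simp

theorem ker_mul_ker_le (r c c' ξ : ℝ) :
    ker r c ξ * ker r c' ξ ≤ (if |c - c'| ≤ 2 * r then (ENNReal.ofReal (2 * r))⁻¹ else 0) * ker r c' ξ := by
  by_cases h : |c - c'| ≤ 2 * r
  · rw [if_pos h]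
    gcongr
    unfold ker
    split_ifs
    · exact le_rfl
    · exact zero_le
  · rw [if_neg h, zero_mul, nonpos_iff_eq_zero, mul_eq_zero]
    by_contra hc
    push Not at hc
    apply h
    unfold ker at hc
    have h1 : |ξ - c| ≤ r := by
      by_contra h1
      exact hc.1 (if_neg h1)
    have h2 : |ξ - c'| ≤ r := by
      by_contra h2
      exact hc.2 (if_neg h2)
    calc |c - c'| = |(ξ - c') - (ξ - c)| := by congr 1; ring
      _ ≤ |ξ - c'| + |ξ - c| := abs_sub _ _
      _ ≤ 2 * r := by linarith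

theorem vol_strip_le {r a b : ℝ} (hr : 0 < r) (hb : b ≠ 0) :
    volume {t : ℝ | |a + t * b| ≤ 2 * r} ≤ ENNReal.ofReal (4 * r / |b|) := by
  have hb' : 0 < |b| := abs_pos.mpr hb
  have hsub : {t : ℝ | |a + t * b| ≤ 2 * r} ⊆ Icc (-a / b - 2 * r / |b|) (-a / b + 2 * r / |b|) := by
    intro t ht
    have h1 : |a + t * b| = |t - -a / b| * |b| := by
      rw [← abs_mul]
      congr 1
      field_simp
      ring
    have h2 : |t - -a / b| ≤ 2 * r / |b| := by
      rw [le_div_iff₀ hb', ← h1]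
      exact ht
    rw [abs_le] at h2
    constructor <;> linarith [h2.1, h2.2]
  refine (measure_mono hsub).trans ?_
  rw [Real.volume_Icc]
  apply ENNReal.ofReal_le_ofReal
  apply le_of_eq
  ring

section

variable {Z : Type*} [MeasurableSpace Z] (π : Measure Z) [IsProbabilityMeasure π]

theorem kernel_pair {r : ℝ} (hr : 0 < r) {I : Set ℝ} (hI4 : volume I ≤ 4)
    (β : ℝ → ℝ) (s s' : ℝ) :
    ∫⁻ y : (ℝ × Z) × ℝ, ker r (β s + y.1.1 * s) y.2 * ker r (β s' + y.1.1 * s') y.2
      ∂(((volume.restrict I).prod π).prod volume)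
      ≤ (ENNReal.ofReal (2 * r))⁻¹ *
        volume.restrict I {t : ℝ | |(β s - β s') + t * (s - s')| ≤ 2 * r} := by
  have hmeas : ∀ a : ℝ, Measurable (fun y : (ℝ × Z) × ℝ => ker r (β a + y.1.1 * a) y.2) := by
    intro a
    exact (measurable_ker r).comp ((measurable_const.add
      ((measurable_fst.comp measurable_fst).mul_const a)).prodMk measurable_snd)
  have hS : MeasurableSet {t : ℝ | |(β s - β s') + t * (s - s')| ≤ 2 * r} :=
    measurableSet_le ((measurable_const.add (measurable_id.mul_const _)).abs) measurable_const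
  have hm2 : Measurable (fun y : (ℝ × Z) × ℝ =>
      ker r (β s + y.1.1 * s) y.2 * ker r (β s' + y.1.1 * s') y.2) := (hmeas s).mul (hmeas s')
  rw [lintegral_prod _ hm2.aemeasurable]
  have h1 : ∀ p : ℝ × Z, ∫⁻ ξ, ker r (β s + p.1 * s) ξ * ker r (β s' + p.1 * s') ξ
      ≤ {t : ℝ | |(β s - β s') + t * (s - s')| ≤ 2 * r}.indicator
        (fun _ => (ENNReal.ofReal (2 * r))⁻¹) p.1 := by
    intro p
    calc ∫⁻ ξ, ker r (β s + p.1 * s) ξ * ker r (β s' + p.1 * s') ξ
        ≤ ∫⁻ ξ, (if |(β s + p.1 * s) - (β s' + p.1 * s')| ≤ 2 * r then (ENNReal.ofReal (2 * r))⁻¹ else 0)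
            * ker r (β s' + p.1 * s') ξ := by
          apply lintegral_mono
          intro ξ
          exact ker_mul_ker_le _ _ _ _
      _ = (if |(β s + p.1 * s) - (β s' + p.1 * s')| ≤ 2 * r then (ENNReal.ofReal (2 * r))⁻¹ else 0) := by
          rw [lintegral_const_mul, lintegral_ker hr, mul_one]
          exact (measurable_ker r).comp measurable_prodMk_left
      _ ≤ _ := by
          apply le_of_eq
          have e : (β s + p.1 * s) - (β s' + p.1 * s') = (β s - β s') + p.1 * (s - s') := by ring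
          rw [e]
          by_cases h : |(β s - β s') + p.1 * (s - s')| ≤ 2 * r
          · rw [if_pos h, indicator_of_mem (show p.1 ∈ {t : ℝ | |(β s - β s') + t * (s - s')| ≤ 2 * r} from h)]
          · rw [if_neg h, indicator_of_notMem (show p.1 ∉ {t : ℝ | |(β s - β s') + t * (s - s')| ≤ 2 * r} from h)]
  calc ∫⁻ p : ℝ × Z, (∫⁻ ξ, ker r (β s + p.1 * s) ξ * ker r (β s' + p.1 * s') ξ)
        ∂((volume.restrict I).prod π)
      ≤ ∫⁻ p : ℝ × Z, {t : ℝ | |(β s - β s') + t * (s - s')| ≤ 2 * r}.indicator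
        (fun _ => (ENNReal.ofReal (2 * r))⁻¹) p.1 ∂((volume.restrict I).prod π) :=
        lintegral_mono h1
    _ = ∫⁻ t, ∫⁻ _ : Z, {t : ℝ | |(β s - β s') + t * (s - s')| ≤ 2 * r}.indicator
        (fun _ => (ENNReal.ofReal (2 * r))⁻¹) t ∂π ∂(volume.restrict I) := by
        rw [lintegral_prod]
        exact ((measurable_const.indicator hS).comp measurable_fst).aemeasurable
    _ = ∫⁻ t, {t : ℝ | |(β s - β s') + t * (s - s')| ≤ 2 * r}.indicator
        (fun _ => (ENNReal.ofReal (2 * r))⁻¹) t ∂(volume.restrict I) := by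
        apply lintegral_congr
        intro t
        rw [lintegral_const, measure_univ, mul_one]
    _ = _ := by
        rw [lintegral_indicator hS, setLIntegral_const]

theorem kernel_row {r : ℝ} (hr : 0 < r) {I : Set ℝ} (hI4 : volume I ≤ 4)
    (β : ℝ → ℝ) (s : ℝ) :
    ∫⁻ s', ∫⁻ y : (ℝ × Z) × ℝ, ker r (β s + y.1.1 * s) y.2 * ker r (β s' + y.1.1 * s') y.2
      ∂(((volume.restrict I).prod π).prod volume) ∂kap ≤ lam r := by
  have hb1 : ∀ s', ∫⁻ y : (ℝ × Z) × ℝ, ker r (β s + y.1.1 * s) y.2 * ker r (β s' + y.1.1 * s') y.2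
      ∂(((volume.restrict I).prod π).prod volume) ≤ ENNReal.ofReal (2 / r) := by
    intro s'
    refine (kernel_pair π hr hI4 β s s').trans ?_
    calc (ENNReal.ofReal (2 * r))⁻¹ *
        volume.restrict I {t : ℝ | |(β s - β s') + t * (s - s')| ≤ 2 * r}
        ≤ (ENNReal.ofReal (2 * r))⁻¹ * 4 := by
          gcongr
          refine le_trans ?_ hI4
          rw [← Measure.restrict_apply_univ (μ := volume) (s := I)]
          exact measure_mono (subset_univ _)
      _ = ENNReal.ofReal (2 / r) := by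
          rw [← ENNReal.ofReal_inv_of_pos (by positivity), show (4:ℝ≥0∞) = ENNReal.ofReal 4 by simp,
            ← ENNReal.ofReal_mul (by positivity)]
          congr 1
          field_simp
          ring
  have hb2 : ∀ s', s' ≠ s → ∫⁻ y : (ℝ × Z) × ℝ, ker r (β s + y.1.1 * s) y.2 * ker r (β s' + y.1.1 * s') y.2
      ∂(((volume.restrict I).prod π).prod volume) ≤ 2 * (ENNReal.ofReal |s' - s|)⁻¹ := by
    intro s' hs
    have hss : s - s' ≠ 0 := sub_ne_zero.mpr (Ne.symm hs)
    have habs : 0 < |s - s'| := abs_pos.mpr hss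
    refine (kernel_pair π hr hI4 β s s').trans ?_
    calc (ENNReal.ofReal (2 * r))⁻¹ *
        volume.restrict I {t : ℝ | |(β s - β s') + t * (s - s')| ≤ 2 * r}
        ≤ (ENNReal.ofReal (2 * r))⁻¹ * ENNReal.ofReal (4 * r / |s - s'|) := by
          gcongr
          exact (Measure.restrict_apply_le _ _).trans (vol_strip_le hr hss)
      _ = 2 * (ENNReal.ofReal |s' - s|)⁻¹ := by
          rw [abs_sub_comm s' s, ← ENNReal.ofReal_inv_of_pos (by positivity),
            ← ENNReal.ofReal_inv_of_pos habs, show (2:ℝ≥0∞) = ENNReal.ofReal 2 by simp,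
            ← ENNReal.ofReal_mul (by positivity), ← ENNReal.ofReal_mul (by positivity)]
          congr 1
          field_simp
          ring
  set K : ℝ → ℝ≥0∞ := fun s' => ∫⁻ y : (ℝ × Z) × ℝ,
    ker r (β s + y.1.1 * s) y.2 * ker r (β s' + y.1.1 * s') y.2
      ∂(((volume.restrict I).prod π).prod volume) with hK
  unfold kap
  have hsub : Icc (-1:ℝ) 1 ⊆ Icc (s - r) (s + r) ∪ {t | t ∈ Icc (-1:ℝ) (-1 + 3) ∧ r ≤ |t - s|} := by
    intro t ht
    by_cases h : r ≤ |t - s|
    · right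
      exact ⟨⟨ht.1, by linarith [ht.2]⟩, h⟩
    · left
      push Not at h
      rw [abs_lt] at h
      constructor <;> linarith [h.1, h.2]
  calc ∫⁻ s' in Icc (-1) 1, K s'
      ≤ ∫⁻ s' in Icc (s - r) (s + r) ∪ {t | t ∈ Icc (-1:ℝ) (-1 + 3) ∧ r ≤ |t - s|}, K s' :=
        lintegral_mono_set hsub
    _ ≤ (∫⁻ s' in Icc (s - r) (s + r), K s') +
        ∫⁻ s' in {t | t ∈ Icc (-1:ℝ) (-1 + 3) ∧ r ≤ |t - s|}, K s' := lintegral_union_le _ _ _
    _ ≤ (∫⁻ _ in Icc (s - r) (s + r), ENNReal.ofReal (2 / r)) +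
        ∫⁻ s' in {t | t ∈ Icc (-1:ℝ) (-1 + 3) ∧ r ≤ |t - s|}, 2 * (ENNReal.ofReal |s' - s|)⁻¹ := by
        apply add_le_add
        · apply lintegral_mono
          intro s'
          exact hb1 s'
        · apply setLIntegral_mono' 
          · apply measurableSet_Icc.inter
            exact measurableSet_le measurable_const ((measurable_id.sub_const s).abs)
          · intro s' hs'
            apply hb2
            rintro rfl
            have := hs'.2
            simp at this
            linarith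
    _ ≤ 4 + 2 * (2 * ENNReal.ofReal (Real.log (1 + 3 / r))) := by
        apply add_le_add
        · rw [setLIntegral_const, Real.volume_Icc, ← ENNReal.ofReal_mul (by positivity)]
          rw [show (4:ℝ≥0∞) = ENNReal.ofReal 4 by simp]
          apply ENNReal.ofReal_le_ofReal
          apply le_of_eq
          field_simp
          ring
        · rw [lintegral_const_mul]
          · gcongr
            exact Pool.Agent.H803R2.Kak.lint_away hr
          · exact ((measurable_id.sub_const s).abs.ennreal_ofReal).inv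
    _ = lam r := by
        unfold lam
        ring

/-- The `L²` estimate with an additional parameter. -/
theorem l2_step {r : ℝ} (hr : 0 < r) {I : Set ℝ} (hI4 : volume I ≤ 4)
    {β : ℝ → ℝ} (hβ : Measurable β) {F : (ℝ × Z) × ℝ → ℝ≥0∞} (hF : Measurable F) :
    ∫⁻ s, (∫⁻ q : (ℝ × Z) × ℝ, F (q.1, β s + q.1.1 * s + q.2)
        ∂(((volume.restrict I).prod π).prod (rho r))) ^ 2 ∂kap
      ≤ lam r * ∫⁻ y, F y ^ 2 ∂(((volume.restrict I).prod π).prod volume) := by
  have hp := rho_prob hr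
  have hk : Measurable (Function.uncurry
      (fun (s : ℝ) (y : (ℝ × Z) × ℝ) => ker r (β s + y.1.1 * s) y.2)) := by
    have h0 : Measurable (fun p : ℝ × ((ℝ × Z) × ℝ) => (β p.1 + p.2.1.1 * p.1, p.2.2)) := by
      apply Measurable.prodMk
      · exact (hβ.comp measurable_fst).add
          (((measurable_fst.comp measurable_fst).comp measurable_snd).mul measurable_fst)
      · exact measurable_snd.comp measurable_snd
    exact (measurable_ker r).comp h0
  have h := schur_sq kap (((volume.restrict I).prod π).prod (volume : Measure ℝ)) hk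
    (kernel_row π hr hI4 β) hF
  refine le_trans (le_of_eq ?_) h
  apply lintegral_congr
  intro s
  congr 1
  have m1 : Measurable (fun q : (ℝ × Z) × ℝ => F (q.1, β s + q.1.1 * s + q.2)) := by
    apply hF.comp
    apply Measurable.prodMk measurable_fst
    exact (measurable_const.add ((measurable_fst.comp measurable_fst).mul_const s)).add
      measurable_snd
  have m2 : Measurable (fun y : (ℝ × Z) × ℝ => ker r (β s + y.1.1 * s) y.2 * F y) := by
    apply Measurable.mul _ hF
    exact hk.comp (measurable_const.prodMk measurable_id)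
  rw [lintegral_prod _ m1.aemeasurable, lintegral_prod _ m2.aemeasurable]
  apply lintegral_congr
  intro p
  exact lintegral_rho r (β s + p.1 * s) (G := fun ξ => F (p, ξ)) (hF.comp measurable_prodMk_left)

theorem rpow_inv_pow {k : ℕ} (hk : 1 ≤ k) (x : ℝ≥0∞) : (x ^ ((1:ℝ) / k)) ^ k = x := by
  have hk0 : (k:ℝ) ≠ 0 := by
    have : (1:ℝ) ≤ k := by exact_mod_cast hk
    linarith
  rw [← ENNReal.rpow_natCast, ← ENNReal.rpow_mul, one_div, inv_mul_cancel₀ hk0, ENNReal.rpow_one]

/-- **One step** of the iteration. -/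
theorem step {r : ℝ} (hr : 0 < r) {I : Set ℝ} (hI4 : volume I ≤ 4)
    {β : ℝ → ℝ} (hβ : Measurable β) {U : (ℝ × Z) × ℝ → ℝ≥0∞} (hU : Measurable U)
    {k : ℕ} (hk : 1 ≤ k) :
    ∫⁻ s, (∫⁻ q : (ℝ × Z) × ℝ, U (q.1, β s + q.1.1 * s + q.2)
        ∂(((volume.restrict I).prod π).prod (rho r))) ^ (k + 1) ∂kap
      ≤ lam r * (∫⁻ y, (∫⁻ ξ, U (y, ξ) ^ (k + 1)) ^ ((1:ℝ) / k)
          ∂((volume.restrict I).prod π)) ^ k := by
  have hp := rho_prob hr
  have hk1 : (1:ℝ) ≤ k := by exact_mod_cast hk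
  have hk0 : (k:ℝ) + 1 ≠ 0 := by linarith
  set T : Measure (ℝ × Z) := (volume.restrict I).prod π with hT
  set D : Measure ((ℝ × Z) × ℝ) := T.prod (rho r) with hD
  set w : ℝ × Z → ℝ≥0∞ := fun y => (∫⁻ ξ, U (y, ξ) ^ (k + 1)) ^ ((1:ℝ) / k) with hw
  have hwm : Measurable w := ((hU.pow_const (k+1)).lintegral_prod_right').pow_const _
  set α := ∫⁻ y, w y ∂T with hα
  have hlam : lam r ≠ 0 := by
    unfold lam
    simp
  by_cases hαt : α = ∞
  · rw [hαt, ENNReal.top_pow (by omega), ENNReal.mul_top hlam]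
    exact le_top
  have hTuniv : T univ ≤ 4 := by
    rw [hT, ← univ_prod_univ, Measure.prod_prod, Measure.restrict_apply_univ,
      measure_univ (μ := π), mul_one]
    exact hI4
  -- the estimate with `w + ε`
  have main : ∀ ε : ℝ≥0, 0 < ε →
      ∫⁻ s, (∫⁻ q, U (q.1, β s + q.1.1 * s + q.2) ∂D) ^ (k + 1) ∂kap
        ≤ lam r * (α + 4 * ε) ^ k := by
    intro ε hε
    set w' : ℝ × Z → ℝ≥0∞ := fun y => w y + ε with hw'
    have hw'm : Measurable w' := hwm.add measurable_const
    have hw'0 : ∀ y, w' y ≠ 0 := by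
      intro y h
      have : (ε:ℝ≥0∞) = 0 := (add_eq_zero.1 h).2
      exact hε.ne' (by exact_mod_cast this)
    have hα' : ∫⁻ y, w' y ∂T ≤ α + 4 * ε := by
      rw [hw', lintegral_add_left hwm, lintegral_const, mul_comm]
      gcongr
    have hα't : ∫⁻ y, w' y ∂T ≠ ∞ := by
      refine ne_top_of_le_ne_top ?_ hα'
      exact ENNReal.add_ne_top.2 ⟨hαt, ENNReal.mul_ne_top (by norm_num) ENNReal.coe_ne_top⟩
    set F : (ℝ × Z) × ℝ → ℝ≥0∞ :=
      fun y => U y ^ (((k:ℝ) + 1) / 2) * w' y.1 ^ (-(((k:ℝ) - 1) / 2)) with hFdef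
    have hF : Measurable F := (hU.pow_const _).mul ((hw'm.comp measurable_fst).pow_const _)
    -- pointwise Hoelder
    have hD_w' : ∫⁻ q, w' q.1 ∂D = ∫⁻ y, w' y ∂T := by
      have hm : Measurable (fun q : (ℝ × Z) × ℝ => w' q.1) := hw'm.comp measurable_fst
      rw [hD, lintegral_prod _ hm.aemeasurable]
      apply lintegral_congr
      intro y
      show ∫⁻ _ : ℝ, w' y ∂(rho r) = w' y
      rw [lintegral_const, measure_univ, mul_one]
    have hae : ∀ᵐ q ∂D, w' q.1 < ∞ := by
      apply ae_lt_top (hw'm.comp measurable_fst)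
      show ∫⁻ q, w' q.1 ∂D ≠ ∞
      rw [hD_w']
      exact hα't
    have hpt : ∀ s, (∫⁻ q, U (q.1, β s + q.1.1 * s + q.2) ∂D) ^ (k + 1)
        ≤ (∫⁻ q, F (q.1, β s + q.1.1 * s + q.2) ∂D) ^ 2 * (∫⁻ y, w' y ∂T) ^ (k - 1) := by
      intro s
      have hmap : Measurable (fun q : (ℝ × Z) × ℝ => (q.1, β s + q.1.1 * s + q.2)) := by
        apply Measurable.prodMk measurable_fst
        exact (measurable_const.add ((measurable_fst.comp measurable_fst).mul_const s)).add
          measurable_snd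
      have e1 : ∫⁻ q, U (q.1, β s + q.1.1 * s + q.2) ∂D
          = ∫⁻ q, F (q.1, β s + q.1.1 * s + q.2) ^ (2 / ((k:ℝ) + 1))
              * w' q.1 ^ (((k:ℝ) - 1) / ((k:ℝ) + 1)) ∂D := by
        apply lintegral_congr_ae
        filter_upwards [hae] with q hq
        simp only [hFdef]
        rw [ENNReal.mul_rpow_of_nonneg _ _ (by positivity), ← ENNReal.rpow_mul,
          ← ENNReal.rpow_mul, mul_assoc, ← ENNReal.rpow_add _ _ (hw'0 _) hq.ne]
        have a1 : ((k:ℝ) + 1) / 2 * (2 / ((k:ℝ) + 1)) = 1 := by field_simp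
        have a2 : -(((k:ℝ) - 1) / 2) * (2 / ((k:ℝ) + 1)) + ((k:ℝ) - 1) / ((k:ℝ) + 1) = 0 := by
          field_simp
          ring
        rw [a1, a2, ENNReal.rpow_one, ENNReal.rpow_zero, mul_one]
      have e2 := ENNReal.lintegral_mul_norm_pow_le (μ := D) (hF.comp hmap).aemeasurable
        (hw'm.comp measurable_fst).aemeasurable (p := 2 / ((k:ℝ) + 1))
        (q := ((k:ℝ) - 1) / ((k:ℝ) + 1)) (by positivity)
        (div_nonneg (by linarith) (by linarith)) (by field_simp; ring)
      have e3 : (∫⁻ q, U (q.1, β s + q.1.1 * s + q.2) ∂D)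
          ≤ (∫⁻ q, F (q.1, β s + q.1.1 * s + q.2) ∂D) ^ (2 / ((k:ℝ) + 1))
            * (∫⁻ y, w' y ∂T) ^ (((k:ℝ) - 1) / ((k:ℝ) + 1)) := by
        rw [e1, ← hD_w']
        exact e2
      calc (∫⁻ q, U (q.1, β s + q.1.1 * s + q.2) ∂D) ^ (k + 1)
          ≤ ((∫⁻ q, F (q.1, β s + q.1.1 * s + q.2) ∂D) ^ (2 / ((k:ℝ) + 1))
            * (∫⁻ y, w' y ∂T) ^ (((k:ℝ) - 1) / ((k:ℝ) + 1))) ^ (k + 1) :=
            pow_le_pow_left' e3 _
        _ = _ := by
          rw [mul_pow, ← ENNReal.rpow_natCast, ← ENNReal.rpow_mul, ← ENNReal.rpow_natCast,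
            ← ENNReal.rpow_mul, ← ENNReal.rpow_natCast, ← ENNReal.rpow_natCast]
          congr 2
          · push_cast
            field_simp
          · push_cast [Nat.cast_sub hk]
            field_simp
    have hmeasX : Measurable (fun s => (∫⁻ q, F (q.1, β s + q.1.1 * s + q.2) ∂D) ^ 2) := by
      have : Measurable (fun p : ℝ × ((ℝ × Z) × ℝ) => F (p.2.1, β p.1 + p.2.1.1 * p.1 + p.2.2)) := by
        apply hF.comp
        apply Measurable.prodMk (measurable_fst.comp measurable_snd)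
        exact ((hβ.comp measurable_fst).add
          (((measurable_fst.comp measurable_fst).comp measurable_snd).mul measurable_fst)).add
          (measurable_snd.comp measurable_snd)
      exact this.lintegral_prod_right'.pow_const 2
    have hF2 : ∫⁻ y, F y ^ 2 ∂(T.prod volume) ≤ ∫⁻ y, w' y ∂T := by
      rw [lintegral_prod _ (hF.pow_const 2).aemeasurable]
      apply lintegral_mono
      intro y
      have f1 : ∀ ξ, F (y, ξ) ^ 2 = w' y ^ (-((k:ℝ) - 1)) * U (y, ξ) ^ (k + 1) := by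
        intro ξ
        simp only [hFdef]
        rw [mul_pow, ← ENNReal.rpow_natCast, ← ENNReal.rpow_mul, ← ENNReal.rpow_natCast,
          ← ENNReal.rpow_mul, mul_comm, ← ENNReal.rpow_natCast]
        congr 2
        · push_cast; ring
        · push_cast; ring
      simp only [f1]
      have hm : Measurable (fun ξ => U (y, ξ) ^ (k + 1)) :=
        (hU.comp measurable_prodMk_left).pow_const _
      rw [lintegral_const_mul _ hm]
      have f2 : ∫⁻ ξ, U (y, ξ) ^ (k + 1) = w y ^ k := (rpow_inv_pow hk _).symm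
      rw [f2]
      by_cases hwt : w' y = ∞
      · rw [hwt]; exact le_top
      calc w' y ^ (-((k:ℝ) - 1)) * w y ^ k ≤ w' y ^ (-((k:ℝ) - 1)) * w' y ^ k := by
            gcongr
            exact le_self_add
        _ = w' y := by
            rw [← ENNReal.rpow_natCast, ← ENNReal.rpow_add _ _ (hw'0 y) hwt]
            have : -((k:ℝ) - 1) + k = 1 := by ring
            rw [this, ENNReal.rpow_one]
    calc ∫⁻ s, (∫⁻ q, U (q.1, β s + q.1.1 * s + q.2) ∂D) ^ (k + 1) ∂kap
        ≤ ∫⁻ s, (∫⁻ q, F (q.1, β s + q.1.1 * s + q.2) ∂D) ^ 2 * (∫⁻ y, w' y ∂T) ^ (k - 1) ∂kap :=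
          lintegral_mono hpt
      _ = (∫⁻ s, (∫⁻ q, F (q.1, β s + q.1.1 * s + q.2) ∂D) ^ 2 ∂kap) * (∫⁻ y, w' y ∂T) ^ (k - 1) := by
          rw [lintegral_mul_const _ hmeasX]
      _ ≤ (lam r * ∫⁻ y, F y ^ 2 ∂(T.prod volume)) * (∫⁻ y, w' y ∂T) ^ (k - 1) := by
          gcongr
          exact l2_step π hr hI4 hβ hF
      _ ≤ (lam r * ∫⁻ y, w' y ∂T) * (∫⁻ y, w' y ∂T) ^ (k - 1) := by gcongr
      _ = lam r * (∫⁻ y, w' y ∂T) ^ k := by
          rw [mul_assoc, ← pow_succ']
          congr 2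
          omega
      _ ≤ lam r * (α + 4 * ε) ^ k := by gcongr
  -- let `ε → 0`
  have hlim : Tendsto (fun ε : ℝ≥0 => lam r * (α + 4 * (ε : ℝ≥0∞)) ^ k) (𝓝[>] 0)
      (𝓝 (lam r * (α + 4 * ((0:ℝ≥0) : ℝ≥0∞)) ^ k)) := by
    have h1 : Tendsto (fun ε : ℝ≥0 => (ε : ℝ≥0∞)) (𝓝[>] 0) (𝓝 ((0:ℝ≥0) : ℝ≥0∞)) :=
      (ENNReal.continuous_coe.tendsto 0).mono_left nhdsWithin_le_nhds
    have h2 : Tendsto (fun ε : ℝ≥0 => 4 * (ε : ℝ≥0∞)) (𝓝[>] 0) (𝓝 (4 * ((0:ℝ≥0) : ℝ≥0∞))) :=
      ENNReal.Tendsto.const_mul h1 (Or.inr (by norm_num))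
    have h3 : Tendsto (fun ε : ℝ≥0 => α + 4 * (ε : ℝ≥0∞)) (𝓝[>] 0)
        (𝓝 (α + 4 * ((0:ℝ≥0) : ℝ≥0∞))) := tendsto_const_nhds.add h2
    have h4 := ((ENNReal.continuous_pow k).tendsto _).comp h3
    apply ENNReal.Tendsto.const_mul h4
    right
    unfold lam
    exact ENNReal.add_ne_top.2 ⟨by norm_num, ENNReal.mul_ne_top (by norm_num) ENNReal.ofReal_ne_top⟩
  have hfin := ge_of_tendsto hlim (by
    filter_upwards [self_mem_nhdsWithin] with ε hε
    exact main ε hε)
  simpa using hfin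

end

end Pool.Agent.H803R2.Tri
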